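import Mathlib
import Pool.Agent.H469R2.NK.Vdc

open Finset
open Pool.Agent.H469R2.NK

namespace Pool.Agent.H425R3.MM

/-- one step of the square root -/
noncomputable def st (u : ℝ) : ℝ := √(u+1) - √u

lemma st_eq {u : ℝ} (hu : 0 < u) : st u = 1 / (√(u+1) + √u) := by
  unfold st
  have h1 : √(u+1) * √(u+1) = u+1 := Real.mul_self_sqrt (by linarith)
  have h2 : √u * √u = u := Real.mul_self_sqrt hu.le
  have h3 : 0 < √u := Real.sqrt_pos.mpr hu
  have h4 : 0 < √(u+1) := Real.sqrt_pos.mpr (by linarith)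
  rw [eq_div_iff (by positivity)]
  nlinarith

lemma st_le {u : ℝ} (hu : 0 < u) : st u ≤ 1 / (2 * √u) := by
  rw [st_eq hu]
  have h3 : 0 < √u := Real.sqrt_pos.mpr hu
  have h4 : √u ≤ √(u+1) := Real.sqrt_le_sqrt (by linarith)
  apply div_le_div_of_nonneg_left (by norm_num) (by positivity)
  linarith

lemma st_ge {u : ℝ} (hu : 0 < u) : 1 / (2 * √(u+1)) ≤ st u := by
  rw [st_eq hu]
  have h3 : 0 < √u := Real.sqrt_pos.mpr hu
  have h4 : √u ≤ √(u+1) := Real.sqrt_le_sqrt (by linarith)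
  apply div_le_div_of_nonneg_left (by norm_num) (by positivity)
  linarith

lemma st_anti {u v : ℝ} (hu : 0 < u) (huv : u ≤ v) : st v ≤ st u := by
  rw [st_eq hu, st_eq (hu.trans_le huv)]
  have h3 : 0 < √u := Real.sqrt_pos.mpr hu
  have h4 : √u ≤ √v := Real.sqrt_le_sqrt huv
  have h5 : √(u+1) ≤ √(v+1) := Real.sqrt_le_sqrt (by linarith)
  have h6 : 0 < √(u+1) := Real.sqrt_pos.mpr (by linarith)
  apply div_le_div_of_nonneg_left (by norm_num) (by positivity)
  linarith

/-- the second difference -/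
noncomputable def dd (l u : ℝ) : ℝ := (√(u+l) - √u) - (√(u+1+l) - √(u+1))

lemma dd_eq {l u : ℝ} (hl : 0 < l) (hu : 0 < u) :
    dd l u = l * (st (u+l) + st u) / ((√(u+l) + √u) * (√(u+1+l) + √(u+1))) := by
  unfold dd st
  have e1 : u + l + 1 = u + 1 + l := by ring
  rw [e1]
  have h1 : √(u+1) * √(u+1) = u+1 := Real.mul_self_sqrt (by linarith)
  have h2 : √u * √u = u := Real.mul_self_sqrt hu.le
  have h3 : 0 < √u := Real.sqrt_pos.mpr hu
  have h4 : 0 < √(u+1) := Real.sqrt_pos.mpr (by linarith)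
  have h5 : √(u+l) * √(u+l) = u+l := Real.mul_self_sqrt (by linarith)
  have h6 : √(u+1+l) * √(u+1+l) = u+1+l := Real.mul_self_sqrt (by linarith)
  have h7 : 0 < √(u+l) := Real.sqrt_pos.mpr (by linarith)
  have h8 : 0 < √(u+1+l) := Real.sqrt_pos.mpr (by linarith)
  set a := √u
  set b := √(u+1)
  set c := √(u+l)
  set d := √(u+1+l)
  have hl1 : l = (c - a) * (c + a) := by nlinarith
  have hl2 : l = (d - b) * (d + b) := by nlinarith
  rw [eq_div_iff (by positivity)]
  have e2 : (c - a) * ((c + a) * (d + b)) = l * (d + b) := by rw [hl1]; ring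
  have e3 : (d - b) * ((c + a) * (d + b)) = l * (c + a) := by rw [hl2]; ring
  have e4 : ((c - a) - (d - b)) * ((c + a) * (d + b)) = l * (d + b) - l * (c + a) := by
    rw [sub_mul, e2, e3]
  rw [e4]; ring

lemma dd_anti {l u : ℝ} (hl : 0 < l) (hu : 0 < u) : dd l (u+1) ≤ dd l u := by
  rw [dd_eq hl hu, dd_eq hl (by linarith)]
  have a1 : 0 < √u := Real.sqrt_pos.mpr hu
  have a2 : √u ≤ √(u+1) := Real.sqrt_le_sqrt (by linarith)
  have a3 : √(u+l) ≤ √(u+1+l) := Real.sqrt_le_sqrt (by linarith)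
  have a4 : 0 < √(u+l) := Real.sqrt_pos.mpr (by linarith)
  have a5 : √(u+1+l) ≤ √(u+1+1+l) := Real.sqrt_le_sqrt (by linarith)
  have a6 : √(u+1) ≤ √(u+1+1) := Real.sqrt_le_sqrt (by linarith)
  have b1 : st (u+1+l) ≤ st (u+l) := st_anti (by linarith) (by linarith)
  have b2 : st (u+1) ≤ st u := st_anti hu (by linarith)
  have b3 : 0 ≤ st (u+l) := by
    refine le_trans (by positivity) (st_ge (by linarith))
  have b4 : 0 ≤ st u := by
    refine le_trans (by positivity) (st_ge hu)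
  have a7 : 0 < √(u+1) := by linarith
  have a8 : 0 < √(u+1+l) := by linarith
  apply div_le_div₀ (by positivity) _ (by positivity) _
  · apply mul_le_mul_of_nonneg_left _ hl.le
    linarith
  · apply mul_le_mul _ _ (by positivity) (by positivity)
    · linarith
    · linarith

lemma dd_bounds {l u M : ℝ} (hM : 1 ≤ M) (hl : 0 < l) (hu : M ≤ u) (hul : u + 1 + l ≤ 4 * M) :
    l / (32 * (√M)^3) ≤ dd l u ∧ dd l u ≤ l / (4 * (√M)^3) := by
  have hM0 : 0 < M := by linarith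
  have hu0 : 0 < u := by linarith
  have s0 : 0 < √M := Real.sqrt_pos.mpr hM0
  have h4M : √(4 * M) = 2 * √M := by
    rw [show (4:ℝ) * M = 2^2 * M by norm_num, Real.sqrt_mul (by positivity), Real.sqrt_sq (by norm_num)]
  have c1 : √M ≤ √u := Real.sqrt_le_sqrt hu
  have c2 : √M ≤ √(u+l) := Real.sqrt_le_sqrt (by linarith)
  have c3 : √M ≤ √(u+1) := Real.sqrt_le_sqrt (by linarith)
  have c4 : √M ≤ √(u+1+l) := Real.sqrt_le_sqrt (by linarith)
  have d1 : √u ≤ 2 * √M := by rw [← h4M]; exact Real.sqrt_le_sqrt (by linarith)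
  have d2 : √(u+l) ≤ 2 * √M := by rw [← h4M]; exact Real.sqrt_le_sqrt (by linarith)
  have d3 : √(u+1) ≤ 2 * √M := by rw [← h4M]; exact Real.sqrt_le_sqrt (by linarith)
  have d4 : √(u+1+l) ≤ 2 * √M := by rw [← h4M]; exact Real.sqrt_le_sqrt (by linarith)
  have e1 : 1 / (4 * √M) ≤ st u := by
    refine le_trans ?_ (st_ge hu0)
    apply div_le_div_of_nonneg_left (by norm_num) (by positivity)
    linarith
  have e2 : 1 / (4 * √M) ≤ st (u+l) := by
    refine le_trans ?_ (st_ge (by linarith))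
    apply div_le_div_of_nonneg_left (by norm_num) (by positivity)
    rw [show u + l + 1 = u + 1 + l by ring]
    linarith
  have e3 : st u ≤ 1 / (2 * √M) := by
    refine (st_le hu0).trans ?_
    apply div_le_div_of_nonneg_left (by norm_num) (by positivity)
    linarith
  have e4 : st (u+l) ≤ 1 / (2 * √M) := by
    refine (st_le (by linarith)).trans ?_
    apply div_le_div_of_nonneg_left (by norm_num) (by positivity)
    linarith
  rw [dd_eq hl hu0]
  constructor
  · have h1 : l / (32 * (√M)^3) = l * (1 / (4 * √M) + 1 / (4 * √M)) / ((2 * √M + 2 * √M) * (2 * √M + 2 * √M)) := by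
      field_simp; ring
    rw [h1]
    apply div_le_div₀ _ _ (by positivity) _
    · have : 0 < 1 / (4 * √M) := by positivity
      have h2 : 0 ≤ st (u+l) + st u := by linarith
      positivity
    · apply mul_le_mul_of_nonneg_left _ hl.le
      linarith
    · apply mul_le_mul (by linarith) (by linarith) (by positivity) (by positivity)
  · have h1 : l / (4 * (√M)^3) = l * (1 / (2 * √M) + 1 / (2 * √M)) / ((√M + √M) * (√M + √M)) := by
      field_simp; ring
    rw [h1]
    apply div_le_div₀ (by positivity) _ (by positivity) _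
    · apply mul_le_mul_of_nonneg_left _ hl.le
      linarith
    · apply mul_le_mul (by linarith) (by linarith) (by positivity) (by positivity)

/-- the Kusmin–Landau range -/
lemma ker_kl {h : ℝ} (hh : 0 < h) {M : ℕ} (hM : 1 ≤ M) (hhM : h ≤ √(M:ℝ)) (L : ℕ) (hL : L ≤ 3 * M) :
    ‖∑ n ∈ range L, e (h * √((M:ℝ) + n))‖ ≤ 8 * √(M:ℝ) / h := by
  have hM0 : (0:ℝ) < M := by exact_mod_cast hM
  have s0 : 0 < √(M:ℝ) := Real.sqrt_pos.mpr hM0
  have h4M : √(4 * (M:ℝ)) = 2 * √(M:ℝ) := by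
    rw [show (4:ℝ) * M = 2^2 * M by norm_num, Real.sqrt_mul (by positivity), Real.sqrt_sq (by norm_num)]
  have hkl := kusmin_landau_anti (fun n => h * √((M:ℝ) + n)) L (θ := h / (4 * √(M:ℝ))) (by positivity) (by
      intro n hn
      have hn1 : (n:ℝ) + 1 ≤ L := by exact_mod_cast hn
      have hL' : (L:ℝ) ≤ 3 * M := by exact_mod_cast hL
      have hn0 : (0:ℝ) ≤ n := Nat.cast_nonneg n
      have e1 : h * √((M:ℝ) + ((n + 1 : ℕ) : ℝ)) - h * √((M:ℝ) + n) = h * st ((M:ℝ) + n) := by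
        unfold st; push_cast; rw [← add_assoc]; ring
      rw [e1]
      have h1 := st_ge (u := (M:ℝ) + n) (by linarith)
      have h2 : √((M:ℝ) + n + 1) ≤ 2 * √(M:ℝ) := by rw [← h4M]; exact Real.sqrt_le_sqrt (by linarith)
      have h3 : 1 / (4 * √(M:ℝ)) ≤ 1 / (2 * √((M:ℝ) + n + 1)) := by
        apply div_le_div_of_nonneg_left (by norm_num) _ (by linarith)
        have : 0 < √((M:ℝ) + n + 1) := Real.sqrt_pos.mpr (by linarith)
        positivity
      calc h / (4 * √(M:ℝ)) = h * (1 / (4 * √(M:ℝ))) := by ring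
        _ ≤ h * st ((M:ℝ) + n) := mul_le_mul_of_nonneg_left (h3.trans h1) hh.le) (by
      intro n hn
      have hn0 : (0:ℝ) ≤ n := Nat.cast_nonneg n
      have e1 : h * √((M:ℝ) + ((n + 1 : ℕ) : ℝ)) - h * √((M:ℝ) + n) = h * st ((M:ℝ) + n) := by
        unfold st; push_cast; rw [← add_assoc]; ring
      rw [e1]
      have h1 := st_le (u := (M:ℝ) + n) (by linarith)
      have h2 : √(M:ℝ) ≤ √((M:ℝ) + n) := Real.sqrt_le_sqrt (by linarith)
      have h3 : 1 / (2 * √((M:ℝ) + n)) ≤ 1 / (2 * √(M:ℝ)) := by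
        apply div_le_div_of_nonneg_left (by norm_num) (by positivity) (by linarith)
      have h4 : h * st ((M:ℝ) + n) ≤ h * (1 / (2 * √(M:ℝ))) := mul_le_mul_of_nonneg_left (h1.trans h3) hh.le
      have h5 : h * (1 / (2 * √(M:ℝ))) ≤ 1/2 := by
        rw [mul_one_div, div_le_iff₀ (by positivity)]; linarith
      have h6 : h / (4 * √(M:ℝ)) ≤ 1/4 := by
        rw [div_le_iff₀ (by positivity)]; linarith
      linarith) (by
      intro n hn
      have hn0 : (0:ℝ) ≤ n := Nat.cast_nonneg n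
      have e1 : h * √((M:ℝ) + ((n + 1 : ℕ) : ℝ)) - h * √((M:ℝ) + n) = h * st ((M:ℝ) + n) := by
        unfold st; push_cast; rw [← add_assoc]; ring
      have e2 : h * √((M:ℝ) + ((n + 2 : ℕ) : ℝ)) - h * √((M:ℝ) + ((n + 1 : ℕ) : ℝ)) = h * st ((M:ℝ) + n + 1) := by
        unfold st; push_cast
        rw [show (M:ℝ) + (n + 2) = M + n + 1 + 1 by ring, show (M:ℝ) + (n + 1) = M + n + 1 by ring]; ring
      rw [e1, e2]
      exact mul_le_mul_of_nonneg_left (st_anti (by linarith) (by linarith)) hh.le)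
  refine hkl.trans (le_of_eq ?_)
  field_simp; ring

lemma harm_le (H : ℕ) : ∑ l ∈ Ico 1 H, (1 : ℝ) / l ≤ 1 + Real.log H := by
  rcases Nat.eq_zero_or_pos H with rfl | hH
  · simp
  have h1 : ∑ l ∈ Ico 1 H, (1 : ℝ) / l ≤ ((harmonic H : ℚ) : ℝ) := by
    rw [harmonic_eq_sum_Icc]
    push_cast
    have : Ico 1 H ⊆ Icc 1 H := by
      intro x; simp only [mem_Ico, mem_Icc]; omega
    refine (sum_le_sum_of_subset_of_nonneg this (fun _ _ _ => by positivity)).trans (le_of_eq ?_)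
    apply sum_congr rfl
    intro x _
    simp
  exact h1.trans (harmonic_le_one_add_log H)

/-- the van der Corput range -/
lemma ker_vdc {h : ℝ} {M : ℕ} (hM : 1 ≤ M) (hh1 : √(M:ℝ) ≤ h) (hh2 : h ≤ (√(M:ℝ))^3) (L : ℕ) (hL : L ≤ 3 * M) :
    ‖∑ n ∈ range L, e (h * √((M:ℝ) + n))‖^2 ≤ 524 * (h * √(M:ℝ) * (1 + Real.log M)) := by
  have hM0 : (0:ℝ) < M := by exact_mod_cast hM
  have hM1 : (1:ℝ) ≤ M := by exact_mod_cast hM
  have s0 : 0 < √(M:ℝ) := Real.sqrt_pos.mpr hM0
  have hss : √(M:ℝ)^2 = M := Real.sq_sqrt hM0.le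
  set s := √(M:ℝ) with hs
  have hh : 0 < h := by linarith
  set H : ℕ := ⌈s^3 / h⌉₊ with hH
  have hH1 : s^3 / h ≤ H := Nat.le_ceil _
  have hHM : H ≤ M := by
    rw [hH, Nat.ceil_le, div_le_iff₀ hh, ← hss]
    calc s^3 = s^2 * s := by ring
      _ ≤ s^2 * h := by gcongr
  have hH0 : 1 ≤ s^3 / h := by rw [le_div_iff₀ hh]; linarith
  have hHpos : (0:ℝ) < H := by linarith
  have hz : ∀ n : ℕ, ‖e (h * √((M:ℝ) + n))‖ ≤ 1 := fun n => (norm_e _).le
  have hv := vdcH (fun n => e (h * √((M:ℝ) + n))) hz L H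
  have hc : ∀ l ∈ Ico 1 H, ‖∑ n ∈ range (L - l), e (h * √((M:ℝ) + ((n + l : ℕ) : ℝ))) * (starRingEnd ℂ) (e (h * √((M:ℝ) + n)))‖ ≤
      64 * s^3 / h * (1 / l) := by
    intro l hl
    rw [mem_Ico] at hl
    have hl0 : (0:ℝ) < l := by exact_mod_cast (by omega : 0 < l)
    have hlh : h * l ≤ s^3 := by
      have h1 : ((l:ℕ):ℝ) < s^3/h := by
        have := hl.2
        rw [hH] at this
        exact Nat.lt_ceil.mp this
      rw [lt_div_iff₀ hh] at h1
      linarith
    have e1 : ∀ n ∈ range (L - l), e (h * √((M:ℝ) + ((n + l : ℕ) : ℝ))) * (starRingEnd ℂ) (e (h * √((M:ℝ) + n))) =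
        e (-(-(h * √((M:ℝ) + n + l) - h * √((M:ℝ) + n)))) := by
      intro n _
      rw [conj_e, ← e_add]
      congr 1
      push_cast
      rw [← add_assoc]; ring
    rw [sum_congr rfl e1, norm_sum_neg (fun n : ℕ => -(h * √((M:ℝ) + n + l) - h * √((M:ℝ) + n)))]
    have hinc : ∀ n : ℕ, -(h * √((M:ℝ) + ((n + 1 : ℕ) : ℝ) + l) - h * √((M:ℝ) + ((n + 1 : ℕ) : ℝ))) -
        -(h * √((M:ℝ) + n + l) - h * √((M:ℝ) + n)) = h * dd l ((M:ℝ) + n) := by
      intro n
      unfold dd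
      push_cast
      rw [← add_assoc]; ring
    have hkl := kusmin_landau_anti (fun n : ℕ => -(h * √((M:ℝ) + n + l) - h * √((M:ℝ) + n))) (L - l)
      (θ := h * l / (32 * s^3)) (by positivity) (by
        intro n hn
        simp only [hinc]
        have hb : (M:ℝ) + n + 1 + l ≤ 4 * M := by
          have h1 : (((M + n + 1 + l : ℕ)) : ℝ) ≤ ((4 * M : ℕ) : ℝ) := by exact_mod_cast (by omega : M + n + 1 + l ≤ 4 * M)
          push_cast at h1; linarith
        have h1 := (dd_bounds hM1 hl0 (by linarith [(Nat.cast_nonneg n : (0:ℝ) ≤ n)] : (M:ℝ) ≤ (M:ℝ) + n) hb).1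
        calc h * l / (32 * s^3) = h * (l / (32 * s^3)) := by ring
          _ ≤ _ := mul_le_mul_of_nonneg_left h1 hh.le) (by
        intro n hn
        simp only [hinc]
        have hb : (M:ℝ) + n + 1 + l ≤ 4 * M := by
          have h1 : (((M + n + 1 + l : ℕ)) : ℝ) ≤ ((4 * M : ℕ) : ℝ) := by exact_mod_cast (by omega : M + n + 1 + l ≤ 4 * M)
          push_cast at h1; linarith
        have h1 := (dd_bounds hM1 hl0 (by linarith [(Nat.cast_nonneg n : (0:ℝ) ≤ n)] : (M:ℝ) ≤ (M:ℝ) + n) hb).2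
        have h2 : h * dd l ((M:ℝ) + n) ≤ h * (l / (4 * s^3)) := mul_le_mul_of_nonneg_left h1 hh.le
        have h3 : h * (l / (4 * s^3)) ≤ 1/4 := by
          rw [mul_div_assoc', div_le_iff₀ (by positivity)]; linarith
        have h4 : h * l / (32 * s^3) ≤ 1/32 := by
          rw [div_le_iff₀ (by positivity)]; linarith
        linarith) (by
        intro n hn
        have e2 : -(h * √((M:ℝ) + ((n + 2 : ℕ) : ℝ) + l) - h * √((M:ℝ) + ((n + 2 : ℕ) : ℝ))) -
            -(h * √((M:ℝ) + ((n + 1 : ℕ) : ℝ) + l) - h * √((M:ℝ) + ((n + 1 : ℕ) : ℝ))) = h * dd l ((M:ℝ) + n + 1) := by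
          have := hinc (n+1)
          rw [show n + 2 = n + 1 + 1 by ring, this]
          push_cast; rw [← add_assoc]
        refine (le_of_eq e2).trans (le_trans ?_ (le_of_eq (hinc n).symm))
        apply mul_le_mul_of_nonneg_left _ hh.le
        exact dd_anti hl0 (by linarith [(Nat.cast_nonneg n : (0:ℝ) ≤ n)]))
    refine hkl.trans (le_of_eq ?_)
    field_simp; ring
  have hsum : ∑ l ∈ Ico 1 H, ‖∑ n ∈ range (L - l), e (h * √((M:ℝ) + ((n + l : ℕ) : ℝ))) * (starRingEnd ℂ) (e (h * √((M:ℝ) + n)))‖ ≤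
      64 * M * (1 + Real.log M) := by
    calc _ ≤ ∑ l ∈ Ico 1 H, 64 * s^3 / h * (1 / (l:ℝ)) := sum_le_sum hc
      _ = 64 * s^3 / h * ∑ l ∈ Ico 1 H, (1:ℝ) / l := by rw [mul_sum]
      _ ≤ 64 * s^3 / h * (1 + Real.log H) := mul_le_mul_of_nonneg_left (harm_le H) (by positivity)
      _ ≤ (64 * M) * (1 + Real.log M) := by
          have h1 : 64 * s^3 / h ≤ 64 * M := by
            rw [div_le_iff₀ hh, ← hss]
            calc 64 * s^3 = 64 * s^2 * s := by ring
              _ ≤ 64 * s^2 * h := by gcongr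
          have h2 : Real.log H ≤ Real.log M := Real.log_le_log hHpos (by exact_mod_cast hHM)
          have h3 : 0 ≤ Real.log H := Real.log_nonneg (by linarith)
          apply mul_le_mul h1 (by linarith) (by linarith) (by positivity)
  have hlog : 0 ≤ Real.log M := Real.log_nonneg hM1
  set S := ‖∑ n ∈ range L, e (h * √((M:ℝ) + n))‖ with hS
  have hL' : (L:ℝ) ≤ 3 * M := by exact_mod_cast hL
  have hHM' : (H:ℝ) ≤ M := by exact_mod_cast hHM
  have h1 : (H:ℝ) * S^2 ≤ (4 * M) * (3 * M + 2 * (64 * M * (1 + Real.log M))) := by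
    refine hv.trans ?_
    apply mul_le_mul (by linarith) _ (by positivity) (by positivity)
    have := mul_le_mul_of_nonneg_left hsum (by norm_num : (0:ℝ) ≤ 2)
    exact add_le_add hL' this
  have h2 : (4 * (M:ℝ)) * (3 * M + 2 * (64 * M * (1 + Real.log M))) ≤ 524 * (M:ℝ)^2 * (1 + Real.log M) := by
    nlinarith [mul_nonneg (sq_nonneg (M:ℝ)) hlog]
  have h3 : s^3 / h * S^2 ≤ H * S^2 := mul_le_mul_of_nonneg_right hH1 (by positivity)
  have h4 : s^3 / h * S^2 ≤ 524 * (M:ℝ)^2 * (1 + Real.log M) := h3.trans (h1.trans h2)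
  have h5 : S^2 = (h / s^3) * (s^3 / h * S^2) := by field_simp
  rw [h5]
  calc (h / s^3) * (s^3 / h * S^2) ≤ (h / s^3) * (524 * (M:ℝ)^2 * (1 + Real.log M)) := by gcongr
    _ = 524 * (h * s * (1 + Real.log M)) := by
        rw [← hss]; field_simp

/-- the kernel bound in all ranges -/
lemma ker {h : ℝ} (hh : 0 < h) {M : ℕ} (hM : 1 ≤ M) (L : ℕ) (hL : L ≤ 3 * M) :
    ‖∑ n ∈ range L, e (h * √((M:ℝ) + n))‖ ≤ (if h ≤ √(M:ℝ) then 8 * √(M:ℝ) / h else 0) +
      23 * √(h * √(M:ℝ) * (1 + Real.log M)) := by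
  have hM0 : (0:ℝ) < M := by exact_mod_cast hM
  have hM1 : (1:ℝ) ≤ M := by exact_mod_cast hM
  have hlog : 0 ≤ Real.log M := Real.log_nonneg hM1
  by_cases h1 : h ≤ √(M:ℝ)
  · rw [if_pos h1]
    have := ker_kl hh hM h1 L hL
    have h2 : 0 ≤ 23 * √(h * √(M:ℝ) * (1 + Real.log M)) := by positivity
    linarith
  · rw [if_neg h1, zero_add]
    push Not at h1
    by_cases h2 : h ≤ (√(M:ℝ))^3
    · have h3 := ker_vdc hM h1.le h2 L hL
      have h4 : ‖∑ n ∈ range L, e (h * √((M:ℝ) + n))‖ ≤ √(524 * (h * √(M:ℝ) * (1 + Real.log M))) :=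
        Real.le_sqrt_of_sq_le h3
      refine h4.trans ?_
      rw [Real.sqrt_mul (by norm_num)]
      apply mul_le_mul_of_nonneg_right _ (Real.sqrt_nonneg _)
      rw [Real.sqrt_le_left (by norm_num)]
      norm_num
    · push Not at h2
      have s0 : 0 < √(M:ℝ) := Real.sqrt_pos.mpr hM0
      have hss : √(M:ℝ)^2 = M := Real.sq_sqrt hM0.le
      have h3 : ‖∑ n ∈ range L, e (h * √((M:ℝ) + n))‖ ≤ L := by
        refine (norm_sum_le _ _).trans ?_
        simp only [norm_e, sum_const, card_range, nsmul_eq_mul, mul_one, le_refl]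
      have hL' : (L:ℝ) ≤ 3 * M := by exact_mod_cast hL
      have h4 : (M:ℝ) ≤ √(h * √(M:ℝ) * (1 + Real.log M)) := by
        apply Real.le_sqrt_of_sq_le
        calc (M:ℝ)^2 = (√(M:ℝ)^2)^2 := by rw [hss]
          _ = √(M:ℝ)^3 * √(M:ℝ) * 1 := by ring
          _ ≤ h * √(M:ℝ) * (1 + Real.log M) := by
              apply mul_le_mul _ (by linarith) (by norm_num) (by positivity)
              exact mul_le_mul_of_nonneg_right h2.le s0.le
      linarith

end Pool.Agent.H425R3.MM
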