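import Mathlib

open Finset Filter Topology MeasureTheory

namespace Pool.Agent.H425R3.MM

/-- the average over a window -/
noncomputable def av (g : ℕ → ℝ) (m N : ℕ) : ℝ := (∑ n ∈ Ico m (m + N), g n) / N

lemma av_mono {g h : ℕ → ℝ} {m N : ℕ} (hgh : ∀ n, g n ≤ h n) : av g m N ≤ av h m N := by
  unfold av
  exact div_le_div_of_nonneg_right (sum_le_sum (fun n _ => hgh n)) (Nat.cast_nonneg N)

lemma av_sub_le {g h u : ℕ → ℝ} {m N : ℕ} (hgh : ∀ n, |g n - h n| ≤ u n) : |av g m N - av h m N| ≤ av u m N := by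
  unfold av
  rw [← sub_div, ← sum_sub_distrib, abs_div, Nat.abs_cast]
  apply div_le_div_of_nonneg_right _ (Nat.cast_nonneg N)
  exact (abs_sum_le_sum_abs _ _).trans (sum_le_sum (fun n _ => hgh n))

/-- passing to functions of polynomial growth -/
theorem conv_growth {k : ℕ} (e : Fin k → ℕ → ℝ) (μ : ProbabilityMeasure (Fin k → ℝ)) (W : ℕ → ℕ → Prop) (hW0 : ∀ N, W N 0)
    {p s : ℝ} (hp : 0 < p) (hs : 0 < s)
    (hconv : ∀ f : (Fin k → ℝ) → ℝ, Continuous f → (∃ C : ℝ, ∀ x, |f x| ≤ C) → ∀ η : ℝ, 0 < η →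
      ∃ N0 : ℕ, ∀ N : ℕ, N0 ≤ N → ∀ m : ℕ, W N m → |av (fun n => f (fun i => e i n)) m N - ∫ x, f x ∂(μ : Measure (Fin k → ℝ))| ≤ η)
    (hui : ∀ i, ∃ C : ℝ, 0 < C ∧ ∃ N0 : ℕ, ∀ N : ℕ, N0 ≤ N → ∀ m : ℕ, W N m → ∀ K : ℝ, 1 ≤ K →
      ∑ n ∈ (Ico m (m + N)).filter (fun n => K ≤ |e i n|), |e i n| ^ p ≤ C * (N * K ^ (-s)))
    (f : (Fin k → ℝ) → ℝ) (hf : Continuous f) (hfC : ∃ C : ℝ, ∀ x, |f x| ≤ C * (1 + ∑ i, |x i| ^ p)) :
    Integrable f (μ : Measure (Fin k → ℝ)) ∧ ∀ η : ℝ, 0 < η → ∃ N0 : ℕ, ∀ N : ℕ, N0 ≤ N → ∀ m : ℕ, W N m →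
      |av (fun n => f (fun i => e i n)) m N - ∫ x, f x ∂(μ : Measure (Fin k → ℝ))| ≤ η := by
  obtain ⟨C', hfC'⟩ := hfC
  set C : ℝ := |C'| + 1 with hC
  have hC0 : 0 < C := by positivity
  have hfC : ∀ x, |f x| ≤ C * (1 + ∑ i, |x i| ^ p) := by
    intro x
    refine (hfC' x).trans ?_
    apply mul_le_mul_of_nonneg_right _ (by positivity)
    have := le_abs_self C'
    rw [hC]; linarith
  choose Ci hCi Ni hui using hui
  set h : (Fin k → ℝ) → ℝ := fun x => C * (1 + ∑ i, |x i| ^ p) with hh
  have hcont_h : Continuous h := by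
    apply continuous_const.mul
    apply continuous_const.add
    apply continuous_finset_sum
    intro i _
    exact (continuous_abs.comp (continuous_apply i)).rpow_const (fun _ => Or.inr hp.le)
  have hh0 : ∀ x, 0 ≤ h x := fun x => by simp only [hh]; positivity
  set L : ℝ → ℝ := fun K => C * (1 + ∑ _i : Fin k, K ^ p) with hL
  have hL0 : ∀ K : ℝ, 1 ≤ K → 0 ≤ L K := fun K hK => by
    have : 0 < K := by linarith
    simp only [hL]; positivity
  set u : ℝ → (Fin k → ℝ) → ℝ := fun K x => max (h x - L K) 0 with hu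
  have hu_cont : ∀ K, Continuous (u K) := fun K => (hcont_h.sub continuous_const).max continuous_const
  have hu0 : ∀ K x, 0 ≤ u K x := fun K x => le_max_right _ _
  have hu1 : ∀ K : ℝ, 1 ≤ K → ∀ x, u K x ≤ C * ∑ i, (if K ≤ |x i| then |x i| ^ p else 0) := by
    intro K hK x
    have hK0 : 0 < K := by linarith
    apply max_le
    · have e1 : h x - L K = C * ∑ i, (|x i| ^ p - K ^ p) := by
        simp only [hh, hL]; rw [sum_sub_distrib]; ring
      rw [e1]
      apply mul_le_mul_of_nonneg_left _ hC0.le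
      apply sum_le_sum
      intro i _
      have hKp : 0 < K ^ p := by positivity
      split_ifs with h1
      · linarith
      · push Not at h1
        have := Real.rpow_le_rpow (abs_nonneg _) h1.le hp.le
        linarith
    · apply mul_nonneg hC0.le
      apply sum_nonneg
      intro i _
      split_ifs
      · positivity
      · exact le_rfl
  set D : ℝ := C * ∑ i, Ci i with hD
  have hD0 : 0 ≤ D := mul_nonneg hC0.le (sum_nonneg (fun i _ => (hCi i).le))
  -- the windows
  have hwin : ∀ K : ℝ, 1 ≤ K → ∀ N : ℕ, ∑ i, Ni i + 1 ≤ N → ∀ m : ℕ, W N m → av (fun n => u K (fun i => e i n)) m N ≤ D * K ^ (-s) := by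
    intro K hK N hN m hm
    have hN0 : (0:ℝ) < N := by exact_mod_cast (by omega : 0 < N)
    unfold av
    rw [div_le_iff₀ hN0]
    calc ∑ n ∈ Ico m (m + N), u K (fun i => e i n) ≤ ∑ n ∈ Ico m (m + N), C * ∑ i, (if K ≤ |e i n| then |e i n| ^ p else 0) :=
          sum_le_sum (fun n _ => hu1 K hK _)
      _ = C * ∑ i, ∑ n ∈ (Ico m (m + N)).filter (fun n => K ≤ |e i n|), |e i n| ^ p := by
          rw [← mul_sum, sum_comm]
          congr 1
          apply sum_congr rfl
          intro i _
          rw [sum_filter]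
      _ ≤ C * ∑ i, Ci i * (N * K ^ (-s)) := by
          apply mul_le_mul_of_nonneg_left _ hC0.le
          apply sum_le_sum
          intro i _
          apply hui i N _ m hm K hK
          have := single_le_sum (f := Ni) (fun _ _ => Nat.zero_le _) (mem_univ i)
          omega
      _ = _ := by rw [← sum_mul, hD]; ring
  -- the measure
  have hint : ∀ K : ℝ, 1 ≤ K → Integrable (u K) (μ : Measure (Fin k → ℝ)) ∧ ∫ x, u K x ∂(μ : Measure (Fin k → ℝ)) ≤ D * K ^ (-s) := by
    intro K hK
    have hK0 : 0 < K := by linarith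
    have hB0 : 0 ≤ D * K ^ (-s) := by positivity
    have hM : ∀ M : ℕ, ∫ x, min (u K x) M ∂(μ : Measure (Fin k → ℝ)) ≤ D * K ^ (-s) := by
      intro M
      apply le_of_forall_pos_le_add
      intro η hη
      obtain ⟨N0, hN0⟩ := hconv (fun x => min (u K x) M) ((hu_cont K).min continuous_const) ⟨M, fun x => by
        rw [abs_of_nonneg (le_min (hu0 K x) (Nat.cast_nonneg M))]; exact min_le_right _ _⟩ η hη
      have h1 := hN0 (N0 + ∑ i, Ni i + 1) (by omega) 0 (hW0 _)
      have h2 := hwin K hK (N0 + ∑ i, Ni i + 1) (by omega) 0 (hW0 _)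
      have h3 : av (fun n => min (u K (fun i => e i n)) M) 0 (N0 + ∑ i, Ni i + 1) ≤ av (fun n => u K (fun i => e i n)) 0 (N0 + ∑ i, Ni i + 1) :=
        av_mono (fun n => min_le_left _ _)
      have h4 := (abs_le.mp h1).1
      linarith
    have hlim : ∫⁻ x, ENNReal.ofReal (u K x) ∂(μ : Measure (Fin k → ℝ)) ≤ ENNReal.ofReal (D * K ^ (-s)) := by
      have e1 : ∀ x, ENNReal.ofReal (u K x) = ⨆ M : ℕ, ENNReal.ofReal (min (u K x) M) := by
        intro x
        apply le_antisymm
        · obtain ⟨M, hM⟩ := exists_nat_ge (u K x)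
          apply le_iSup_of_le M
          rw [min_eq_left hM]
        · apply iSup_le
          intro M
          exact ENNReal.ofReal_le_ofReal (min_le_left _ _)
      simp_rw [e1]
      rw [lintegral_iSup]
      · apply iSup_le
        intro M
        have i1 : Integrable (fun x => min (u K x) (M:ℝ)) (μ : Measure (Fin k → ℝ)) := by
          refine Integrable.of_bound ((hu_cont K).min continuous_const).aestronglyMeasurable M ?_
          filter_upwards with x
          rw [Real.norm_eq_abs, abs_of_nonneg (le_min (hu0 K x) (Nat.cast_nonneg M))]; exact min_le_right _ _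
        rw [← ofReal_integral_eq_lintegral_ofReal i1 (by filter_upwards with x; exact le_min (hu0 K x) (Nat.cast_nonneg M))]
        exact ENNReal.ofReal_le_ofReal (hM M)
      · intro M
        exact ((hu_cont K).min continuous_const).measurable.ennreal_ofReal
      · intro M1 M2 hM12 x
        apply ENNReal.ofReal_le_ofReal
        apply min_le_min le_rfl
        exact_mod_cast hM12
    have hI : Integrable (u K) (μ : Measure (Fin k → ℝ)) := by
      refine ⟨(hu_cont K).aestronglyMeasurable, ?_⟩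
      rw [hasFiniteIntegral_iff_ofReal (by filter_upwards with x; exact hu0 K x)]
      exact hlim.trans_lt ENNReal.ofReal_lt_top
    refine ⟨hI, ?_⟩
    rw [← ofReal_integral_eq_lintegral_ofReal hI (by filter_upwards with x; exact hu0 K x)] at hlim
    exact (ENNReal.ofReal_le_ofReal_iff hB0).mp hlim
  have hhint : Integrable h (μ : Measure (Fin k → ℝ)) := by
    have h1 := (hint 1 le_rfl).1
    refine Integrable.mono' (h1.add (integrable_const (L 1))) hcont_h.aestronglyMeasurable ?_
    filter_upwards with x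
    rw [Real.norm_eq_abs, abs_of_nonneg (hh0 x)]
    simp only [Pi.add_apply]
    have : h x - L 1 ≤ u 1 x := le_max_left _ _
    linarith
  have hfint : Integrable f (μ : Measure (Fin k → ℝ)) := by
    refine Integrable.mono' hhint hf.aestronglyMeasurable ?_
    filter_upwards with x
    rw [Real.norm_eq_abs]
    exact hfC x
  refine ⟨hfint, ?_⟩
  intro η hη
  obtain ⟨K, hK1, hKη⟩ : ∃ K : ℝ, 1 ≤ K ∧ D * K ^ (-s) ≤ η / 3 := by
    have h1 : Tendsto (fun K : ℝ => D * K ^ (-s)) atTop (𝓝 (D * 0)) := (tendsto_rpow_neg_atTop hs).const_mul D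
    rw [mul_zero] at h1
    have h2 := (h1.eventually (gt_mem_nhds (by positivity : 0 < η/3))).and (eventually_ge_atTop 1)
    obtain ⟨K, hK1, hK2⟩ := h2.exists
    exact ⟨K, hK2, hK1.le⟩
  set F : (Fin k → ℝ) → ℝ := fun x => max (-(L K)) (min (L K) (f x)) with hF
  have hFc : Continuous F := continuous_const.max (continuous_const.min hf)
  have hLK := hL0 K hK1
  have hFb : ∀ x, |F x| ≤ L K := by
    intro x
    rw [abs_le]
    constructor
    · exact le_max_left _ _
    · apply max_le (by linarith) (min_le_left _ _)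
  have hfF : ∀ x, |f x - F x| ≤ u K x := by
    intro x
    have h1 := abs_le.mp (hfC x)
    have h2 : h x - L K ≤ u K x := le_max_left _ _
    have h3 := hu0 K x
    have h4 : C * (1 + ∑ i, |x i| ^ p) = h x := rfl
    rw [h4] at h1
    simp only [hF]
    rcases le_total (L K) (f x) with h5 | h5
    · rw [min_eq_left h5, max_eq_right (by linarith), abs_of_nonneg (by linarith)]
      linarith
    · rw [min_eq_right h5]
      rcases le_total (-(L K)) (f x) with h6 | h6
      · rw [max_eq_right h6, sub_self, abs_zero]; exact h3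
      · rw [max_eq_left h6, abs_of_nonpos (by linarith)]
        linarith
  have hFint : Integrable F (μ : Measure (Fin k → ℝ)) :=
    Integrable.of_bound hFc.aestronglyMeasurable (L K) (by filter_upwards with x; rw [Real.norm_eq_abs]; exact hFb x)
  obtain ⟨N0, hN0⟩ := hconv F hFc ⟨L K, hFb⟩ (η/3) (by positivity)
  refine ⟨N0 + ∑ i, Ni i + 1, ?_⟩
  intro N hN m hm
  have t1 := hN0 N (by omega) m hm
  have t2 : |av (fun n => f (fun i => e i n)) m N - av (fun n => F (fun i => e i n)) m N| ≤ η/3 :=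
    (av_sub_le (fun n => hfF _)).trans ((hwin K hK1 N (by omega) m hm).trans hKη)
  have t3 : |∫ x, F x ∂(μ : Measure (Fin k → ℝ)) - ∫ x, f x ∂(μ : Measure (Fin k → ℝ))| ≤ η/3 := by
    rw [← integral_sub hFint hfint]
    refine (abs_integral_le_integral_abs).trans (le_trans ?_ ((hint K hK1).2.trans hKη))
    apply integral_mono_of_nonneg
    · filter_upwards with x; exact abs_nonneg _
    · exact (hint K hK1).1
    · filter_upwards with x
      rw [abs_sub_comm]; exact hfF x
  calc _ = |(av (fun n => f (fun i => e i n)) m N - av (fun n => F (fun i => e i n)) m N) +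
        (av (fun n => F (fun i => e i n)) m N - ∫ x, F x ∂(μ : Measure (Fin k → ℝ))) +
        (∫ x, F x ∂(μ : Measure (Fin k → ℝ)) - ∫ x, f x ∂(μ : Measure (Fin k → ℝ)))| := by congr 1; ring
    _ ≤ η/3 + η/3 + η/3 := (abs_add_three _ _ _).trans (by linarith)
    _ = η := by ring

end Pool.Agent.H425R3.MM
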