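import Mathlib
import Pool.Agent.H425R3.MM.K1

open Finset
open Pool.Agent.H469R2.NK

namespace Pool.Agent.H425R3.MM

/-- the duality principle -/
lemma dual_gen (S T : Finset ℕ) (b : ℕ → ℂ) (θ : ℕ → ℝ) {v A K : ℝ} (hv0 : 0 ≤ v) (hK0 : 0 ≤ K)
    (hv : ∀ n ∈ S, v ≤ ‖∑ m ∈ T, b m * e (n * θ m)‖) (hA : ∑ m ∈ T, ‖b m‖^2 ≤ A)
    (hK : ∀ n ∈ S, ∑ n' ∈ S, ‖∑ m ∈ T, e (((n:ℝ) - n') * θ m)‖ ≤ K) :
    (S.card : ℝ) * v^2 ≤ A * K := by
  have hA0 : 0 ≤ A := le_trans (sum_nonneg (fun _ _ => by positivity)) hA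
  rcases S.eq_empty_or_nonempty with rfl | hS
  · simp only [card_empty, Nat.cast_zero, zero_mul]; positivity
  have hS0 : (0:ℝ) < S.card := by exact_mod_cast hS.card_pos
  set B : ℕ → ℂ := fun n => ∑ m ∈ T, b m * e (n * θ m) with hB
  set ε : ℕ → ℂ := fun n => if B n = 0 then 0 else (starRingEnd ℂ) (B n) / ‖B n‖ with hε
  have hε1 : ∀ n, ‖ε n‖ ≤ 1 := by
    intro n
    simp only [hε]
    split_ifs with h
    · simp
    · rw [norm_div, Complex.norm_conj, Complex.norm_real, Real.norm_eq_abs, abs_norm]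
      have : ‖B n‖ ≠ 0 := by rwa [norm_ne_zero_iff]
      rw [div_self this]
  have hεB : ∀ n, ε n * B n = ((‖B n‖ : ℝ) : ℂ) := by
    intro n
    simp only [hε]
    split_ifs with h
    · rw [h]; simp
    · have h1 : ((‖B n‖ : ℝ) : ℂ) ≠ 0 := by
        rw [Complex.ofReal_ne_zero]; rwa [norm_ne_zero_iff]
      rw [div_mul_eq_mul_div, div_eq_iff h1, mul_comm, Complex.mul_conj']
      ring
  set G : ℕ → ℂ := fun m => ∑ n ∈ S, ε n * e (n * θ m) with hG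
  have h1 : (∑ n ∈ S, ‖B n‖) = ‖∑ m ∈ T, b m * G m‖ := by
    have e1 : ∑ m ∈ T, b m * G m = ((∑ n ∈ S, ‖B n‖ : ℝ) : ℂ) := by
      simp only [hG]
      rw [Complex.ofReal_sum]
      calc ∑ m ∈ T, b m * ∑ n ∈ S, ε n * e (n * θ m) = ∑ m ∈ T, ∑ n ∈ S, ε n * (b m * e (n * θ m)) := by
            apply sum_congr rfl; intro m _; rw [mul_sum]; apply sum_congr rfl; intro n _; ring
        _ = ∑ n ∈ S, ε n * B n := by
            rw [sum_comm]; apply sum_congr rfl; intro n _; simp only [hB]; rw [mul_sum]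
        _ = _ := sum_congr rfl (fun n _ => hεB n)
    rw [e1, Complex.norm_real, Real.norm_of_nonneg (by positivity)]
  have h2 : (S.card : ℝ) * v ≤ ∑ n ∈ S, ‖B n‖ := by
    rw [← nsmul_eq_mul]
    exact card_nsmul_le_sum _ _ _ hv
  have h3 : ‖∑ m ∈ T, b m * G m‖^2 ≤ A * ∑ m ∈ T, ‖G m‖^2 := by
    have g1 : ‖∑ m ∈ T, b m * G m‖ ≤ ∑ m ∈ T, ‖b m‖ * ‖G m‖ := by
      refine (norm_sum_le _ _).trans (le_of_eq ?_)
      apply sum_congr rfl; intro m _; rw [norm_mul]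
    calc ‖∑ m ∈ T, b m * G m‖^2 ≤ (∑ m ∈ T, ‖b m‖ * ‖G m‖)^2 := pow_le_pow_left₀ (norm_nonneg _) g1 2
      _ ≤ (∑ m ∈ T, ‖b m‖^2) * ∑ m ∈ T, ‖G m‖^2 := sum_mul_sq_le_sq_mul_sq _ _ _
      _ ≤ _ := mul_le_mul_of_nonneg_right hA (sum_nonneg (fun _ _ => by positivity))
  have h4 : ∑ m ∈ T, ‖G m‖^2 ≤ S.card * K := by
    have g1 : ((∑ m ∈ T, ‖G m‖^2 : ℝ) : ℂ) = ∑ n ∈ S, ∑ n' ∈ S, ε n * (starRingEnd ℂ) (ε n') *
        ∑ m ∈ T, e (((n:ℝ) - n') * θ m) := by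
      push_cast
      have g2 : ∀ m ∈ T, ((‖G m‖:ℂ))^2 = ∑ n ∈ S, ∑ n' ∈ S, ε n * (starRingEnd ℂ) (ε n') * e (((n:ℝ) - n') * θ m) := by
        intro m _
        rw [← Complex.mul_conj']
        simp only [hG]
        rw [map_sum, sum_mul_sum]
        apply sum_congr rfl; intro n _
        apply sum_congr rfl; intro n' _
        rw [map_mul, conj_e]
        have : e (((n:ℝ) - n') * θ m) = e (n * θ m) * e (-(n' * θ m)) := by
          rw [← e_add]; congr 1; ring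
        rw [this]; ring
      rw [sum_congr rfl g2, sum_comm]
      apply sum_congr rfl; intro n _
      rw [sum_comm]
      apply sum_congr rfl; intro n' _
      rw [mul_sum]
    have g3 : (∑ m ∈ T, ‖G m‖^2 : ℝ) = ‖((∑ m ∈ T, ‖G m‖^2 : ℝ) : ℂ)‖ := by
      rw [Complex.norm_real, Real.norm_of_nonneg (sum_nonneg (fun _ _ => by positivity))]
    rw [g3, g1]
    calc ‖∑ n ∈ S, ∑ n' ∈ S, ε n * (starRingEnd ℂ) (ε n') * ∑ m ∈ T, e (((n:ℝ) - n') * θ m)‖
        ≤ ∑ n ∈ S, ∑ n' ∈ S, ‖∑ m ∈ T, e (((n:ℝ) - n') * θ m)‖ := by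
          refine (norm_sum_le _ _).trans (sum_le_sum fun n _ => ?_)
          refine (norm_sum_le _ _).trans (sum_le_sum fun n' _ => ?_)
          rw [norm_mul, norm_mul, Complex.norm_conj]
          calc ‖ε n‖ * ‖ε n'‖ * ‖∑ m ∈ T, e (((n:ℝ) - n') * θ m)‖ ≤ 1 * 1 * ‖∑ m ∈ T, e (((n:ℝ) - n') * θ m)‖ := by
                gcongr
                · exact hε1 n
                · exact hε1 n'
            _ = _ := by ring
      _ ≤ ∑ n ∈ S, K := sum_le_sum hK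
      _ = _ := by rw [sum_const, nsmul_eq_mul]
  have h5 : ((S.card : ℝ) * v)^2 ≤ A * (S.card * K) := by
    calc ((S.card : ℝ) * v)^2 ≤ (∑ n ∈ S, ‖B n‖)^2 := pow_le_pow_left₀ (by positivity) h2 2
      _ ≤ A * ∑ m ∈ T, ‖G m‖^2 := by rw [h1]; exact h3
      _ ≤ _ := mul_le_mul_of_nonneg_left h4 hA0
  have h6 : (S.card : ℝ) * (S.card * v^2) ≤ S.card * (A * K) := by
    calc (S.card : ℝ) * (S.card * v^2) = ((S.card : ℝ) * v)^2 := by ring
      _ ≤ _ := h5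
      _ = _ := by ring
  exact le_of_mul_le_mul_left h6 hS0

/-- the dyadic block -/
def blk (j : ℕ) : Finset ℕ := Ioc (4^j) (4^(j+1))

/-- the block sum -/
noncomputable def Bk (b : ℕ → ℂ) (α : ℝ) (j n : ℕ) : ℂ := ∑ m ∈ blk j, b m * e (n * (α * √(m:ℝ)))

lemma blk_sum (t : ℝ) (j : ℕ) : ∑ m ∈ blk j, e (t * √(m:ℝ)) =
    ∑ n ∈ range (3 * 4^j), e (t * √(((4^j + 1 : ℕ) : ℝ) + n)) := by
  have h1 : blk j = Ico (4^j + 1) (4^(j+1) + 1) := by
    unfold blk; ext x; simp only [mem_Ioc, mem_Ico]; omega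
  rw [h1, sum_Ico_eq_sum_range]
  have h2 : 4^(j+1) + 1 - (4^j + 1) = 3 * 4^j := by rw [pow_succ]; omega
  rw [h2]
  apply sum_congr rfl
  intro n _
  push_cast
  rfl

lemma blk_neg (t : ℝ) (j : ℕ) : ‖∑ m ∈ blk j, e (-t * √(m:ℝ))‖ =
    ‖∑ m ∈ blk j, e (t * √(m:ℝ))‖ := by
  have : ∑ m ∈ blk j, e (-t * √(m:ℝ)) = (starRingEnd ℂ) (∑ m ∈ blk j, e (t * √(m:ℝ))) := by
    rw [map_sum]
    apply sum_congr rfl; intro m _
    rw [conj_e]; congr 1; ring
  rw [this, Complex.norm_conj]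

/-- the sum of the kernel over a set in a window -/
lemma ker_sum {α : ℝ} (hα : 0 < α) (j : ℕ) (S : Finset ℕ) (k H : ℕ) (hS : S ⊆ Ico k (k+H)) (n : ℕ) (hn : n ∈ S) :
    ∑ n' ∈ S, ‖∑ m ∈ blk j, e (((n:ℝ) - n') * (α * √(m:ℝ)))‖ ≤
      (3 + (5/α + 1) * (20/α)) * (4:ℝ)^j + S.card * (23 * √(α * H * √((4^j + 1 : ℕ) : ℝ) * (1 + Real.log ((4^j + 1 : ℕ) : ℝ)))) := by
  set M : ℕ := 4^j + 1 with hM
  have hM1 : 1 ≤ M := by rw [hM]; exact Nat.le_add_left _ _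
  have hM1' : (1:ℝ) ≤ M := by exact_mod_cast hM1
  have h4 : (1:ℝ) ≤ (4:ℝ)^j := one_le_pow₀ (by norm_num)
  have hMr : (M:ℝ) = 4^j + 1 := by rw [hM]; push_cast; ring
  have hlog : 0 ≤ Real.log M := Real.log_nonneg hM1'
  set s := √(M:ℝ) with hs
  have hs1 : 1 ≤ s := by rw [hs, Real.one_le_sqrt]; exact hM1'
  have hs2 : s^2 = M := Real.sq_sqrt (by positivity)
  have hsQ : s^2 ≤ 2 * (4:ℝ)^j := by rw [hs2, hMr]; linarith
  have hker : ∀ t : ℝ, 0 < t → ‖∑ m ∈ blk j, e (t * √(m:ℝ))‖ ≤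
      (if t ≤ s then 8 * s / t else 0) + 23 * √(t * s * (1 + Real.log M)) := by
    intro t ht
    rw [blk_sum]
    exact ker ht hM1 (3 * 4^j) (by omega)
  have hterm : ∀ n' ∈ S, n' ≠ n → ‖∑ m ∈ blk j, e (((n:ℝ) - n') * (α * √(m:ℝ)))‖ ≤
      (if α * |(n:ℝ) - n'| ≤ s then 8 * s / α else 0) + 23 * √(α * H * s * (1 + Real.log M)) := by
    intro n' hn' hne
    have h1 := mem_Ico.mp (hS hn)
    have h2 := mem_Ico.mp (hS hn')
    set t := α * |(n:ℝ) - n'| with ht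
    have hd1 : 1 ≤ |(n:ℝ) - n'| := by
      have h3 : ((1:ℤ):ℝ) ≤ ((|(n:ℤ) - n'| : ℤ) : ℝ) := by
        have : (n:ℤ) - n' ≠ 0 := by omega
        have := Int.one_le_abs this
        exact_mod_cast this
      push_cast at h3
      exact h3
    have hd2 : |(n:ℝ) - n'| ≤ H := by
      rw [abs_le]
      have a1 : (k:ℝ) ≤ n := by exact_mod_cast h1.1
      have a2 : (n:ℝ) ≤ k + H := by exact_mod_cast h1.2.le
      have a3 : (k:ℝ) ≤ n' := by exact_mod_cast h2.1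
      have a4 : (n':ℝ) ≤ k + H := by exact_mod_cast h2.2.le
      constructor <;> linarith
    have ht0 : 0 < t := by positivity
    have e1 : ‖∑ m ∈ blk j, e (((n:ℝ) - n') * (α * √(m:ℝ)))‖ = ‖∑ m ∈ blk j, e (t * √(m:ℝ))‖ := by
      rcases abs_cases ((n:ℝ) - n') with ⟨h5, _⟩ | ⟨h5, _⟩
      · congr 1
        apply sum_congr rfl; intro m _
        congr 1; rw [ht, h5]; ring
      · rw [← blk_neg t j]
        congr 1
        apply sum_congr rfl; intro m _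
        congr 1; rw [ht, h5]; ring
    rw [e1]
    refine (hker t ht0).trans (add_le_add ?_ ?_)
    · split_ifs with h5
      · apply div_le_div_of_nonneg_left (by positivity) hα
        rw [ht]; nlinarith
      · exact le_rfl
    · apply mul_le_mul_of_nonneg_left _ (by norm_num)
      apply Real.sqrt_le_sqrt
      apply mul_le_mul_of_nonneg_right _ (by linarith)
      apply mul_le_mul_of_nonneg_right _ (by linarith)
      rw [ht]
      exact mul_le_mul_of_nonneg_left hd2 hα.le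
  -- the diagonal
  have hdiag : ‖∑ m ∈ blk j, e (((n:ℝ) - n) * (α * √(m:ℝ)))‖ ≤ 3 * (4:ℝ)^j := by
    refine (norm_sum_le _ _).trans ?_
    simp only [norm_e, sum_const, blk, Nat.card_Ioc, nsmul_eq_mul, mul_one]
    have : 4^(j+1) - 4^j = 3 * 4^j := by rw [pow_succ]; omega
    rw [this]; push_cast; exact le_rfl
  -- the near terms
  have hcount : (((S.erase n).filter (fun n' : ℕ => α * |(n:ℝ) - n'| ≤ s)).card : ℝ) ≤ 2 * (s/α) + 1 := by
    set r : ℕ := ⌊s/α⌋₊ with hr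
    have hsub : (S.erase n).filter (fun n' : ℕ => α * |(n:ℝ) - n'| ≤ s) ⊆ Icc (n - r) (n + r) := by
      intro x hx
      rw [mem_filter] at hx
      have h1 : |(n:ℝ) - x| ≤ s/α := by rw [le_div_iff₀ hα]; linarith [hx.2]
      have h2 : ((n:ℤ) - x).natAbs ≤ r := by
        rw [hr, Nat.le_floor_iff (by positivity)]
        rw [Nat.cast_natAbs]
        push_cast
        exact h1
      rw [mem_Icc]
      omega
    have h1 := card_le_card hsub
    have h2 : (Icc (n - r) (n + r)).card ≤ 2 * r + 1 := by rw [Nat.card_Icc]; omega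
    have h3 : (r:ℝ) ≤ s/α := Nat.floor_le (by positivity)
    have h4 : (((S.erase n).filter (fun n' : ℕ => α * |(n:ℝ) - n'| ≤ s)).card : ℝ) ≤ 2 * r + 1 := by exact_mod_cast h1.trans h2
    linarith
  rw [← add_sum_erase _ _ hn]
  have hE : ((S.erase n).card : ℝ) ≤ S.card := by exact_mod_cast card_erase_le
  set W := 23 * √(α * H * s * (1 + Real.log M)) with hW
  have hW0 : 0 ≤ W := by positivity
  have hrest : ∑ n' ∈ S.erase n, ‖∑ m ∈ blk j, e (((n:ℝ) - n') * (α * √(m:ℝ)))‖ ≤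
      (2 * (s/α) + 1) * (8 * s / α) + S.card * W := by
    calc _ ≤ ∑ n' ∈ S.erase n, ((if α * |(n:ℝ) - n'| ≤ s then 8 * s / α else 0) + W) :=
          sum_le_sum (fun n' hn' => hterm n' (mem_of_mem_erase hn') (ne_of_mem_erase hn'))
      _ = ((S.erase n).filter (fun n' : ℕ => α * |(n:ℝ) - n'| ≤ s)).card * (8 * s / α) + (S.erase n).card * W := by
          rw [sum_add_distrib, ← sum_filter, sum_const, sum_const, nsmul_eq_mul, nsmul_eq_mul]
      _ ≤ _ := by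
          apply add_le_add
          · exact mul_le_mul_of_nonneg_right hcount (by positivity)
          · exact mul_le_mul_of_nonneg_right hE hW0
  have hfin : (2 * (s/α) + 1) * (8 * s / α) ≤ (5/α + 1) * (20/α) * (4:ℝ)^j := by
    calc (2 * (s/α) + 1) * (8 * s / α) ≤ (2 * (s/α) + s) * (8 * s / α) := by gcongr
      _ = (2/α + 1) * (8/α) * s^2 := by field_simp
      _ ≤ (2/α + 1) * (8/α) * (2 * (4:ℝ)^j) := by gcongr
      _ = (2/α + 1) * (16/α) * (4:ℝ)^j := by ring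
      _ ≤ _ := by gcongr <;> norm_num
  calc _ ≤ 3 * (4:ℝ)^j + ((2 * (s/α) + 1) * (8 * s / α) + S.card * W) := add_le_add hdiag hrest
    _ ≤ 3 * (4:ℝ)^j + ((5/α + 1) * (20/α) * (4:ℝ)^j + S.card * W) := by linarith
    _ = _ := by ring

end Pool.Agent.H425R3.MM
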