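import Mathlib
import Pool.Agent.H425R3.MM.K2

open Finset
open Pool.Agent.H469R2.NK

namespace Pool.Agent.H425R3.MM

lemma blk_card (j : ℕ) : ((blk j).card : ℝ) = 3 * (4:ℝ)^j := by
  unfold blk
  rw [Nat.card_Ioc]
  have : 4^(j+1) - 4^j = 3 * 4^j := by rw [pow_succ]; omega
  rw [this]; push_cast; rfl

lemma four_eq (j : ℕ) : (4:ℝ)^j = ((2:ℝ)^j)^2 := by
  rw [← pow_mul, mul_comm, pow_mul]; norm_num

lemma log_M_le {κ : ℝ} (hκ : 0 < κ) (j : ℕ) : 1 + Real.log ((4^j + 1 : ℕ) : ℝ) ≤ (2 + 2/κ) * ((2:ℝ)^j) ^ κ := by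
  have hQ : (1:ℝ) ≤ (2:ℝ)^j := one_le_pow₀ (by norm_num)
  have h1 : Real.log ((4^j + 1 : ℕ) : ℝ) ≤ Real.log (2 * (4:ℝ)^j) := by
    apply Real.log_le_log (by positivity)
    push_cast
    have : (1:ℝ) ≤ (4:ℝ)^j := one_le_pow₀ (by norm_num)
    linarith
  have h2 : Real.log (2 * (4:ℝ)^j) = Real.log 2 + 2 * Real.log ((2:ℝ)^j) := by
    rw [Real.log_mul (by norm_num) (by positivity), four_eq, Real.log_pow ]
    push_cast; ring
  have h3 := Real.log_le_rpow_div (show (0:ℝ) ≤ (2:ℝ)^j by positivity) hκ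
  have h4 : 1 ≤ ((2:ℝ)^j) ^ κ := Real.one_le_rpow hQ hκ.le
  have h5 := Real.log_two_lt_d9
  have h6 : 2 * (((2:ℝ)^j) ^ κ / κ) = 2/κ * ((2:ℝ)^j) ^ κ := by ring
  nlinarith

/-- large values of a block -/
theorem lvb {α κ C1 : ℝ} (hα : 0 < α) (hκ : 0 < κ) (hκ1 : κ ≤ 1) (hC1 : 0 < C1) : ∃ C : ℝ, 0 < C ∧
    ∀ (j N : ℕ) (b : ℕ → ℂ) (g v : ℝ), 0 < v → 0 ≤ g → g ≤ 1 →
    (∀ m ∈ blk j, ‖b m‖ ≤ C1 * g * ((2:ℝ)^j) ^ (-(3/2) + κ)) →
    (((range N).filter (fun n => v ≤ ‖Bk b α j n‖)).card : ℝ) ≤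
      C * (N * ((2:ℝ)^j) ^ (7 * κ) / v^6 + g^2 * ((2:ℝ)^j) ^ (1 + 2 * κ) / v^2) := by
  set c1 : ℝ := 3 + (5/α + 1) * (20/α) with hc1
  have hc10 : 0 < c1 := by positivity
  set c2 : ℝ := 23 * √(α * 2 * (2 + 2/κ)) with hc2
  have hc20 : 0 ≤ c2 := by positivity
  set D : ℝ := 3 * C1^2 * (c1 + c2) + 1 with hD
  have hD0 : 0 < D := by positivity
  refine ⟨16 * D^3 + 2 * D, by positivity, ?_⟩
  intro j N b g v hv hg0 hg1 hb
  set Q : ℝ := (2:ℝ)^j with hQ
  have hQ1 : 1 ≤ Q := one_le_pow₀ (by norm_num)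
  have hQ0 : 0 < Q := by linarith
  have h4Q : (4:ℝ)^j = Q^2 := four_eq j
  -- the l² norm
  have hl2 : ∑ m ∈ blk j, ‖b m‖^2 ≤ 3 * C1^2 * g^2 * Q ^ (-1 + 2 * κ) := by
    calc ∑ m ∈ blk j, ‖b m‖^2 ≤ ∑ m ∈ blk j, (C1 * g * Q ^ (-(3/2) + κ))^2 :=
          sum_le_sum (fun m hm => pow_le_pow_left₀ (norm_nonneg _) (hb m hm) 2)
      _ = 3 * Q^2 * (C1 * g * Q ^ (-(3/2) + κ))^2 := by rw [sum_const, nsmul_eq_mul, blk_card, h4Q]
      _ = 3 * C1^2 * g^2 * (Q^2 * (Q ^ (-(3/2) + κ))^2) := by ring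
      _ = _ := by
          congr 1
          rw [← Real.rpow_natCast Q 2, ← Real.rpow_natCast (Q ^ (-(3/2) + κ)) 2, ← Real.rpow_mul hQ0.le, ← Real.rpow_add hQ0]
          congr 1; push_cast; ring
  -- one window
  have hwin : ∀ (k H : ℕ) (S : Finset ℕ), S ⊆ Ico k (k+H) → (∀ n ∈ S, v ≤ ‖Bk b α j n‖) →
      (S.card : ℝ) * v^2 ≤ D * (g^2 * Q ^ (1 + 2 * κ) + S.card * (√H * Q ^ (-(1/2) + 5/2 * κ))) := by
    intro k H S hS hvS
    have hsM : √(((4^j + 1 : ℕ)) : ℝ) ≤ 2 * Q := by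
      rw [Real.sqrt_le_left (by positivity)]
      push_cast
      rw [h4Q]
      nlinarith
    have hW : 23 * √(α * H * √((4^j + 1 : ℕ) : ℝ) * (1 + Real.log ((4^j + 1 : ℕ) : ℝ))) ≤ c2 * (√H * Q ^ ((1 + κ)/2)) := by
      have hlog0 : 0 ≤ 1 + Real.log ((4^j + 1 : ℕ) : ℝ) := by
        have : (1:ℝ) ≤ ((4^j + 1 : ℕ) : ℝ) := by push_cast; have := pow_pos (show (0:ℝ) < 4 by norm_num) j; linarith
        have := Real.log_nonneg this
        linarith
      have h1 : α * H * √((4^j + 1 : ℕ) : ℝ) * (1 + Real.log ((4^j + 1 : ℕ) : ℝ)) ≤ (α * 2 * (2 + 2/κ)) * (H * Q ^ (1 + κ)) := by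
        calc _ ≤ α * H * (2 * Q) * ((2 + 2/κ) * Q ^ κ) := by
              apply mul_le_mul _ (log_M_le hκ j) hlog0 (by positivity)
              exact mul_le_mul_of_nonneg_left hsM (by positivity)
          _ = (α * 2 * (2 + 2/κ)) * (H * (Q * Q ^ κ)) := by ring
          _ = _ := by rw [Real.rpow_add hQ0, Real.rpow_one]
      have h2 : √(α * H * √((4^j + 1 : ℕ) : ℝ) * (1 + Real.log ((4^j + 1 : ℕ) : ℝ))) ≤ √(α * 2 * (2 + 2/κ)) * (√H * Q ^ ((1 + κ)/2)) := by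
        refine (Real.sqrt_le_sqrt h1).trans (le_of_eq ?_)
        rw [Real.sqrt_mul (show 0 ≤ α * 2 * (2 + 2/κ) by positivity), Real.sqrt_mul (show (0:ℝ) ≤ H by positivity)]
        congr 2
        rw [Real.sqrt_eq_rpow, ← Real.rpow_mul hQ0.le]
        congr 1; ring
      calc 23 * √(α * H * √((4^j + 1 : ℕ) : ℝ) * (1 + Real.log ((4^j + 1 : ℕ) : ℝ))) ≤
            23 * (√(α * 2 * (2 + 2/κ)) * (√H * Q ^ ((1 + κ)/2))) := mul_le_mul_of_nonneg_left h2 (by norm_num)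
        _ = _ := by rw [hc2]; ring
    have hK : ∀ n ∈ S, ∑ n' ∈ S, ‖∑ m ∈ blk j, e (((n:ℝ) - n') * (α * √(m:ℝ)))‖ ≤ c1 * Q^2 + S.card * (c2 * (√H * Q ^ ((1 + κ)/2))) := by
      intro n hn
      refine (ker_sum hα j S k H hS n hn).trans ?_
      rw [h4Q]
      apply add_le_add le_rfl
      exact mul_le_mul_of_nonneg_left hW (by positivity)
    have h1 := dual_gen S (blk j) b (fun m => α * √(m:ℝ)) hv.le (by positivity) hvS hl2 hK
    refine h1.trans ?_
    have e1 : 3 * C1^2 * g^2 * Q ^ (-1 + 2 * κ) * (c1 * Q^2 + S.card * (c2 * (√H * Q ^ ((1 + κ)/2)))) =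
        3 * C1^2 * c1 * (g^2 * (Q ^ (-1 + 2 * κ) * Q^2)) + 3 * C1^2 * c2 * (g^2 * (S.card * (√H * (Q ^ (-1 + 2 * κ) * Q ^ ((1 + κ)/2))))) := by ring
    have e2 : Q ^ (-1 + 2 * κ) * Q^2 = Q ^ (1 + 2 * κ) := by
      rw [← Real.rpow_natCast Q 2, ← Real.rpow_add hQ0]; congr 1; push_cast; ring
    have e3 : Q ^ (-1 + 2 * κ) * Q ^ ((1 + κ)/2) = Q ^ (-(1/2) + 5/2 * κ) := by
      rw [← Real.rpow_add hQ0]; congr 1; ring
    rw [e1, e2, e3]
    have hg2 : g^2 ≤ 1 := by nlinarith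
    have i1 : g^2 * (S.card * (√H * Q ^ (-(1/2) + 5/2 * κ))) ≤ S.card * (√H * Q ^ (-(1/2) + 5/2 * κ)) := by
      calc _ ≤ 1 * (S.card * (√H * Q ^ (-(1/2) + 5/2 * κ))) := mul_le_mul_of_nonneg_right hg2 (by positivity)
        _ = _ := one_mul _
    have i2 : 3 * C1^2 * c1 ≤ D := by rw [hD]; nlinarith [mul_nonneg (sq_nonneg C1) hc20]
    have i3 : 3 * C1^2 * c2 ≤ D := by rw [hD]; nlinarith [mul_nonneg (sq_nonneg C1) hc10.le]
    rw [mul_add D]
    apply add_le_add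
    · exact mul_le_mul_of_nonneg_right i2 (by positivity)
    · exact mul_le_mul i3 i1 (by positivity) hD0.le
  set P : Finset ℕ := (range N).filter (fun n => v ≤ ‖Bk b α j n‖) with hP
  have hPN : (P.card : ℝ) ≤ N := by
    have : P.card ≤ (range N).card := card_filter_le _ _
    rw [card_range] at this
    exact_mod_cast this
  set hst : ℝ := v^4 * Q ^ (1 - 5 * κ) / (4 * D^2) with hhst
  have hst0 : 0 < hst := by positivity
  have hmain : (P.card : ℝ) ≤ 16 * D^3 * (N * Q ^ (7 * κ) / v^6) + 2 * D * (g^2 * Q ^ (1 + 2 * κ) / v^2) := by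
    rcases lt_or_ge hst 1 with hlt | hge
    · -- trivial
      have h1 : 1 ≤ 8 * D^3 * (Q ^ (7 * κ) / v^6) := by
        -- hst^(3/2) ≤ 1
        have h2 : hst ^ (3/2:ℝ) ≤ 1 := Real.rpow_le_one hst0.le hlt.le (by norm_num)
        have h3 : hst ^ (3/2:ℝ) = v^6 * Q ^ (3/2 - 15/2 * κ) / (8 * D^3) := by
          rw [hhst, Real.div_rpow (by positivity) (by positivity), Real.mul_rpow (by positivity) (by positivity),
            ← Real.rpow_mul hQ0.le]
          congr 1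
          · congr 1
            · rw [← Real.rpow_natCast v 4, ← Real.rpow_mul hv.le, ← Real.rpow_natCast v 6]; congr 1; norm_num
            · congr 1; ring
          · rw [show 4 * D^2 = (2 * D)^2 by ring, ← Real.rpow_natCast (2*D) 2, ← Real.rpow_mul (by positivity),
              show ((2:ℕ):ℝ) * (3/2) = ((3:ℕ):ℝ) by norm_num, Real.rpow_natCast]
            ring
        rw [h3, div_le_iff₀ (by positivity)] at h2
        rw [← mul_div_assoc, le_div_iff₀ (by positivity)]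
        have h4 : Q ^ (-(7 * κ)) ≤ Q ^ (3/2 - 15/2 * κ) := by
          apply Real.rpow_le_rpow_of_exponent_le hQ1; linarith
        have h5 : v^6 * Q ^ (-(7 * κ)) ≤ 8 * D^3 := by
          calc v^6 * Q ^ (-(7 * κ)) ≤ v^6 * Q ^ (3/2 - 15/2 * κ) := mul_le_mul_of_nonneg_left h4 (by positivity)
            _ ≤ _ := by linarith
        calc 1 * v^6 = (v^6 * Q ^ (-(7 * κ))) * Q ^ (7 * κ) := by
              rw [mul_assoc, ← Real.rpow_add hQ0]; simp
          _ ≤ (8 * D^3) * Q ^ (7 * κ) := mul_le_mul_of_nonneg_right h5 (by positivity)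
      have h2 : (0:ℝ) ≤ N := Nat.cast_nonneg N
      have h3 : (N:ℝ) * 1 ≤ N * (8 * D^3 * (Q ^ (7 * κ) / v^6)) := mul_le_mul_of_nonneg_left h1 h2
      have h4 : (N:ℝ) * (8 * D^3 * (Q ^ (7 * κ) / v^6)) = 8 * D^3 * (N * Q ^ (7 * κ) / v^6) := by ring
      have h5 : 0 ≤ D^3 * (N * Q ^ (7 * κ) / v^6) := by positivity
      have h6 : 0 ≤ 2 * D * (g^2 * Q ^ (1 + 2 * κ) / v^2) := by positivity
      linarith
    · set H : ℕ := ⌊hst⌋₊ with hH
      have hH1 : 1 ≤ H := by rw [hH, Nat.one_le_floor_iff]; exact hge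
      have hHle : (H:ℝ) ≤ hst := Nat.floor_le hst0.le
      have hHge : hst / 2 ≤ H := by
        have h1 := Nat.lt_floor_add_one hst
        rw [← hH] at h1
        have h2 : (1:ℝ) ≤ H := by exact_mod_cast hH1
        linarith
      have hH0 : (0:ℝ) < H := by exact_mod_cast hH1
      -- one window is small
      have hsm : D * (√H * Q ^ (-(1/2) + 5/2 * κ)) ≤ v^2 / 2 := by
        have h1 : √(H:ℝ) ≤ v^2 * Q ^ (1/2 - 5/2 * κ) / (2 * D) := by
          rw [Real.sqrt_le_left (by positivity)]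
          refine hHle.trans (le_of_eq ?_)
          rw [hhst, div_pow, mul_pow, ← pow_mul, mul_pow, ← Real.rpow_natCast (Q ^ (1/2 - 5/2 * κ)) 2, ← Real.rpow_mul hQ0.le]
          congr 2
          · congr 1; push_cast; ring
          · norm_num
        calc D * (√H * Q ^ (-(1/2) + 5/2 * κ)) ≤ D * ((v^2 * Q ^ (1/2 - 5/2 * κ) / (2 * D)) * Q ^ (-(1/2) + 5/2 * κ)) := by gcongr
          _ = v^2/2 * (Q ^ (1/2 - 5/2 * κ) * Q ^ (-(1/2) + 5/2 * κ)) := by field_simp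
          _ = v^2/2 := by
              rw [← Real.rpow_add hQ0, show 1/2 - 5/2 * κ + (-(1/2) + 5/2 * κ) = 0 by ring, Real.rpow_zero, mul_one]
      have hone : ∀ i : ℕ, ((P.filter (fun n => n / H = i)).card : ℝ) ≤ 2 * D * (g^2 * Q ^ (1 + 2 * κ) / v^2) := by
        intro i
        set S := P.filter (fun n => n / H = i) with hS
        have hsub : S ⊆ Ico (i * H) (i * H + H) := by
          intro n hn
          rw [hS, mem_filter] at hn
          rw [mem_Ico]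
          have h1 := hn.2
          have h2 := Nat.div_add_mod n H
          have h3 := Nat.mod_lt n hH1
          rw [h1] at h2
          have h4 : i * H = H * i := mul_comm _ _
          generalize hr : n % H = r at h2 h3
          constructor
          · rw [h4]; omega
          · rw [h4]; omega
        have hvS : ∀ n ∈ S, v ≤ ‖Bk b α j n‖ := by
          intro n hn
          rw [hS, mem_filter, hP, mem_filter] at hn
          exact hn.1.2
        have h1 := hwin (i * H) H S hsub hvS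
        have h2 : (S.card : ℝ) * (D * (√H * Q ^ (-(1/2) + 5/2 * κ))) ≤ S.card * (v^2/2) := mul_le_mul_of_nonneg_left hsm (by positivity)
        have h3 : (S.card : ℝ) * v^2 ≤ 2 * D * (g^2 * Q ^ (1 + 2 * κ)) := by nlinarith
        rw [← mul_div_assoc, le_div_iff₀ (by positivity)]
        exact h3
      have hcard : (P.card : ℝ) ≤ ∑ i ∈ range (N / H + 1), ((P.filter (fun n => n / H = i)).card : ℝ) := by
        have : P.card = ∑ i ∈ range (N / H + 1), (P.filter (fun n => n / H = i)).card := by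
          apply card_eq_sum_card_fiberwise
          intro n hn
          rw [mem_coe, hP, mem_filter, mem_range] at hn
          rw [mem_coe, mem_range]
          have := Nat.div_le_div_right (c := H) hn.1.le
          exact Nat.lt_succ_of_le this
        rw [this]; push_cast; exact le_rfl
      have h1 : (P.card : ℝ) ≤ (N / H + 1) * (2 * D * (g^2 * Q ^ (1 + 2 * κ) / v^2)) := by
        refine hcard.trans ((sum_le_sum (fun i _ => hone i)).trans ?_)
        rw [sum_const, card_range, nsmul_eq_mul]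
        apply mul_le_mul_of_nonneg_right _ (by positivity)
        push_cast
        have : (((N / H : ℕ)) : ℝ) ≤ (N:ℝ) / H := Nat.cast_div_le
        linarith
      have h2 : (N:ℝ) / H ≤ 2 * N / hst := by
        rw [div_le_div_iff₀ hH0 hst0]
        have : (0:ℝ) ≤ N := Nat.cast_nonneg N
        nlinarith
      have hg2 : g^2 ≤ 1 := by nlinarith
      have h3 : 2 * N / hst * (2 * D * (g^2 * Q ^ (1 + 2 * κ) / v^2)) ≤ 16 * D^3 * (N * Q ^ (7 * κ) / v^6) := by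
        have e1 : 2 * (N:ℝ) / hst * (2 * D * (g^2 * Q ^ (1 + 2 * κ) / v^2)) =
            16 * D^3 * g^2 * (N * (Q ^ (1 + 2 * κ) / Q ^ (1 - 5 * κ)) / v^6) := by
          rw [hhst]; field_simp; ring
        rw [e1, ← Real.rpow_sub hQ0, show 1 + 2 * κ - (1 - 5 * κ) = 7 * κ by ring]
        have h4 : 0 ≤ 16 * D^3 * (N * Q ^ (7 * κ) / v^6) := by positivity
        calc 16 * D^3 * g^2 * (N * Q ^ (7 * κ) / v^6) = g^2 * (16 * D^3 * (N * Q ^ (7 * κ) / v^6)) := by ring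
          _ ≤ 1 * (16 * D^3 * (N * Q ^ (7 * κ) / v^6)) := mul_le_mul_of_nonneg_right hg2 h4
          _ = _ := one_mul _
      calc (P.card : ℝ) ≤ (N / H + 1) * (2 * D * (g^2 * Q ^ (1 + 2 * κ) / v^2)) := h1
        _ ≤ (2 * N / hst + 1) * (2 * D * (g^2 * Q ^ (1 + 2 * κ) / v^2)) := by
            apply mul_le_mul_of_nonneg_right _ (by positivity)
            linarith
        _ = 2 * N / hst * (2 * D * (g^2 * Q ^ (1 + 2 * κ) / v^2)) + 2 * D * (g^2 * Q ^ (1 + 2 * κ) / v^2) := by ring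
        _ ≤ _ := by linarith
  refine hmain.trans ?_
  have h1 : 0 ≤ N * Q ^ (7 * κ) / v^6 := by positivity
  have h2 : 0 ≤ g^2 * Q ^ (1 + 2 * κ) / v^2 := by positivity
  have h3 : 0 ≤ 2 * D * (N * Q ^ (7 * κ) / v^6) := by positivity
  have h4 : 0 ≤ 16 * D^3 * (g^2 * Q ^ (1 + 2 * κ) / v^2) := by positivity
  nlinarith

end Pool.Agent.H425R3.MM
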