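import Mathlib
import Pool.Agent.H425R3.MM.K3
import Pool.Agent.H452R2.Win.W5

open Finset
open Pool.Agent.H469R2.NK
open Pool.Agent.H452R2 Pool.Agent.H383 Pool.Agent.H383.Gauss Pool.Agent.H383.AP

namespace Pool.Agent.H425R3.MM

lemma Tw_le {ω : ℝ} (hω : 0 < ω) : ∃ C : ℝ, 0 < C ∧ ∀ M : ℕ, 1 ≤ M → Win.Tw ω M ≤ C * (M:ℝ) ^ (-(ω/2)) := by
  have hs : Summable (fun q : ℕ => ((1 + q : ℕ):ℝ) ^ (-(1 + ω/2))) := by
    have h1 : Summable (fun n : ℕ => (n:ℝ) ^ (-(1 + ω/2))) := Real.summable_nat_rpow.mpr (by linarith)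
    have h2 := (summable_nat_add_iff 1).mpr h1
    refine h2.congr (fun q => ?_)
    rw [add_comm]
  refine ⟨∑' q : ℕ, ((1 + q : ℕ):ℝ) ^ (-(1 + ω/2)) + 1, ?_, ?_⟩
  · have : 0 ≤ ∑' q : ℕ, ((1 + q : ℕ):ℝ) ^ (-(1 + ω/2)) := tsum_nonneg (fun q => by positivity)
    linarith
  intro M hM
  have hM0 : (0:ℝ) < M := by exact_mod_cast hM
  unfold Win.Tw
  have hle : ∀ q : ℕ, ((M + q : ℕ):ℝ) ^ (-(1 + ω)) ≤ (M:ℝ) ^ (-(ω/2)) * ((1 + q : ℕ):ℝ) ^ (-(1 + ω/2)) := by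
    intro q
    have h0 : (0:ℝ) < ((M + q : ℕ):ℝ) := by exact_mod_cast (by omega : 0 < M + q)
    have e1 : ((M + q : ℕ):ℝ) ^ (-(1 + ω)) = ((M + q : ℕ):ℝ) ^ (-(ω/2)) * ((M + q : ℕ):ℝ) ^ (-(1 + ω/2)) := by
      rw [← Real.rpow_add h0]; congr 1; ring
    rw [e1]
    apply mul_le_mul _ _ (by positivity) (by positivity)
    · apply Real.rpow_le_rpow_of_nonpos hM0 _ (by linarith)
      exact_mod_cast (by omega : M ≤ M + q)
    · apply Real.rpow_le_rpow_of_nonpos _ _ (by linarith)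
      · exact_mod_cast (by omega : 0 < 1 + q)
      · exact_mod_cast (by omega : 1 + q ≤ M + q)
  have hs2 := hs.mul_left ((M:ℝ) ^ (-(ω/2)))
  have hs1 : Summable (fun q : ℕ => ((M + q : ℕ):ℝ) ^ (-(1 + ω))) :=
    Summable.of_nonneg_of_le (fun q => by positivity) hle hs2
  have h1 := hs1.tsum_le_tsum hle hs2
  rw [tsum_mul_left] at h1
  refine h1.trans ?_
  have : 0 ≤ (M:ℝ) ^ (-(ω/2)) := by positivity
  nlinarith

/-- the mean square of a block -/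
theorem msb {α ω C1 : ℝ} (hα : 0 < α) (hω : 0 < ω) (hω2 : ω ≤ 1/200) (hC1 : 0 < C1) : ∃ C : ℝ, 0 < C ∧ ∃ N0 : ℕ,
    ∀ (N : ℕ) (Z δ : ℝ) (b : ℕ → ℂ) (j : ℕ), N0 ≤ N → (N:ℝ) ≤ Z → Z ≤ 2 * (N:ℝ) ^ (2 / (1 + 200 * ω)) →
    Z ^ (-(1/2 + ω)) ≤ δ → δ ≤ 1 → (∀ m : ℕ, 1 ≤ m → ‖b m‖ ≤ C1 * Win.hw ω δ (√(m:ℝ))) →
    ∑ n ∈ range N, ‖Bk b α j n‖^2 ≤ C * N * ((2:ℝ)^j) ^ (-(ω/2)) := by
  have hω1 : ω ≤ 1/100 := by linarith
  obtain ⟨Cm, hCm, N1, hD⟩ := Win.mid_ms hω hω1 hα hC1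
  obtain ⟨C2, hC2, hH⟩ := Win.high_ms hω hω1 hα hC1
  obtain ⟨CT, hCT, hTw⟩ := Tw_le hω
  obtain ⟨N3, hN3⟩ : ∃ N3 : ℕ, ∀ N : ℕ, N3 ≤ N → 2 * (N:ℝ) ^ (-(41 * ω)) ≤ 1 := by
    have h1 := tend_nat_rpow (y := 41 * ω) (by positivity) 2
    have h2 := h1.eventually (gt_mem_nhds (by norm_num : (0:ℝ) < 1))
    rw [Filter.eventually_atTop] at h2
    obtain ⟨N3, hN3⟩ := h2
    exact ⟨N3, fun N hN => (hN3 N hN).le⟩
  set c : ℝ := max 1 (4/α) with hc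
  have hc1 : 1 ≤ c := le_max_left _ _
  have hcα : 4/α ≤ c := le_max_right _ _
  set C4 : ℝ := C2 * (3 * (2 + 1/ω) * (4 * c^2)) with hC4
  have hC40 : 0 < C4 := by positivity
  refine ⟨Cm * CT + C4, by positivity, max (max N1 N3) 1, ?_⟩
  intro N Z δ b j hN hNZ hZg hδZ hδ1 hb
  have hNN1 : N1 ≤ N := by omega
  have hNN3 : N3 ≤ N := by omega
  have hN1n : 1 ≤ N := by omega
  have hN1' : (1:ℝ) ≤ N := by exact_mod_cast hN1n
  have hN0 : (0:ℝ) < N := by linarith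
  have hZ0 : 0 < Z := by linarith
  have hZ1 : 1 ≤ Z := by linarith
  have hδ0 : 0 < δ := lt_of_lt_of_le (by positivity) hδZ
  set Q : ℝ := (2:ℝ)^j with hQ
  have hQ1 : 1 ≤ Q := one_le_pow₀ (by norm_num)
  have hQ0 : 0 < Q := by linarith
  have hF : δ ^ (-1:ℝ) ≤ 2 * (N:ℝ) ^ (1 - 99 * ω) := by
    have e1 : δ ^ (-1:ℝ) ≤ Z ^ (1/2 + ω) := by
      calc δ ^ (-1:ℝ) ≤ (Z ^ (-(1/2 + ω))) ^ (-1:ℝ) := Real.rpow_le_rpow_of_nonpos (by positivity) hδZ (by norm_num)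
        _ = _ := by rw [← Real.rpow_mul hZ0.le]; congr 1; ring
    refine e1.trans ?_
    calc Z ^ (1/2 + ω) ≤ (2 * (N:ℝ) ^ (2 / (1 + 200 * ω))) ^ (1/2 + ω) :=
          Real.rpow_le_rpow hZ0.le hZg (by positivity)
      _ = 2 ^ (1/2 + ω) * (N:ℝ) ^ (2 / (1 + 200 * ω) * (1/2 + ω)) := by
          rw [Real.mul_rpow (by norm_num) (by positivity), ← Real.rpow_mul hN0.le]
      _ ≤ 2 * (N:ℝ) ^ (1 - 99 * ω) := by
          apply mul_le_mul _ _ (by positivity) (by norm_num)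
          · calc (2:ℝ) ^ (1/2 + ω) ≤ 2 ^ (1:ℝ) := Real.rpow_le_rpow_of_exponent_le (by norm_num) (by linarith)
              _ = 2 := Real.rpow_one 2
          · apply Real.rpow_le_rpow_of_exponent_le hN1'
            rw [div_mul_eq_mul_div, div_le_iff₀ (by positivity)]
            nlinarith
  have hδq : δ ^ (-(1/2 + 8 * ω)) ≤ (N:ℝ) ^ (1/2:ℝ) := by
    have e1 : δ ^ (-(1/2 + 8 * ω)) = (δ ^ (-1:ℝ)) ^ (1/2 + 8 * ω) := by
      rw [← Real.rpow_mul hδ0.le]; congr 1; ring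
    rw [e1]
    calc (δ ^ (-1:ℝ)) ^ (1/2 + 8 * ω) ≤ (2 * (N:ℝ) ^ (1 - 99 * ω)) ^ (1/2 + 8 * ω) :=
          Real.rpow_le_rpow (by positivity) hF (by positivity)
      _ = 2 ^ (1/2 + 8 * ω) * (N:ℝ) ^ ((1 - 99 * ω) * (1/2 + 8 * ω)) := by
          rw [Real.mul_rpow (by norm_num) (by positivity), ← Real.rpow_mul hN0.le]
      _ ≤ 2 * (N:ℝ) ^ (-(41 * ω) + 1/2) := by
          apply mul_le_mul _ _ (by positivity) (by norm_num)
          · calc (2:ℝ) ^ (1/2 + 8 * ω) ≤ 2 ^ (1:ℝ) := Real.rpow_le_rpow_of_exponent_le (by norm_num) (by linarith)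
              _ = 2 := Real.rpow_one 2
          · apply Real.rpow_le_rpow_of_exponent_le hN1'
            nlinarith [sq_nonneg ω]
      _ = (2 * (N:ℝ) ^ (-(41 * ω))) * (N:ℝ) ^ (1/2:ℝ) := by
          rw [Real.rpow_add hN0]; ring
      _ ≤ 1 * (N:ℝ) ^ (1/2:ℝ) := mul_le_mul_of_nonneg_right (hN3 N hNN3) (by positivity)
      _ = _ := one_mul _
  have hblk : blk j = Ioc ((2^j)^2) ((2^(j+1))^2) := by
    unfold blk
    congr 1
    · rw [← pow_mul, mul_comm, pow_mul]; norm_num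
    · rw [← pow_mul, mul_comm, pow_mul]; norm_num
  have hBk : ∀ n : ℕ, Bk b α j n = ∑ m ∈ Ioc ((2^j)^2) ((2^(j+1))^2), b m *
      Complex.exp (((2 * Real.pi * (n * (α * √(m:ℝ))) : ℝ) : ℂ) * Complex.I) := by
    intro n; unfold Bk; rw [hblk]; rfl
  have hsum : ∑ n ∈ range N, ‖Bk b α j n‖^2 = ∑ n ∈ range N, ‖∑ m ∈ Ioc ((2^j)^2) ((2^(j+1))^2), b m *
      Complex.exp (((2 * Real.pi * (n * (α * √(m:ℝ))) : ℝ) : ℂ) * Complex.I)‖^2 := by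
    apply sum_congr rfl; intro n _; rw [hBk]
  rw [hsum]
  have hQpos : 0 < Q ^ (-(ω/2)) := by positivity
  rcases le_or_gt (2 * ((2^(j+1) : ℕ) : ℝ)) (α * N) with hA | hB
  · have h1 := hD N δ b (2^j) (2^(j+1)) hNN1 hδ0 hδ1 hδq Nat.one_le_two_pow hA hb
    refine h1.trans ?_
    have h2 := hTw (2^j) Nat.one_le_two_pow
    push_cast at h2
    rw [← hQ] at h2
    calc Cm * N * Win.Tw ω (2^j) ≤ Cm * N * (CT * Q ^ (-(ω/2))) := mul_le_mul_of_nonneg_left h2 (by positivity)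
      _ = Cm * CT * N * Q ^ (-(ω/2)) := by ring
      _ ≤ (Cm * CT + C4) * N * Q ^ (-(ω/2)) := by
          apply mul_le_mul_of_nonneg_right _ hQpos.le
          apply mul_le_mul_of_nonneg_right _ hN0.le
          linarith
  · have h1 := hH N δ b (2^j) (2^(j+1)) hN1n hδ0 Nat.one_le_two_pow Nat.one_le_two_pow hb
    refine h1.trans ?_
    have hNQ : (N:ℝ) ≤ c * Q := by
      have h2 : α * N < 4 * Q := by
        calc α * N < 2 * ((2^(j+1) : ℕ) : ℝ) := hB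
          _ = 4 * Q := by push_cast; rw [hQ]; ring
      have h3 : (N:ℝ) ≤ 4/α * Q := by
        rw [div_mul_eq_mul_div, le_div_iff₀ hα]; linarith
      exact h3.trans (mul_le_mul_of_nonneg_right hcα hQ0.le)
    have g1 : 1 + 1/(N*δ) ≤ 3 := by
      have e1 : 1/(N*δ) = (N:ℝ) ^ (-1:ℝ) * δ ^ (-1:ℝ) := by
        rw [Real.rpow_neg_one, Real.rpow_neg_one]; field_simp
      have e2 : (N:ℝ) ^ (-1:ℝ) * δ ^ (-1:ℝ) ≤ 2 := by
        calc (N:ℝ) ^ (-1:ℝ) * δ ^ (-1:ℝ) ≤ (N:ℝ) ^ (-1:ℝ) * (2 * (N:ℝ) ^ (1 - 99 * ω)) := by gcongr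
          _ = 2 * ((N:ℝ) ^ (-1:ℝ) * (N:ℝ) ^ (1 - 99 * ω)) := by ring
          _ = 2 * (N:ℝ) ^ (-1 + (1 - 99 * ω)) := by rw [← Real.rpow_add hN0]
          _ ≤ 2 * 1 := by
              apply mul_le_mul_of_nonneg_left _ (by norm_num)
              exact Real.rpow_le_one_of_one_le_of_nonpos hN1' (by linarith)
          _ = 2 := by norm_num
      rw [e1]; linarith
    have g2 : 1 + Real.log ((2^(j+1) : ℕ) : ℝ) ≤ (2 + 1/ω) * Q ^ ω := by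
      have h3 : Real.log ((2^(j+1) : ℕ) : ℝ) = Real.log 2 + Real.log Q := by
        push_cast; rw [pow_succ, mul_comm, Real.log_mul (by norm_num) (by positivity)]
      have h4 := Real.log_le_rpow_div hQ0.le hω
      have h5 := Real.log_two_lt_d9
      have h6 : 1 ≤ Q ^ ω := Real.one_le_rpow hQ1 hω.le
      have h7 : Q ^ ω / ω = 1/ω * Q ^ ω := by ring
      nlinarith
    have g3 : δ ^ (-2:ℝ) * ((2^j : ℕ):ℝ) ^ (-2 + 4 * ω) ≤ 4 * c^2 * Q ^ (-(194 * ω)) := by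
      have e1 : δ ^ (-2:ℝ) ≤ 4 * (c^2 * Q ^ (2 - 198 * ω)) := by
        have e3 : δ ^ (-2:ℝ) = (δ ^ (-1:ℝ))^2 := by
          rw [← Real.rpow_natCast, ← Real.rpow_mul hδ0.le]; norm_num
        rw [e3]
        calc (δ ^ (-1:ℝ))^2 ≤ (2 * (N:ℝ) ^ (1 - 99 * ω))^2 := pow_le_pow_left₀ (by positivity) hF 2
          _ = 4 * ((N:ℝ) ^ (1 - 99 * ω))^2 := by ring
          _ = 4 * (N:ℝ) ^ (2 - 198 * ω) := by
              rw [← Real.rpow_natCast, ← Real.rpow_mul hN0.le]; congr 2; push_cast; ring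
          _ ≤ 4 * (c * Q) ^ (2 - 198 * ω) := by
              apply mul_le_mul_of_nonneg_left _ (by norm_num)
              exact Real.rpow_le_rpow hN0.le hNQ (by linarith)
          _ = 4 * (c ^ (2 - 198 * ω) * Q ^ (2 - 198 * ω)) := by rw [Real.mul_rpow (by positivity) hQ0.le]
          _ ≤ 4 * (c^2 * Q ^ (2 - 198 * ω)) := by
              apply mul_le_mul_of_nonneg_left _ (by norm_num)
              apply mul_le_mul_of_nonneg_right _ (by positivity)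
              rw [← Real.rpow_two]
              exact Real.rpow_le_rpow_of_exponent_le hc1 (by linarith)
      have e2 : (((2^j : ℕ)):ℝ) = Q := by push_cast; rfl
      rw [e2]
      calc δ ^ (-2:ℝ) * Q ^ (-2 + 4 * ω) ≤ 4 * (c^2 * Q ^ (2 - 198 * ω)) * Q ^ (-2 + 4 * ω) :=
            mul_le_mul_of_nonneg_right e1 (by positivity)
        _ = 4 * c^2 * (Q ^ (2 - 198 * ω) * Q ^ (-2 + 4 * ω)) := by ring
        _ = _ := by rw [← Real.rpow_add hQ0]; congr 2; ring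
    have hlog0 : 0 ≤ 1 + Real.log ((2^(j+1) : ℕ) : ℝ) := by
      have : (1:ℝ) ≤ ((2^(j+1) : ℕ) : ℝ) := by exact_mod_cast Nat.one_le_two_pow
      have := Real.log_nonneg this
      linarith
    have h5 : (1 + 1/(N*δ)) * (1 + Real.log ((2^(j+1) : ℕ) : ℝ)) * (δ ^ (-2:ℝ) * ((2^j : ℕ):ℝ) ^ (-2 + 4 * ω)) ≤
        3 * (2 + 1/ω) * (4 * c^2) * Q ^ (-(ω/2)) := by
      calc (1 + 1/(N*δ)) * (1 + Real.log ((2^(j+1) : ℕ) : ℝ)) * (δ ^ (-2:ℝ) * ((2^j : ℕ):ℝ) ^ (-2 + 4 * ω))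
          ≤ 3 * ((2 + 1/ω) * Q ^ ω) * (4 * c^2 * Q ^ (-(194 * ω))) := by gcongr
        _ = 3 * (2 + 1/ω) * (4 * c^2) * (Q ^ ω * Q ^ (-(194 * ω))) := by ring
        _ = 3 * (2 + 1/ω) * (4 * c^2) * Q ^ (-(193 * ω)) := by rw [← Real.rpow_add hQ0]; congr 2; ring
        _ ≤ _ := by
            apply mul_le_mul_of_nonneg_left _ (by positivity)
            exact Real.rpow_le_rpow_of_exponent_le hQ1 (by linarith)
    calc C2 * N * ((1 + 1/(N*δ)) * (1 + Real.log ((2^(j+1) : ℕ) : ℝ)) * (δ ^ (-2:ℝ) * ((2^j : ℕ):ℝ) ^ (-2 + 4 * ω)))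
        ≤ C2 * N * (3 * (2 + 1/ω) * (4 * c^2) * Q ^ (-(ω/2))) := mul_le_mul_of_nonneg_left h5 (by positivity)
      _ = C4 * N * Q ^ (-(ω/2)) := by rw [hC4]; ring
      _ ≤ (Cm * CT + C4) * N * Q ^ (-(ω/2)) := by
          apply mul_le_mul_of_nonneg_right _ hQpos.le
          apply mul_le_mul_of_nonneg_right _ hN0.le
          have : 0 < Cm * CT := by positivity
          linarith

end Pool.Agent.H425R3.MM
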