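import Mathlib
import Pool.Agent.H425R3.MM.K4

open Finset
open Pool.Agent.H469R2.NK
open Pool.Agent.H452R2

namespace Pool.Agent.H425R3.MM

/-- interpolation between two bounds -/
lemma interp {x A1 A2 A3 θ : ℝ} (hθ0 : 0 ≤ θ) (hθ1 : θ ≤ 1) (hA1 : 0 < A1) (hA2 : 0 < A2) (hA3 : 0 ≤ A3)
    (h1 : x ≤ A1 + A3) (h2 : x ≤ A2) : x ≤ A1 ^ (1 - θ) * A2 ^ θ + A3 := by
  rcases le_total A1 A2 with h | h
  · have h3 : A1 ≤ A1 ^ (1 - θ) * A2 ^ θ := by
      calc A1 = A1 ^ (1 - θ) * A1 ^ θ := by rw [← Real.rpow_add hA1]; simp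
        _ ≤ _ := mul_le_mul_of_nonneg_left (Real.rpow_le_rpow hA1.le h hθ0) (by positivity)
    linarith
  · have h3 : A2 ≤ A1 ^ (1 - θ) * A2 ^ θ := by
      calc A2 = A2 ^ (1 - θ) * A2 ^ θ := by rw [← Real.rpow_add hA2]; simp
        _ ≤ _ := mul_le_mul_of_nonneg_right (Real.rpow_le_rpow hA2.le h (by linarith)) (by positivity)
    linarith

lemma alg1 {Ca Cb N Q w a b c d θ : ℝ} (hCa : 0 < Ca) (hCb : 0 < Cb) (hN : 0 < N) (hQ : 0 < Q) (hw : 0 < w) :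
    (Ca * (N * (Q ^ a * w ^ b))) ^ (1 - θ) * (Cb * (N * (Q ^ c * w ^ d))) ^ θ =
      (Ca ^ (1 - θ) * Cb ^ θ) * (N * (Q ^ (a * (1 - θ) + c * θ) * w ^ (b * (1 - θ) + d * θ))) := by
  rw [Real.mul_rpow hCa.le (by positivity), Real.mul_rpow hN.le (by positivity), Real.mul_rpow (by positivity) (by positivity),
    Real.mul_rpow hCb.le (by positivity), Real.mul_rpow hN.le (by positivity), Real.mul_rpow (by positivity) (by positivity),
    ← Real.rpow_mul hQ.le, ← Real.rpow_mul hw.le, ← Real.rpow_mul hQ.le, ← Real.rpow_mul hw.le, Real.rpow_add hQ, Real.rpow_add hw]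
  have h1 : N ^ (1 - θ) * N ^ θ = N := by rw [← Real.rpow_add hN]; simp
  calc Ca ^ (1 - θ) * (N ^ (1 - θ) * (Q ^ (a * (1 - θ)) * w ^ (b * (1 - θ)))) * (Cb ^ θ * (N ^ θ * (Q ^ (c * θ) * w ^ (d * θ)))) =
      Ca ^ (1 - θ) * Cb ^ θ * ((N ^ (1 - θ) * N ^ θ) * (Q ^ (a * (1 - θ)) * Q ^ (c * θ) * (w ^ (b * (1 - θ)) * w ^ (d * θ)))) := by ring
    _ = _ := by rw [h1]

/-- the number of large values of a sum of blocks -/
theorem tb {α ω C1 θ : ℝ} (hα : 0 < α) (hω : 0 < ω) (hω2 : ω ≤ 1/200) (hC1 : 0 < C1) (hθ : 0 < θ) (hθ1 : θ ≤ 1) :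
    ∃ C : ℝ, 0 < C ∧ ∃ N0 : ℕ,
    ∀ (N : ℕ) (Z δ v : ℝ) (b : ℕ → ℂ) (J : ℕ), N0 ≤ N → (N:ℝ) ≤ Z → Z ≤ 2 * (N:ℝ) ^ (2 / (1 + 200 * ω)) →
    Z ^ (-(1/2 + ω)) ≤ δ → δ ≤ 1 → 0 < v →
    (∀ m : ℕ, 1 ≤ m → ‖b m‖ ≤ C1 * Win.hw (ω * θ / 56) δ (√(m:ℝ))) →
    (((range N).filter (fun n => v ≤ ∑ j ∈ range J, ‖Bk b α j n‖)).card : ℝ) ≤
      C * (N * v ^ (-(6 - 4 * θ)) + δ ^ (-(1 + ω)) * v ^ (-2:ℝ)) := by
  set κ : ℝ := ω * θ / 56 with hκ
  set ρ : ℝ := ω * θ / 48 with hρ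
  have hκ0 : 0 < κ := by positivity
  have hρ0 : 0 < ρ := by positivity
  have hωθ : ω * θ ≤ ω := by nlinarith
  have hκω : κ ≤ ω := by rw [hκ]; linarith
  obtain ⟨Ca, hCa, hL⟩ := lvb (α := α) (κ := κ) hα hκ0 (by linarith) hC1
  obtain ⟨Cb, hCb, N0, hM⟩ := msb (α := α) (ω := ω) hα hω hω2 hC1
  -- the geometric weights
  set r : ℝ := (2:ℝ) ^ (-ρ) with hr
  have hr0 : 0 < r := by positivity
  have hr1 : r < 1 := Real.rpow_lt_one_of_one_lt_of_neg (by norm_num) (by linarith)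
  set cρ : ℝ := 1 - r with hcρ
  have hcρ0 : 0 < cρ := by linarith
  have hcρ1 : cρ < 1 := by linarith
  have hrj : ∀ j : ℕ, ((2:ℝ)^j) ^ (-ρ) = r^j := by
    intro j
    rw [hr, ← Real.rpow_natCast 2 j, ← Real.rpow_mul (by norm_num), mul_comm, Real.rpow_mul (by norm_num), Real.rpow_natCast]
  have hgeo : ∀ J : ℕ, cρ * ∑ j ∈ range J, r^j < 1 := by
    intro J
    have h1 := geom_sum_mul_neg r J
    have h2 : 0 < r^J := by positivity
    have : cρ * ∑ j ∈ range J, r^j = 1 - r^J := by rw [hcρ, mul_comm]; exact h1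
    linarith
  set C' : ℝ := (Ca + Cb) * cρ ^ (-(6:ℝ)) with hC'
  have hC'0 : 0 < C' := by positivity
  refine ⟨C' / cρ, by positivity, N0, ?_⟩
  intro N Z δ v b J hN hNZ hZg hδZ hδ1 hv hb
  have hZ0 : 0 ≤ Z := le_trans (Nat.cast_nonneg N) hNZ
  rcases Nat.eq_zero_or_pos N with rfl | hNpos
  · simp only [range_zero, filter_empty, card_empty, Nat.cast_zero, zero_mul, zero_add]
    have : 0 ≤ δ := le_trans (Real.rpow_nonneg hZ0 _) hδZ
    positivity
  have hN0 : (0:ℝ) < N := by exact_mod_cast hNpos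
  have hZpos : 0 < Z := by linarith
  have hδ0 : 0 < δ := lt_of_lt_of_le (by positivity) hδZ
  -- one block
  have hblk : ∀ j : ℕ, (((range N).filter (fun n => v * (cρ * r^j) ≤ ‖Bk b α j n‖)).card : ℝ) ≤
      C' * r^j * (N * v ^ (-(6 - 4 * θ)) + δ ^ (-(1 + ω)) * v ^ (-2:ℝ)) := by
    intro j
    set Q : ℝ := (2:ℝ)^j with hQ
    have hQ1 : 1 ≤ Q := one_le_pow₀ (by norm_num)
    have hQ0 : 0 < Q := by linarith
    set w : ℝ := v * (cρ * r^j) with hw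
    have hw0 : 0 < w := by positivity
    set g : ℝ := min 1 ((δ * Q) ^ (-(3/2):ℝ)) with hg
    have hg0 : 0 < g := by positivity
    have hg1 : g ≤ 1 := min_le_left _ _
    have hbB : ∀ m ∈ blk j, ‖b m‖ ≤ C1 * g * Q ^ (-(3/2) + κ) := by
      intro m hm
      unfold blk at hm
      rw [mem_Ioc] at hm
      have hm1 : 1 ≤ m := by
        have : 0 < 4^j := by positivity
        omega
      have hsQ : Q ≤ √(m:ℝ) := by
        apply Real.le_sqrt_of_sq_le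
        rw [← four_eq j]
        exact_mod_cast hm.1.le
      refine (hb m hm1).trans ?_
      unfold Win.hw
      rw [mul_assoc]
      apply mul_le_mul_of_nonneg_left _ hC1.le
      rw [mul_comm]
      apply mul_le_mul _ _ (by positivity) hg0.le
      · apply min_le_min le_rfl
        apply Real.rpow_le_rpow_of_nonpos (by positivity) _ (by norm_num)
        exact mul_le_mul_of_nonneg_left hsQ hδ0.le
      · exact Real.rpow_le_rpow_of_nonpos hQ0 hsQ (by linarith)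
    have hbω : ∀ m : ℕ, 1 ≤ m → ‖b m‖ ≤ C1 * Win.hw ω δ (√(m:ℝ)) := by
      intro m hm
      refine (hb m hm).trans ?_
      apply mul_le_mul_of_nonneg_left _ hC1.le
      unfold Win.hw
      have hs1 : 1 ≤ √(m:ℝ) := by rw [Real.one_le_sqrt]; exact_mod_cast hm
      apply mul_le_mul_of_nonneg_right _ (by positivity)
      exact Real.rpow_le_rpow_of_exponent_le hs1 (by linarith)
    set x : ℝ := (((range N).filter (fun n => w ≤ ‖Bk b α j n‖)).card : ℝ) with hx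
    have h1 := hL j N b g w hw0 hg0.le hg1 hbB
    have h2 := hM N Z δ b j hN hNZ hZg hδZ hδ1 hbω
    set A1 : ℝ := Ca * (N * Q ^ (7 * κ) / w^6) with hA1
    set A2 : ℝ := Cb * (N * Q ^ (-(ω/2)) / w^2) with hA2
    set A3 : ℝ := Ca * (g^2 * Q ^ (1 + 2 * κ) / w^2) with hA3
    have h3 : x ≤ A1 + A3 := by rw [hA1, hA3, ← mul_add]; exact h1
    have h4 : x ≤ A2 := by
      have g1 : x * w^2 ≤ ∑ n ∈ range N, ‖Bk b α j n‖^2 := by
        calc x * w^2 = ∑ n ∈ (range N).filter (fun n => w ≤ ‖Bk b α j n‖), w^2 := by rw [sum_const, nsmul_eq_mul]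
          _ ≤ ∑ n ∈ (range N).filter (fun n => w ≤ ‖Bk b α j n‖), ‖Bk b α j n‖^2 := by
              apply sum_le_sum
              intro n hn
              rw [mem_filter] at hn
              exact pow_le_pow_left₀ hw0.le hn.2 2
          _ ≤ _ := sum_le_sum_of_subset_of_nonneg (filter_subset _ _) (fun _ _ _ => by positivity)
      rw [hA2, ← mul_div_assoc, le_div_iff₀ (by positivity)]
      linarith
    have hA10 : 0 < A1 := by positivity
    have hA20 : 0 < A2 := by positivity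
    have hA30 : 0 ≤ A3 := by positivity
    have h5 := interp hθ.le hθ1 hA10 hA20 hA30 h3 h4
    refine h5.trans ?_
    -- the exponents
    have hQr : Q ^ (-ρ) = r^j := hrj j
    have hrj0 : 0 < r^j := by positivity
    have hwr : w = v * cρ * Q ^ (-ρ) := by rw [hw, hQr]; ring
    have hCab : Ca ^ (1 - θ) * Cb ^ θ ≤ Ca + Cb := by
      have h6 := Real.geom_mean_le_arith_mean2_weighted (by linarith : 0 ≤ 1 - θ) hθ.le hCa.le hCb.le (by ring)
      nlinarith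
    have hw6 : w ^ (-6:ℝ) = (w^6)⁻¹ := by
      rw [← Real.rpow_natCast, ← Real.rpow_neg hw0.le]; norm_num
    have hw2 : w ^ (-2:ℝ) = (w^2)⁻¹ := by
      rw [← Real.rpow_natCast, ← Real.rpow_neg hw0.le]; norm_num
    have hN1 : A1 ^ (1 - θ) * A2 ^ θ ≤ C' * r^j * (N * v ^ (-(6 - 4 * θ))) := by
      have e1 : A1 = Ca * (N * (Q ^ (7 * κ) * w ^ (-6:ℝ))) := by
        rw [hA1, hw6]; ring
      have e2 : A2 = Cb * (N * (Q ^ (-(ω/2)) * w ^ (-2:ℝ))) := by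
        rw [hA2, hw2]; ring
      have e3 : A1 ^ (1 - θ) * A2 ^ θ = (Ca ^ (1 - θ) * Cb ^ θ) * (N * (Q ^ (7 * κ * (1 - θ) + -(ω/2) * θ) * w ^ (-(6 - 4 * θ)))) := by
        rw [e1, e2, alg1 hCa hCb hN0 hQ0 hw0]
        congr 4; ring
      have e4 : w ^ (-(6 - 4 * θ)) = v ^ (-(6 - 4 * θ)) * cρ ^ (-(6 - 4 * θ)) * Q ^ (ρ * (6 - 4 * θ)) := by
        rw [hwr, Real.mul_rpow (by positivity) (by positivity), Real.mul_rpow (by positivity) (by positivity),
          ← Real.rpow_mul hQ0.le]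
        congr 2; ring
      have e5 : cρ ^ (-(6 - 4 * θ)) ≤ cρ ^ (-(6:ℝ)) :=
        Real.rpow_le_rpow_of_exponent_ge hcρ0 hcρ1.le (by linarith)
      have e6 : Q ^ (7 * κ * (1 - θ) + -(ω/2) * θ) * Q ^ (ρ * (6 - 4 * θ)) ≤ r^j := by
        rw [← Real.rpow_add hQ0, ← hQr]
        apply Real.rpow_le_rpow_of_exponent_le hQ1
        rw [hκ, hρ]
        have : 0 < ω * θ := by positivity
        nlinarith [mul_pos this hθ]
      rw [e3, e4]
      calc (Ca ^ (1 - θ) * Cb ^ θ) * (N * (Q ^ (7 * κ * (1 - θ) + -(ω/2) * θ) * (v ^ (-(6 - 4 * θ)) * cρ ^ (-(6 - 4 * θ)) * Q ^ (ρ * (6 - 4 * θ)))))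
          = (Ca ^ (1 - θ) * Cb ^ θ) * cρ ^ (-(6 - 4 * θ)) * (Q ^ (7 * κ * (1 - θ) + -(ω/2) * θ) * Q ^ (ρ * (6 - 4 * θ))) * (N * v ^ (-(6 - 4 * θ))) := by ring
        _ ≤ (Ca + Cb) * cρ ^ (-(6:ℝ)) * r^j * (N * v ^ (-(6 - 4 * θ))) := by gcongr
        _ = _ := by rw [hC']
    have hN2 : A3 ≤ C' * r^j * (δ ^ (-(1 + ω)) * v ^ (-2:ℝ)) := by
      have e1 : A3 = Ca * (g^2 * Q ^ (1 + 2 * κ) * w ^ (-2:ℝ)) := by
        rw [hA3, hw2]; ring
      have e4 : w ^ (-2:ℝ) = v ^ (-2:ℝ) * cρ ^ (-2:ℝ) * Q ^ (2 * ρ) := by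
        rw [hwr, Real.mul_rpow (by positivity) (by positivity), Real.mul_rpow (by positivity) (by positivity),
          ← Real.rpow_mul hQ0.le]
        congr 2; ring
      have e5 : cρ ^ (-2:ℝ) ≤ cρ ^ (-(6:ℝ)) :=
        Real.rpow_le_rpow_of_exponent_ge hcρ0 hcρ1.le (by norm_num)
      have e6 : g^2 * (Q ^ (1 + 2 * κ) * Q ^ (2 * ρ)) ≤ r^j * δ ^ (-(1 + ω)) := by
        set τ : ℝ := 1 + 2 * κ + 3 * ρ with hτ
        have hτ1 : τ ≤ 1 + ω := by
          rw [hτ, hκ, hρ]; linarith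
        have hτ0 : 0 ≤ τ := by positivity
        have i1 : g^2 ≤ (δ * Q) ^ (-τ) := by
          rcases le_total (δ * Q) 1 with h7 | h7
          · calc g^2 ≤ 1 := pow_le_one₀ hg0.le hg1
              _ ≤ _ := Real.one_le_rpow_of_pos_of_le_one_of_nonpos (by positivity) h7 (by linarith)
          · calc g^2 ≤ ((δ * Q) ^ (-(3/2):ℝ))^2 := pow_le_pow_left₀ hg0.le (min_le_right _ _) 2
              _ = (δ * Q) ^ (-3:ℝ) := by
                  rw [← Real.rpow_natCast, ← Real.rpow_mul (by positivity)]; norm_num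
              _ ≤ _ := Real.rpow_le_rpow_of_exponent_le h7 (by linarith)
        have i2 : (δ * Q) ^ (-τ) * (Q ^ (1 + 2 * κ) * Q ^ (2 * ρ)) = δ ^ (-τ) * r^j := by
          rw [Real.mul_rpow hδ0.le hQ0.le, mul_assoc, ← Real.rpow_add hQ0, ← Real.rpow_add hQ0, ← hQr]
          congr 2; rw [hτ]; ring
        have i3 : δ ^ (-τ) ≤ δ ^ (-(1 + ω)) := Real.rpow_le_rpow_of_exponent_ge hδ0 hδ1 (by linarith)
        calc g^2 * (Q ^ (1 + 2 * κ) * Q ^ (2 * ρ)) ≤ (δ * Q) ^ (-τ) * (Q ^ (1 + 2 * κ) * Q ^ (2 * ρ)) :=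
              mul_le_mul_of_nonneg_right i1 (by positivity)
          _ = δ ^ (-τ) * r^j := i2
          _ ≤ δ ^ (-(1 + ω)) * r^j := mul_le_mul_of_nonneg_right i3 hrj0.le
          _ = _ := by ring
      rw [e1, e4]
      calc Ca * (g^2 * Q ^ (1 + 2 * κ) * (v ^ (-2:ℝ) * cρ ^ (-2:ℝ) * Q ^ (2 * ρ)))
          = Ca * cρ ^ (-2:ℝ) * (g^2 * (Q ^ (1 + 2 * κ) * Q ^ (2 * ρ))) * v ^ (-2:ℝ) := by ring
        _ ≤ (Ca + Cb) * cρ ^ (-(6:ℝ)) * (r^j * δ ^ (-(1 + ω))) * v ^ (-2:ℝ) := by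
            gcongr
            linarith
        _ = _ := by rw [hC']; ring
    rw [mul_add]
    exact add_le_add hN1 hN2
  -- union over the blocks
  have hsub : (range N).filter (fun n => v ≤ ∑ j ∈ range J, ‖Bk b α j n‖) ⊆
      (range J).biUnion (fun j => (range N).filter (fun n => v * (cρ * r^j) ≤ ‖Bk b α j n‖)) := by
    intro n hn
    rw [mem_filter] at hn
    rw [mem_biUnion]
    by_contra hcon
    push Not at hcon
    have h1 : ∀ j ∈ range J, ‖Bk b α j n‖ ≤ v * (cρ * r^j) := by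
      intro j hj
      have := hcon j hj
      rw [mem_filter] at this
      by_contra h2
      push Not at h2
      exact this ⟨hn.1, h2.le⟩
    have h2 : ∑ j ∈ range J, ‖Bk b α j n‖ ≤ v * (cρ * ∑ j ∈ range J, r^j) := by
      rw [mul_sum, mul_sum]
      exact sum_le_sum h1
    have h3 : v * (cρ * ∑ j ∈ range J, r^j) < v * 1 := mul_lt_mul_of_pos_left (hgeo J) hv
    linarith [hn.2]
  have hcard := (card_le_card hsub).trans card_biUnion_le
  have hcard' : (((range N).filter (fun n => v ≤ ∑ j ∈ range J, ‖Bk b α j n‖)).card : ℝ) ≤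
      ∑ j ∈ range J, (((range N).filter (fun n => v * (cρ * r^j) ≤ ‖Bk b α j n‖)).card : ℝ) := by exact_mod_cast hcard
  refine hcard'.trans ((sum_le_sum (fun j _ => hblk j)).trans ?_)
  set W := N * v ^ (-(6 - 4 * θ)) + δ ^ (-(1 + ω)) * v ^ (-2:ℝ) with hW
  have hW0 : 0 ≤ W := by positivity
  calc ∑ j ∈ range J, C' * r^j * W = C' * W * ∑ j ∈ range J, r^j := by
        rw [mul_sum]; apply sum_congr rfl; intro j _; ring
    _ ≤ C' * W * (1 / cρ) := by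
        apply mul_le_mul_of_nonneg_left _ (by positivity)
        rw [le_div_iff₀ hcρ0]
        have := hgeo J
        linarith
    _ = _ := by ring

end Pool.Agent.H425R3.MM
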