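import Mathlib
import Pool.Agent.H425R3.MM.K5
import Pool.Agent.H452R2.Win.V5

open Finset Filter Topology
open Pool.Agent.H469R2.NK
open Pool.Agent.H452R2
open Pool.Agent.H383
open Pool.Agent.H383.Gauss Pool.Agent.H383.AP

namespace Pool.Agent.H425R3.MM

lemma ev_small (c : ℝ) {y η : ℝ} (hy : 0 < y) (hη : 0 < η) : ∃ Z0 : ℕ, ∀ Z : ℝ, (Z0:ℝ) ≤ Z → c * Z ^ (-y) ≤ η := by
  have h1 : Tendsto (fun Z : ℝ => c * Z ^ (-y)) atTop (𝓝 (c * 0)) := (tendsto_rpow_neg_atTop hy).const_mul c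
  rw [mul_zero] at h1
  have h2 := h1.eventually (gt_mem_nhds hη)
  rw [eventually_atTop] at h2
  obtain ⟨Z1, hZ1⟩ := h2
  obtain ⟨Z0, hZ0⟩ := exists_nat_ge Z1
  exact ⟨Z0, fun Z hZ => (hZ1 Z (hZ0.trans hZ)).le⟩

variable {E : ℝ → ℝ} {a : ℕ → ℝ} {φ : ℝ} {w : ℝ → ℂ}

/-- trivial bound for the smoothed series -/
lemma WS_sup (ha : Win.Bdw a) (ha0 : a 0 = 0) (hw : GW.Wt w) {η : ℝ} (hη : 0 < η) (hη1 : η ≤ 1/4) :
    ∃ C : ℝ, 0 < C ∧ ∀ R δ : ℝ, 0 < δ → |GW.WS a φ w R δ| ≤ C * δ ^ (-(1/2 + 4 * η)) := by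
  obtain ⟨Ca, hCa, haC⟩ := ha η hη
  obtain ⟨Cw, hCw, hwd⟩ := hw.dec
  have hs : Summable (fun m : ℕ => (m:ℝ) ^ (-(1 + η))) := Real.summable_nat_rpow.mpr (by linarith)
  set T : ℝ := ∑' m : ℕ, (m:ℝ) ^ (-(1 + η)) with hT
  have hT0 : 0 ≤ T := tsum_nonneg (fun m => by positivity)
  refine ⟨Ca * (Cw + 1) * (T + 1), by positivity, ?_⟩
  intro R δ hδ
  have hbd : ∀ m : ℕ, ‖GW.wt a φ w R δ m‖ ≤ Ca * (Cw + 1) * δ ^ (-(1/2 + 4 * η)) * (m:ℝ) ^ (-(1 + η)) := by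
    intro m
    rcases Nat.eq_zero_or_pos m with rfl | hm
    · unfold GW.wt
      rw [ha0, zero_mul, norm_zero]; positivity
    have hm0 : (0:ℝ) < m := by exact_mod_cast hm
    have hs0 : 0 < √(m:ℝ) := Real.sqrt_pos.mpr hm0
    refine (GW.abs_wt_le R δ m).trans ?_
    have h2 := haC m hm
    set y := √(m:ℝ) * δ with hy
    have hy0 : 0 < y := by positivity
    have h5 : ‖w y‖ ≤ (Cw + 1) * y ^ (-(1/2 + 4 * η)) := by
      have h3 := hw.one y hy0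
      have h4 := hwd y hy0
      rcases le_total y 1 with h7 | h7
      · have h8 : 1 ≤ y ^ (-(1/2 + 4 * η)) := Real.one_le_rpow_of_pos_of_le_one_of_nonpos hy0 h7 (by linarith)
        nlinarith
      · have h8 : y ^ (-(3/2):ℝ) ≤ y ^ (-(1/2 + 4 * η)) := Real.rpow_le_rpow_of_exponent_le h7 (by linarith)
        have h9 : 0 < y ^ (-(1/2 + 4 * η)) := by positivity
        nlinarith
    have h6 : y ^ (-(1/2 + 4 * η)) = (m:ℝ) ^ (-(1/4) - 2 * η) * δ ^ (-(1/2 + 4 * η)) := by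
      rw [hy, Real.mul_rpow hs0.le hδ.le, Real.sqrt_eq_rpow, ← Real.rpow_mul hm0.le]
      congr 2; ring
    have h7 : (m:ℝ) ^ (-(3/4) + η) * (m:ℝ) ^ (-(1/4) - 2 * η) = (m:ℝ) ^ (-(1 + η)) := by
      rw [← Real.rpow_add hm0]; congr 1; ring
    calc |a m| * ‖w y‖ ≤ (Ca * (m:ℝ) ^ (-(3/4) + η)) * ((Cw + 1) * ((m:ℝ) ^ (-(1/4) - 2 * η) * δ ^ (-(1/2 + 4 * η)))) := by
          rw [← h6]
          exact mul_le_mul h2 h5 (norm_nonneg _) (by positivity)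
      _ = Ca * (Cw + 1) * δ ^ (-(1/2 + 4 * η)) * ((m:ℝ) ^ (-(3/4) + η) * (m:ℝ) ^ (-(1/4) - 2 * η)) := by ring
      _ = _ := by rw [h7]
  have hsum := (hs.hasSum).mul_left (Ca * (Cw + 1) * δ ^ (-(1/2 + 4 * η)))
  have h1 := tsum_of_norm_bounded hsum hbd
  unfold GW.WS
  rw [← Real.norm_eq_abs]
  refine h1.trans ?_
  rw [← hT]
  have h3 : 0 ≤ δ ^ (-(1/2 + 4 * η)) := by positivity
  calc Ca * (Cw + 1) * δ ^ (-(1/2 + 4 * η)) * T ≤ Ca * (Cw + 1) * δ ^ (-(1/2 + 4 * η)) * (T + 1) := by gcongr; linarith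
    _ = _ := by ring

/-- the classical pointwise bound -/
lemma supE (ha : Win.Bdw a) (ha0 : a 0 = 0) (hw : GW.Wt w) {κ₁ κ₂ : ℝ} (hS : Win.SandW E a φ w κ₁ κ₂)
    {η : ℝ} (hη : 0 < η) (hη1 : η ≤ 1/8) : ∃ C : ℝ, 0 < C ∧ ∀ R R' : ℝ, 4 ≤ R → |R' - R| ≤ R ^ (-(1/3):ℝ) / 2 →
      |E R'| ≤ C * R ^ (1/6 + η) := by
  obtain ⟨Cs, hCs, hsup⟩ := WS_sup (φ := φ) ha ha0 hw (η := 3/4 * η) (by positivity) (by linarith)
  obtain ⟨C0, hC0, hS⟩ := hS η hη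
  refine ⟨2 * Cs + 4 * C0, by positivity, ?_⟩
  intro R R' hR hR'
  have hR0 : 0 < R := by linarith
  have hR1 : 1 ≤ R := by linarith
  set δ : ℝ := R ^ (-(1/3):ℝ) / 2 with hδ
  have hδ0 : 0 < δ := by positivity
  have hδ2 : δ ≤ 1/2 := by
    have : R ^ (-(1/3):ℝ) ≤ 1 := Real.rpow_le_one_of_one_le_of_nonpos hR1 (by norm_num)
    rw [hδ]; linarith
  obtain ⟨h1, h2⟩ := hS R R' δ hR hδ0 hδ2 hR'
  have g1 := abs_le.mp (hsup (R + κ₁ * δ) δ hδ0)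
  have g2 := abs_le.mp (hsup (R + κ₂ * δ) δ hδ0)
  have hP : 1 ≤ R ^ (1/6 + η) := Real.one_le_rpow hR1 (by positivity)
  have e1 : δ ^ (-(1/2 + 4 * (3/4 * η))) ≤ 2 * R ^ (1/6 + η) := by
    rw [hδ, Real.div_rpow (by positivity) (by norm_num), ← Real.rpow_mul hR0.le, div_eq_mul_inv, ← Real.rpow_neg (by norm_num : (0:ℝ) ≤ 2)]
    rw [mul_comm]
    apply mul_le_mul _ _ (by positivity) (by norm_num)
    · calc (2:ℝ) ^ (-(-(1/2 + 4 * (3/4 * η)))) ≤ 2 ^ (1:ℝ) := Real.rpow_le_rpow_of_exponent_le (by norm_num) (by linarith)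
        _ = 2 := Real.rpow_one 2
        _ ≤ 2 := le_rfl
    · apply le_of_eq; congr 1; ring
  have e2 : Win.erw η R δ ≤ 4 * R ^ (1/6 + η) := by
    unfold Win.erw
    have i1 : δ * R ^ (1/2 + η) ≤ R ^ (1/6 + η) := by
      calc δ * R ^ (1/2 + η) ≤ R ^ (-(1/3):ℝ) * R ^ (1/2 + η) := by
            apply mul_le_mul_of_nonneg_right _ (by positivity)
            rw [hδ]; have : 0 < R ^ (-(1/3):ℝ) := by positivity
            linarith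
        _ = _ := by rw [← Real.rpow_add hR0]; congr 1; ring
    have i2 : R ^ (-(12/25):ℝ) * δ ^ (-(13/25):ℝ) ≤ 2 := by
      have j1 : δ ^ (-(13/25):ℝ) ≤ 2 * R ^ (13/75:ℝ) := by
        rw [hδ, Real.div_rpow (by positivity) (by norm_num), ← Real.rpow_mul hR0.le, div_eq_mul_inv, ← Real.rpow_neg (by norm_num : (0:ℝ) ≤ 2)]
        rw [mul_comm]
        apply mul_le_mul _ _ (by positivity) (by norm_num)
        · calc (2:ℝ) ^ (-(-(13/25)):ℝ) ≤ 2 ^ (1:ℝ) := Real.rpow_le_rpow_of_exponent_le (by norm_num) (by norm_num)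
            _ = 2 := Real.rpow_one 2
        · apply le_of_eq; congr 1; norm_num
      calc R ^ (-(12/25):ℝ) * δ ^ (-(13/25):ℝ) ≤ R ^ (-(12/25):ℝ) * (2 * R ^ (13/75:ℝ)) := by gcongr
        _ = 2 * (R ^ (-(12/25):ℝ) * R ^ (13/75:ℝ)) := by ring
        _ = 2 * R ^ (-(12/25) + 13/75:ℝ) := by rw [← Real.rpow_add hR0]
        _ ≤ 2 * 1 := by
            apply mul_le_mul_of_nonneg_left _ (by norm_num)
            exact Real.rpow_le_one_of_one_le_of_nonpos hR1 (by norm_num)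
        _ = 2 := by norm_num
    have i3 : δ ^ (2/5:ℝ) ≤ 1 := Real.rpow_le_one hδ0.le (by linarith) (by norm_num)
    linarith
  have e3 : Cs * δ ^ (-(1/2 + 4 * (3/4 * η))) ≤ 2 * Cs * R ^ (1/6 + η) := by
    calc _ ≤ Cs * (2 * R ^ (1/6 + η)) := by gcongr
      _ = _ := by ring
  have e4 : C0 * Win.erw η R δ ≤ 4 * C0 * R ^ (1/6 + η) := by
    calc _ ≤ C0 * (4 * R ^ (1/6 + η)) := by gcongr
      _ = _ := by ring
  rw [abs_le]
  constructor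
  · linarith
  · linarith

lemma sum_blocks (f : ℕ → ℝ) (J : ℕ) : ∑ m ∈ Icc 1 (4^J), f m = f 1 + ∑ j ∈ range J, ∑ m ∈ blk j, f m := by
  induction J with
  | zero => simp
  | succ J ih =>
    rw [sum_range_succ, ← add_assoc, ← ih]
    have e1 : Icc 1 (4^(J+1)) = Ioc 0 (4^(J+1)) := by ext m; simp only [mem_Icc, mem_Ioc]; omega
    have e2 : Icc 1 (4^J) = Ioc 0 (4^J) := by ext m; simp only [mem_Icc, mem_Ioc]; omega
    rw [e1, e2]
    unfold blk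
    rw [sum_Ioc_consecutive _ (Nat.zero_le _) (Nat.pow_le_pow_right (by norm_num) (by omega))]

end Pool.Agent.H425R3.MM
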