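import Mathlib
import Pool.Agent.H425R3.MM.K6

open Finset Filter Topology
open Pool.Agent.H469R2.NK
open Pool.Agent.H452R2
open Pool.Agent.H383
open Pool.Agent.H383.Gauss Pool.Agent.H383.AP

namespace Pool.Agent.H425R3.MM

variable {E : ℝ → ℝ} {a : ℕ → ℝ} {φ : ℝ} {w : ℝ → ℂ}

/-- the coefficients of the smoothed series along a progression -/
noncomputable def cb (a : ℕ → ℝ) (φ : ℝ) (w : ℝ → ℂ) (X' δ : ℝ) (m : ℕ) : ℂ := Gen.ac a φ X' m * w (√(m:ℝ) * δ)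

lemma wt_cb (X' α δ : ℝ) (m n : ℕ) : GW.wt a φ w (X' + n * α) δ m = (cb a φ w X' δ m * e (n * (α * √(m:ℝ)))).re := by
  unfold GW.wt cb e
  rw [← Complex.re_ofReal_mul]
  congr 1
  have h3 := Gen.ac_shift a φ X' α m n
  unfold chr at h3
  have h4 : Gen.ac a φ X' m * w (√(m:ℝ) * δ) * Complex.exp (((2 * Real.pi * (n * (α * √(m:ℝ))) : ℝ) : ℂ) * Complex.I) =
      Gen.ac a φ (X' + n * α) m * w (√(m:ℝ) * δ) := by rw [h3]; ring
  rw [h4]
  unfold Gen.ac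
  ring

lemma blk_wt_le (X' α δ : ℝ) (j n : ℕ) : |∑ m ∈ blk j, GW.wt a φ w (X' + n * α) δ m| ≤ ‖Bk (cb a φ w X' δ) α j n‖ := by
  have h2 : ∑ m ∈ blk j, GW.wt a φ w (X' + n * α) δ m = (Bk (cb a φ w X' δ) α j n).re := by
    unfold Bk
    rw [Complex.re_sum]
    exact sum_congr rfl (fun m _ => wt_cb X' α δ m n)
  rw [h2]
  exact Complex.abs_re_le_norm _

/-- large values in dyadic windows -/
theorem lv_dyadic (ha : Win.Bdw a) (ha0 : a 0 = 0) (hw : GW.Wt w) {κ₁ κ₂ : ℝ} (hS : Win.SandW E a φ w κ₁ κ₂)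
    {α : ℝ} (hα : 0 < α) {ε : ℝ} (hε : 0 < ε) {p : ℝ} (hp2 : 2 ≤ p) (hp : p < 6) {Dc : ℝ} (hDc : 1 ≤ Dc) :
    ∃ C : ℝ, 0 < C ∧ ∃ N0 : ℕ, ∀ N : ℕ, N0 ≤ N → ∀ X : ℝ, 4 ≤ X → X ^ (1/2 + ε) ≤ N → (N:ℝ) ≤ Dc * X →
    ∀ Rn : ℕ → ℝ, (∀ n : ℕ, n < N → |Rn n - (X + n * α)| ≤ (X + N) ^ (-(51/100):ℝ)) →
    ∀ v : ℝ, 1 ≤ v →
    (((range N).filter (fun n => v ≤ |E (Rn n)|)).card : ℝ) ≤ C * (N * v ^ (-p) + (X + N) ^ (1/2 + ε) * v ^ (-3:ℝ)) := by
  have hE0 := supE ha ha0 hw hS (η := 1/100) (by norm_num) (by norm_num)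
  obtain ⟨Cs, hCs, hsup⟩ := hE0
  set ε1 := min ε (1/2) with hε1
  have hε10 : 0 < ε1 := by positivity
  set ω := ε1 / 100 with hωd
  have hω : 0 < ω := by positivity
  have hε12 : ε1 ≤ 1/2 := min_le_right _ _
  have hε1ε : ε1 ≤ ε := min_le_left _ _
  have hω200 : ω ≤ 1/200 := by rw [hωd]; linarith
  have hωε : 2 * ω ≤ ε := by rw [hωd]; linarith
  have hε1ω : ε1 = 100 * ω := by rw [hωd]; ring
  set θ : ℝ := (6 - p) / 4 with hθd
  have hθ : 0 < θ := by rw [hθd]; linarith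
  have hθ1 : θ ≤ 1 := by rw [hθd]; linarith
  have hpθ : 6 - 4 * θ = p := by rw [hθd]; ring
  obtain ⟨Ca, hCa, haC⟩ := ha (ω * θ / 112) (by positivity)
  obtain ⟨Cw, hCw, hwd⟩ := hw.dec
  obtain ⟨Cb, hCb, N1, hTB⟩ := tb (α := α) (ω := ω) (C1 := Ca * (Cw + 1)) (θ := θ) hα hω hω200 (by positivity) hθ hθ1
  obtain ⟨Ct, hCt, htail⟩ := GW.WS_tail (a := a) (φ := φ) ha.Bd ha0 hw
  obtain ⟨C0, hC0, hS⟩ := hS (ω/2) (by positivity)
  set av : ℝ := 1 + α with hav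
  have hav1 : 1 ≤ av := by linarith
  set V0 : ℝ := 8 * |a 1| + 1 with hV0
  have hV01 : 1 ≤ V0 := by have := abs_nonneg (a 1); rw [hV0]; linarith
  obtain ⟨Z1, hZ1⟩ := ev_small (C0 * av) (y := ω/2) (η := 1/24) (by positivity) (by norm_num)
  obtain ⟨Z2, hZ2⟩ := ev_small (2 * Dc * C0) (y := 1/5) (η := 1/24) (by norm_num) (by norm_num)
  obtain ⟨Z3, hZ3⟩ := ev_small C0 (y := 3/25) (η := 1/24) (by norm_num) (by norm_num)
  obtain ⟨Z4, hZ4⟩ := ev_small Ct (y := 1/5) (η := 1/8) (by norm_num) (by norm_num)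
  obtain ⟨Z5, hZ5⟩ := ev_small (Cs * av) (y := 7/300) (η := 1/2) (by norm_num) (by norm_num)
  obtain ⟨Z6, hZ6⟩ := ev_small 1 (y := 3/10) (η := 1/2) (by norm_num) (by norm_num)
  obtain ⟨Z7, hZ7⟩ := ev_small (2 * av) (y := 53/300) (η := 1) (by norm_num) (by norm_num)
  refine ⟨V0 ^ p + 128 * Cb, by positivity, N1 + Z1 + Z2 + Z3 + Z4 + Z5 + Z6 + Z7 + 1, ?_⟩
  intro N hN X hX hXN hNX Rn hRn v hv
  have hN1n : 1 ≤ N := by omega
  have hN1' : (1:ℝ) ≤ N := by exact_mod_cast hN1n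
  have hN0 : (0:ℝ) < N := by linarith
  have hX0 : 0 < X := by linarith
  have hX1 : 1 ≤ X := by linarith
  set Z : ℝ := X + N with hZ
  have hNZ : (N:ℝ) ≤ Z := by linarith
  have hZ0 : 0 < Z := by linarith
  have hZ1' : 1 ≤ Z := by linarith
  have hZX : Z ≤ 2 * Dc * X := by nlinarith
  have hge : ∀ k : ℕ, k ≤ N → (k:ℝ) ≤ Z := fun k hk => le_trans (by exact_mod_cast hk) hNZ
  have z1 := hZ1 Z (hge Z1 (by omega))
  have z2 := hZ2 Z (hge Z2 (by omega))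
  have z3 := hZ3 Z (hge Z3 (by omega))
  have z4 := hZ4 Z (hge Z4 (by omega))
  have z5 := hZ5 Z (hge Z5 (by omega))
  have z6 := hZ6 Z (hge Z6 (by omega))
  have z7 := hZ7 Z (hge Z7 (by omega))
  have hv0 : 0 < v := by linarith
  have hcardN : (((range N).filter (fun n => v ≤ |E (Rn n)|)).card : ℝ) ≤ N := by
    have : ((range N).filter (fun n => v ≤ |E (Rn n)|)).card ≤ (range N).card := card_filter_le _ _
    rw [card_range] at this
    exact_mod_cast this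
  have hT1 : 0 ≤ N * v ^ (-p) := by positivity
  have hT2 : 0 ≤ Z ^ (1/2 + ε) * v ^ (-3:ℝ) := by positivity
  have hVp : 0 < V0 ^ p := by positivity
  -- small v
  rcases lt_or_ge v V0 with hvV | hvV
  · have h1 : 1 ≤ V0 ^ p * v ^ (-p) := by
      rw [Real.rpow_neg hv0.le, ← div_eq_mul_inv, le_div_iff₀ (by positivity), one_mul]
      exact Real.rpow_le_rpow hv0.le hvV.le (by linarith)
    have h2 : (N:ℝ) * 1 ≤ N * (V0 ^ p * v ^ (-p)) := mul_le_mul_of_nonneg_left h1 hN0.le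
    nlinarith
  -- upper bound for R
  have hRZ : ∀ n : ℕ, n < N → X + n * α ≤ av * Z := by
    intro n hn
    have hn' : (n:ℝ) ≤ N := by exact_mod_cast hn.le
    have : (n:ℝ) * α ≤ N * α := mul_le_mul_of_nonneg_right hn' hα.le
    rw [hav, hZ]; nlinarith
  -- large v
  rcases lt_or_ge (Z ^ (1/5:ℝ)) v with hvZ | hvZ
  · have hzero : (range N).filter (fun n => v ≤ |E (Rn n)|) = ∅ := by
      rw [filter_eq_empty_iff]
      intro n hn
      rw [mem_range] at hn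
      push Not
      have hn0 : (0:ℝ) ≤ n := Nat.cast_nonneg n
      set R : ℝ := X + n * α with hR
      have hR4 : 4 ≤ R := by rw [hR]; nlinarith
      have hR0 : 0 < R := by linarith
      have hRle := hRZ n hn
      rw [← hR] at hRle
      have h1 : |Rn n - R| ≤ R ^ (-(1/3):ℝ) / 2 := by
        refine (hRn n hn).trans ?_
        have g1 : (av * Z) ^ (-(1/3):ℝ) ≤ R ^ (-(1/3):ℝ) := Real.rpow_le_rpow_of_nonpos hR0 hRle (by norm_num)
        have g2 : (av * Z) ^ (-(1/3):ℝ) = av ^ (-(1/3):ℝ) * Z ^ (-(1/3):ℝ) := Real.mul_rpow (by linarith) hZ0.le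
        have g3 : av ^ (-1:ℝ) ≤ av ^ (-(1/3):ℝ) := Real.rpow_le_rpow_of_exponent_le hav1 (by norm_num)
        have g4 : Z ^ (-(51/100):ℝ) = Z ^ (-(53/300):ℝ) * Z ^ (-(1/3):ℝ) := by
          rw [← Real.rpow_add hZ0]; norm_num
        have g5 : 2 * Z ^ (-(53/300):ℝ) ≤ av ^ (-1:ℝ) := by
          rw [Real.rpow_neg_one, ← one_div, le_div_iff₀ (by linarith)]
          linarith
        have g6 : 0 < Z ^ (-(1/3):ℝ) := by positivity
        rw [hZ] at g4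
        calc (X + N) ^ (-(51/100):ℝ) = Z ^ (-(53/300):ℝ) * Z ^ (-(1/3):ℝ) := g4
          _ ≤ (av ^ (-1:ℝ) / 2) * Z ^ (-(1/3):ℝ) := by
              apply mul_le_mul_of_nonneg_right _ g6.le
              linarith
          _ ≤ (av ^ (-(1/3):ℝ) / 2) * Z ^ (-(1/3):ℝ) := by
              apply mul_le_mul_of_nonneg_right _ g6.le
              linarith
          _ = (av * Z) ^ (-(1/3):ℝ) / 2 := by rw [g2]; ring
          _ ≤ _ := by linarith
      have h2 := hsup R (Rn n) hR4 h1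
      refine lt_of_le_of_lt (h2.trans ?_) hvZ
      calc Cs * R ^ (1/6 + 1/100:ℝ) ≤ Cs * (av * Z) ^ (1/6 + 1/100:ℝ) := by gcongr
        _ = Cs * (av ^ (1/6 + 1/100:ℝ) * Z ^ (1/6 + 1/100:ℝ)) := by rw [Real.mul_rpow (by linarith) hZ0.le]
        _ ≤ Cs * (av * Z ^ (1/6 + 1/100:ℝ)) := by
            gcongr
            calc av ^ (1/6 + 1/100:ℝ) ≤ av ^ (1:ℝ) := Real.rpow_le_rpow_of_exponent_le hav1 (by norm_num)
              _ = av := Real.rpow_one _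
        _ = (Cs * av * Z ^ (-(7/300):ℝ)) * Z ^ (1/5:ℝ) := by
            rw [mul_assoc (Cs * av), ← Real.rpow_add hZ0, mul_assoc]
            norm_num
        _ ≤ (1/2) * Z ^ (1/5:ℝ) := mul_le_mul_of_nonneg_right z5 (by positivity)
        _ ≤ Z ^ (1/5:ℝ) := by have : 0 < Z ^ (1/5:ℝ) := by positivity
                              linarith
    rw [hzero, card_empty, Nat.cast_zero]
    positivity
  -- the main range
  set δ : ℝ := v * Z ^ (-(1/2 + ω)) with hδ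
  have hδ0 : 0 < δ := by positivity
  have hZω : 0 < Z ^ (-(1/2 + ω)) := by positivity
  have hδZ : Z ^ (-(1/2 + ω)) ≤ δ := by rw [hδ]; nlinarith
  have hδ310 : δ ≤ Z ^ (-(3/10):ℝ) := by
    calc δ ≤ Z ^ (1/5:ℝ) * Z ^ (-(1/2 + ω)) := by rw [hδ]; exact mul_le_mul_of_nonneg_right hvZ hZω.le
      _ = Z ^ (1/5 + -(1/2 + ω)) := by rw [← Real.rpow_add hZ0]
      _ ≤ _ := Real.rpow_le_rpow_of_exponent_le hZ1' (by linarith)
  have hδ12 : δ ≤ 1/2 := by linarith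
  have hδ1 : δ ≤ 1 := by linarith
  have hZg : Z ≤ 2 * (N:ℝ) ^ (2 / (1 + 200 * ω)) := by
    have h1 : X ≤ (N:ℝ) ^ (2 / (1 + 200 * ω)) := by
      have h2 : X ^ (1/2 + ε1) ≤ N := by
        refine le_trans ?_ hXN
        apply Real.rpow_le_rpow_of_exponent_le hX1
        linarith
      have h3 : (X ^ (1/2 + ε1)) ^ (2 / (1 + 200 * ω)) ≤ (N:ℝ) ^ (2 / (1 + 200 * ω)) :=
        Real.rpow_le_rpow (by positivity) h2 (by positivity)
      rw [← Real.rpow_mul hX0.le] at h3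
      have h4 : (1/2 + ε1) * (2 / (1 + 200 * ω)) = 1 := by
        rw [hε1ω]; field_simp; ring
      rw [h4, Real.rpow_one] at h3
      exact h3
    have h5 : (N:ℝ) ≤ (N:ℝ) ^ (2 / (1 + 200 * ω)) := by
      calc (N:ℝ) = (N:ℝ) ^ (1:ℝ) := (Real.rpow_one _).symm
        _ ≤ _ := by
            apply Real.rpow_le_rpow_of_exponent_le hN1'
            rw [le_div_iff₀ (by positivity)]; linarith
    linarith
  set J : ℕ := ⌈Z⌉₊ with hJ
  have hJZ : Z ≤ (2:ℝ)^J := by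
    have h1 : Z ≤ J := Nat.le_ceil Z
    have h2 : (J:ℝ) ≤ (2:ℝ)^J := by exact_mod_cast (Nat.lt_two_pow_self (n := J)).le
    linarith
  -- coefficients
  have hbb : ∀ X' : ℝ, ∀ m : ℕ, 1 ≤ m → ‖cb a φ w X' δ m‖ ≤ Ca * (Cw + 1) * Win.hw (ω * θ / 56) δ (√(m:ℝ)) := by
    intro X' m hm
    have hm0 : (0:ℝ) < m := by exact_mod_cast hm
    have hs : 0 < √(m:ℝ) := Real.sqrt_pos.mpr hm0
    unfold cb
    rw [norm_mul, Gen.norm_ac]
    unfold Win.hw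
    have h2 := haC m hm
    have h5 : ‖w (√(m:ℝ) * δ)‖ ≤ (Cw + 1) * min 1 ((δ * √(m:ℝ)) ^ (-(3/2):ℝ)) := by
      have h3 := hw.one (√(m:ℝ) * δ) (by positivity)
      have h4 := hwd (√(m:ℝ) * δ) (by positivity)
      set y := √(m:ℝ) * δ with hy
      have hy0 : 0 < y := by positivity
      rw [show δ * √(m:ℝ) = y by rw [hy]; ring]
      rcases min_choice (1:ℝ) (y ^ (-(3/2):ℝ)) with hc | hc
      · rw [hc]; linarith
      · rw [hc]
        have : 0 ≤ y ^ (-(3/2):ℝ) := by positivity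
        linarith
    have h6 : (m:ℝ) ^ (-(3/4) + ω * θ / 112) = (√(m:ℝ)) ^ (-(3/2) + ω * θ / 56) := by
      rw [Real.sqrt_eq_rpow, ← Real.rpow_mul hm0.le]; congr 1; ring
    rw [h6] at h2
    calc |a m| * ‖w (√(m:ℝ) * δ)‖ ≤ (Ca * (√(m:ℝ)) ^ (-(3/2) + ω * θ / 56)) * ((Cw + 1) * min 1 ((δ * √(m:ℝ)) ^ (-(3/2):ℝ))) :=
          mul_le_mul h2 h5 (norm_nonneg _) (by positivity)
      _ = _ := by ring
  -- the smoothed series
  have hWS : ∀ (κ : ℝ) (n : ℕ), |GW.WS a φ w (X + n * α + κ * δ) δ| ≤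
      |a 1| + ∑ j ∈ range J, ‖Bk (cb a φ w (X + κ * δ) δ) α j n‖ + 1/8 := by
    intro κ n
    have e3 : X + n * α + κ * δ = (X + κ * δ) + n * α := by ring
    rw [e3]
    have t1 := htail δ hδ0 ((X + κ * δ) + n * α) (2^J) Nat.one_le_two_pow
    have e4 : ((2^J)^2 : ℕ) = 4^J := by rw [← pow_mul, mul_comm, pow_mul]; norm_num
    rw [e4, sum_blocks] at t1
    have t2 : Ct * δ ^ (-(3/2):ℝ) * ((2^J : ℕ):ℝ) ^ (-(24/25):ℝ) ≤ 1/8 := by
      have i1 : δ ^ (-(3/2):ℝ) ≤ Z ^ (3/4 + 3/2 * ω) := by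
        calc δ ^ (-(3/2):ℝ) ≤ (Z ^ (-(1/2 + ω))) ^ (-(3/2):ℝ) := Real.rpow_le_rpow_of_nonpos hZω hδZ (by norm_num)
          _ = _ := by rw [← Real.rpow_mul hZ0.le]; congr 1; ring
      have i2 : ((2^J : ℕ):ℝ) ^ (-(24/25):ℝ) ≤ Z ^ (-(24/25):ℝ) := by
        apply Real.rpow_le_rpow_of_nonpos hZ0 _ (by norm_num)
        push_cast; exact hJZ
      calc Ct * δ ^ (-(3/2):ℝ) * ((2^J : ℕ):ℝ) ^ (-(24/25):ℝ) ≤ Ct * Z ^ (3/4 + 3/2 * ω) * Z ^ (-(24/25):ℝ) := by gcongr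
        _ = Ct * Z ^ (3/4 + 3/2 * ω + -(24/25)) := by rw [mul_assoc, ← Real.rpow_add hZ0]
        _ ≤ Ct * Z ^ (-(1/5):ℝ) := by
            apply mul_le_mul_of_nonneg_left _ hCt.le
            exact Real.rpow_le_rpow_of_exponent_le hZ1' (by linarith)
        _ ≤ _ := z4
    have t3 : |GW.wt a φ w ((X + κ * δ) + n * α) δ 1| ≤ |a 1| := by
      refine (GW.abs_wt_le _ _ _).trans ?_
      have := hw.one (√((1:ℕ):ℝ) * δ) (by rw [Nat.cast_one, Real.sqrt_one, one_mul]; exact hδ0)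
      calc |a 1| * ‖w (√((1:ℕ):ℝ) * δ)‖ ≤ |a 1| * 1 := mul_le_mul_of_nonneg_left this (abs_nonneg _)
        _ = _ := mul_one _
    have t4 : |∑ j ∈ range J, ∑ m ∈ blk j, GW.wt a φ w ((X + κ * δ) + n * α) δ m| ≤
        ∑ j ∈ range J, ‖Bk (cb a φ w (X + κ * δ) δ) α j n‖ :=
      (abs_sum_le_sum_abs _ _).trans (sum_le_sum (fun j _ => blk_wt_le _ _ _ _ _))
    set A := GW.WS a φ w ((X + κ * δ) + n * α) δ
    set B := GW.wt a φ w ((X + κ * δ) + n * α) δ 1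
    set D := ∑ j ∈ range J, ∑ m ∈ blk j, GW.wt a φ w ((X + κ * δ) + n * α) δ m
    have t5 : |A| ≤ |A - (B + D)| + |B| + |D| := by
      calc |A| = |(A - (B + D)) + B + D| := by congr 1; ring
        _ ≤ |(A - (B + D)) + B| + |D| := abs_add_le _ _
        _ ≤ _ := by gcongr; exact abs_add_le _ _
    linarith
  -- the error term
  have herr : ∀ n : ℕ, n < N → C0 * Win.erw (ω/2) (X + n * α) δ ≤ v / 8 := by
    intro n hn
    have hn0 : (0:ℝ) ≤ n := Nat.cast_nonneg n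
    set R : ℝ := X + n * α with hR
    have hRX : X ≤ R := by rw [hR]; nlinarith
    have hR0 : 0 < R := by linarith
    have hRle := hRZ n hn
    rw [← hR] at hRle
    have i1 : C0 * (δ * R ^ (1/2 + ω/2)) ≤ v / 24 := by
      have g2 : R ^ (1/2 + ω/2) ≤ av * Z ^ (1/2 + ω/2) := by
        calc R ^ (1/2 + ω/2) ≤ (av * Z) ^ (1/2 + ω/2) := Real.rpow_le_rpow hR0.le hRle (by positivity)
          _ = av ^ (1/2 + ω/2) * Z ^ (1/2 + ω/2) := Real.mul_rpow (by linarith) hZ0.le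
          _ ≤ av * Z ^ (1/2 + ω/2) := by
              apply mul_le_mul_of_nonneg_right _ (by positivity)
              calc av ^ (1/2 + ω/2) ≤ av ^ (1:ℝ) := Real.rpow_le_rpow_of_exponent_le hav1 (by linarith)
                _ = av := Real.rpow_one _
      calc C0 * (δ * R ^ (1/2 + ω/2)) ≤ C0 * (δ * (av * Z ^ (1/2 + ω/2))) := by gcongr
        _ = v * (C0 * av * (Z ^ (-(1/2 + ω)) * Z ^ (1/2 + ω/2))) := by rw [hδ]; ring
        _ = v * (C0 * av * Z ^ (-(ω/2))) := by rw [← Real.rpow_add hZ0]; congr 3; ring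
        _ ≤ v * (1/24) := mul_le_mul_of_nonneg_left z1 hv0.le
        _ = v / 24 := by ring
    have i2 : C0 * (R ^ (-(12/25):ℝ) * δ ^ (-(13/25):ℝ)) ≤ v / 24 := by
      have j1 : R ^ (-(12/25):ℝ) ≤ 2 * Dc * Z ^ (-(12/25):ℝ) := by
        calc R ^ (-(12/25):ℝ) ≤ (Z / (2 * Dc)) ^ (-(12/25):ℝ) := by
              apply Real.rpow_le_rpow_of_nonpos (by positivity) _ (by norm_num)
              rw [div_le_iff₀ (by positivity)]
              nlinarith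
          _ = (1/(2*Dc):ℝ) ^ (-(12/25):ℝ) * Z ^ (-(12/25):ℝ) := by
              rw [← Real.mul_rpow (by positivity) hZ0.le]; congr 1; ring
          _ ≤ 2 * Dc * Z ^ (-(12/25):ℝ) := by
              apply mul_le_mul_of_nonneg_right _ (by positivity)
              have hq : 1/(2*Dc) ≤ 1 := by rw [div_le_one (by positivity)]; linarith
              calc (1/(2*Dc):ℝ) ^ (-(12/25):ℝ) ≤ (1/(2*Dc):ℝ) ^ (-1:ℝ) :=
                    Real.rpow_le_rpow_of_exponent_ge (by positivity) hq (by norm_num)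
                _ = 2*Dc := by rw [Real.rpow_neg_one]; simp
      have j2 : δ ^ (-(13/25):ℝ) ≤ Z ^ ((1/2 + ω) * (13/25)) := by
        calc δ ^ (-(13/25):ℝ) ≤ (Z ^ (-(1/2 + ω))) ^ (-(13/25):ℝ) := Real.rpow_le_rpow_of_nonpos hZω hδZ (by norm_num)
          _ = _ := by rw [← Real.rpow_mul hZ0.le]; congr 1; ring
      calc C0 * (R ^ (-(12/25):ℝ) * δ ^ (-(13/25):ℝ)) ≤ C0 * ((2 * Dc * Z ^ (-(12/25):ℝ)) * Z ^ ((1/2 + ω) * (13/25))) := by gcongr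
        _ = 2 * Dc * C0 * Z ^ (-(12/25) + (1/2 + ω) * (13/25)) := by rw [Real.rpow_add hZ0]; ring
        _ ≤ 2 * Dc * C0 * Z ^ (-(1/5):ℝ) := by
            apply mul_le_mul_of_nonneg_left _ (by positivity)
            exact Real.rpow_le_rpow_of_exponent_le hZ1' (by linarith)
        _ ≤ 1/24 := z2
        _ ≤ v/24 := by linarith
    have i3 : C0 * δ ^ (2/5:ℝ) ≤ v / 24 := by
      calc C0 * δ ^ (2/5:ℝ) ≤ C0 * (Z ^ (-(3/10):ℝ)) ^ (2/5:ℝ) := by gcongr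
        _ = C0 * Z ^ (-(3/25):ℝ) := by rw [← Real.rpow_mul hZ0.le]; norm_num
        _ ≤ 1/24 := z3
        _ ≤ v/24 := by linarith
    unfold Win.erw
    have : C0 * (δ * R ^ (1/2 + ω/2) + R ^ (-(12/25):ℝ) * δ ^ (-(13/25):ℝ) + δ ^ (2/5:ℝ)) =
        C0 * (δ * R ^ (1/2 + ω/2)) + C0 * (R ^ (-(12/25):ℝ) * δ ^ (-(13/25):ℝ)) + C0 * δ ^ (2/5:ℝ) := by ring
    linarith
  -- inclusion
  have ha1v : |a 1| ≤ v / 8 := by rw [hV0] at hvV; linarith
  have hsub : (range N).filter (fun n => v ≤ |E (Rn n)|) ⊆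
      (range N).filter (fun n => v / 2 ≤ ∑ j ∈ range J, ‖Bk (cb a φ w (X + κ₁ * δ) δ) α j n‖) ∪
      (range N).filter (fun n => v / 2 ≤ ∑ j ∈ range J, ‖Bk (cb a φ w (X + κ₂ * δ) δ) α j n‖) := by
    intro n hn
    rw [mem_filter, mem_range] at hn
    obtain ⟨hnN, hvn⟩ := hn
    have hn0 : (0:ℝ) ≤ n := Nat.cast_nonneg n
    have hR4 : 4 ≤ X + n * α := by nlinarith
    have hpert : |Rn n - (X + n * α)| ≤ δ := by
      refine (hRn n hnN).trans (le_trans ?_ hδZ)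
      exact Real.rpow_le_rpow_of_exponent_le hZ1' (by linarith)
    obtain ⟨h1, h2⟩ := hS (X + n * α) (Rn n) δ hR4 hδ0 hδ12 hpert
    have g1 := hWS κ₁ n
    have g2 := hWS κ₂ n
    have g3 := herr n hnN
    rw [mem_union, mem_filter, mem_filter, mem_range]
    rcases le_abs.mp hvn with h3 | h3
    · left
      refine ⟨hnN, ?_⟩
      have := le_abs_self (GW.WS a φ w (X + n * α + κ₁ * δ) δ)
      linarith
    · right
      refine ⟨hnN, ?_⟩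
      have := neg_abs_le (GW.WS a φ w (X + n * α + κ₂ * δ) δ)
      linarith
  have b1 := hTB N Z δ (v/2) (cb a φ w (X + κ₁ * δ) δ) J (by omega) hNZ hZg hδZ hδ1 (by positivity) (hbb _)
  have b2 := hTB N Z δ (v/2) (cb a φ w (X + κ₂ * δ) δ) J (by omega) hNZ hZg hδZ hδ1 (by positivity) (hbb _)
  rw [hpθ] at b1 b2
  have hcard := (card_le_card hsub).trans (card_union_le _ _)
  have hcard' : (((range N).filter (fun n => v ≤ |E (Rn n)|)).card : ℝ) ≤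
      (((range N).filter (fun n => v / 2 ≤ ∑ j ∈ range J, ‖Bk (cb a φ w (X + κ₁ * δ) δ) α j n‖)).card : ℝ) +
      (((range N).filter (fun n => v / 2 ≤ ∑ j ∈ range J, ‖Bk (cb a φ w (X + κ₂ * δ) δ) α j n‖)).card : ℝ) := by exact_mod_cast hcard
  have hvp : (v/2) ^ (-p) ≤ 64 * v ^ (-p) := by
    rw [Real.div_rpow hv0.le (by norm_num), Real.rpow_neg (by norm_num : (0:ℝ) ≤ 2), div_inv_eq_mul, mul_comm]
    apply mul_le_mul_of_nonneg_right _ (by positivity)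
    calc (2:ℝ) ^ p ≤ 2 ^ (6:ℝ) := Real.rpow_le_rpow_of_exponent_le (by norm_num) hp.le
      _ = 64 := by norm_num
  have hv2 : (v/2) ^ (-2:ℝ) = 4 * v ^ (-2:ℝ) := by
    rw [Real.div_rpow hv0.le (by norm_num), Real.rpow_neg (by norm_num : (0:ℝ) ≤ 2), div_inv_eq_mul, mul_comm]
    norm_num
  have hδv : δ ^ (-(1 + ω)) * v ^ (-2:ℝ) ≤ Z ^ (1/2 + ε) * v ^ (-3:ℝ) := by
    have i1 : δ ^ (-(1 + ω)) = v ^ (-(1 + ω)) * Z ^ ((1/2 + ω) * (1 + ω)) := by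
      rw [hδ, Real.mul_rpow hv0.le hZω.le, ← Real.rpow_mul hZ0.le]
      congr 2; ring
    have i2 : v ^ (-(1 + ω)) ≤ v ^ (-1:ℝ) := Real.rpow_le_rpow_of_exponent_le hv (by linarith)
    have i3 : Z ^ ((1/2 + ω) * (1 + ω)) ≤ Z ^ (1/2 + ε) := by
      apply Real.rpow_le_rpow_of_exponent_le hZ1'
      nlinarith
    rw [i1]
    calc v ^ (-(1 + ω)) * Z ^ ((1/2 + ω) * (1 + ω)) * v ^ (-2:ℝ) ≤ v ^ (-1:ℝ) * Z ^ (1/2 + ε) * v ^ (-2:ℝ) := by gcongr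
      _ = Z ^ (1/2 + ε) * (v ^ (-1:ℝ) * v ^ (-2:ℝ)) := by ring
      _ = _ := by rw [← Real.rpow_add hv0]; norm_num
  have hfin : Cb * (N * (v/2) ^ (-p) + δ ^ (-(1 + ω)) * (v/2) ^ (-2:ℝ)) ≤ 64 * Cb * (N * v ^ (-p) + Z ^ (1/2 + ε) * v ^ (-3:ℝ)) := by
    have j1 : N * (v/2) ^ (-p) ≤ 64 * (N * v ^ (-p)) := by
      calc N * (v/2) ^ (-p) ≤ N * (64 * v ^ (-p)) := mul_le_mul_of_nonneg_left hvp hN0.le
        _ = _ := by ring
    have j2 : δ ^ (-(1 + ω)) * (v/2) ^ (-2:ℝ) ≤ 64 * (Z ^ (1/2 + ε) * v ^ (-3:ℝ)) := by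
      rw [hv2]
      have : 0 ≤ δ ^ (-(1 + ω)) * v ^ (-2:ℝ) := by positivity
      nlinarith
    calc _ ≤ Cb * (64 * (N * v ^ (-p)) + 64 * (Z ^ (1/2 + ε) * v ^ (-3:ℝ))) := mul_le_mul_of_nonneg_left (add_le_add j1 j2) hCb.le
      _ = _ := by ring
  have hsum0 : 0 ≤ N * v ^ (-p) + Z ^ (1/2 + ε) * v ^ (-3:ℝ) := by positivity
  have hVs : 0 ≤ V0 ^ p * (N * v ^ (-p) + Z ^ (1/2 + ε) * v ^ (-3:ℝ)) := by positivity
  calc _ ≤ 64 * Cb * (N * v ^ (-p) + Z ^ (1/2 + ε) * v ^ (-3:ℝ)) + 64 * Cb * (N * v ^ (-p) + Z ^ (1/2 + ε) * v ^ (-3:ℝ)) := by linarith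
    _ ≤ _ := by linarith

end Pool.Agent.H425R3.MM
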