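import Mathlib
import Pool.Agent.H425R3.MM.K7

open Finset Filter Topology
open Pool.Agent.H469R2.NK
open Pool.Agent.H452R2
open Pool.Agent.H383
open Pool.Agent.H383.Gauss Pool.Agent.H383.AP

namespace Pool.Agent.H425R3.MM

variable {E : ℝ → ℝ} {a : ℕ → ℝ} {φ : ℝ} {w : ℝ → ℂ}

/-- large values in distant windows `[K, K + N)`, `N ≤ K` -/
theorem lv_far (ha : Win.Bdw a) (ha0 : a 0 = 0) (hw : GW.Wt w) {κ₁ κ₂ : ℝ} (hS : Win.SandW E a φ w κ₁ κ₂)
    {α : ℝ} (hα : 0 < α) (X : ℝ) {Rn : ℕ → ℝ} (hRn : ∃ C₁ : ℝ, ∀ n : ℕ, |Rn n - (X + n * α)| ≤ C₁ / (n + 1))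
    {ε : ℝ} (hε : 0 < ε) (hε1 : ε ≤ 1) {p : ℝ} (hp2 : 2 ≤ p) (hp : p < 6) :
    ∃ C : ℝ, 0 < C ∧ ∃ K0 : ℕ, ∀ K N : ℕ, K0 ≤ K → N ≤ K → (K:ℝ) ^ (max (1/2) (p/6) + ε) ≤ N → ∀ v : ℝ, 1 ≤ v →
    (((range N).filter (fun n => v ≤ |E (Rn (K + n))|)).card : ℝ) ≤ C * (N * v ^ (-p)) := by
  obtain ⟨C₁, hRn⟩ := hRn
  have hC₁ : 0 ≤ |C₁| := abs_nonneg _
  obtain ⟨Cs, hCs, hsup⟩ := supE ha ha0 hw hS (η := ε/12) (by positivity) (by linarith)
  set D : ℝ := max 1 (2/α) with hD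
  have hD1 : 1 ≤ D := le_max_left _ _
  have hDα : 2/α ≤ D := le_max_right _ _
  obtain ⟨Cd, hCd, N0, hlv⟩ := lv_dyadic ha ha0 hw hS hα (ε := ε/4) (by positivity) hp2 hp hD1
  set D2 : ℝ := |X| + α + 1 with hD2
  have hD20 : 1 ≤ D2 := by have := abs_nonneg X; rw [hD2]; linarith
  set m0 : ℝ := max (1/2) (p/6) with hm0
  have hm1 : 1/2 ≤ m0 := le_max_left _ _
  have hm2 : p/6 ≤ m0 := le_max_right _ _
  -- eventual conditions in K
  obtain ⟨K1, hK1⟩ := ev_small (D2 ^ (1/2 + ε/4)) (y := ε/4) (η := 1) (by positivity) (by norm_num)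
  obtain ⟨K2, hK2⟩ := ev_small (|C₁| * D2 ^ (51/100:ℝ)) (y := 49/100) (η := 1) (by norm_num) (by norm_num)
  obtain ⟨K3, hK3⟩ := ev_small (2 * |C₁| * (2 * D2) ^ (1/3:ℝ)) (y := 2/3) (η := 1) (by norm_num) (by norm_num)
  obtain ⟨K4, hK4⟩ := exists_nat_ge (2 * (|X| + 4) / α)
  obtain ⟨K5, hK5⟩ := ev_small N0 (y := 1/2) (η := 1) (by norm_num) (by norm_num)
  set W0 : ℝ := max 1 (Cs * (2 * D2)) with hW0
  have hW01 : 1 ≤ W0 := le_max_left _ _
  have hW02 : Cs * (2 * D2) ≤ W0 := le_max_right _ _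
  set W : ℝ := W0 ^ (3:ℝ) with hW
  have hW1 : 1 ≤ W := Real.one_le_rpow hW01 (by norm_num)
  refine ⟨Cd * (1 + D2 * W), by positivity, K1 + K2 + K3 + K4 + K5 + 1, ?_⟩
  intro K N hK hNK hKN v hv
  have hK1n : 1 ≤ K := by omega
  have hK1' : (1:ℝ) ≤ K := by exact_mod_cast hK1n
  have hK0 : (0:ℝ) < K := by linarith
  have hge : ∀ k : ℕ, k ≤ K → (k:ℝ) ≤ (K:ℝ) := fun k hk => by exact_mod_cast hk
  have c1 := hK1 K (hge K1 (by omega))
  have c2 := hK2 K (hge K2 (by omega))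
  have c3 := hK3 K (hge K3 (by omega))
  have c5 := hK5 K (hge K5 (by omega))
  have c4 : 2 * (|X| + 4) ≤ K * α := by
    have : 2 * (|X| + 4) / α ≤ K := hK4.trans (hge K4 (by omega))
    rwa [div_le_iff₀ hα] at this
  have hX1 := neg_abs_le X
  have hX2 := le_abs_self X
  have hX3 := abs_nonneg X
  have hNK' : (N:ℝ) ≤ K := by exact_mod_cast hNK
  have hKmN : (K:ℝ) ^ (1/2 + ε) ≤ N := by
    refine le_trans ?_ hKN
    exact Real.rpow_le_rpow_of_exponent_le hK1' (by linarith)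
  have hN12 : (K:ℝ) ^ (1/2:ℝ) ≤ N := by
    refine le_trans ?_ hKmN
    exact Real.rpow_le_rpow_of_exponent_le hK1' (by linarith)
  have hNN0 : N0 ≤ N := by
    have h1 : (N0:ℝ) ≤ (K:ℝ) ^ (1/2:ℝ) := by
      calc (N0:ℝ) = (N0 * (K:ℝ) ^ (-(1/2):ℝ)) * (K:ℝ) ^ (1/2:ℝ) := by
            rw [mul_assoc, ← Real.rpow_add hK0]; norm_num
        _ ≤ 1 * (K:ℝ) ^ (1/2:ℝ) := mul_le_mul_of_nonneg_right c5 (by positivity)
        _ = _ := one_mul _
    exact_mod_cast h1.trans hN12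
  have hN0 : (0:ℝ) < N := lt_of_lt_of_le (by positivity) hN12
  set X' : ℝ := X + K * α with hX'
  have hX'4 : 4 ≤ X' := by rw [hX']; linarith
  have hX'0 : 0 < X' := by linarith
  have hX'K : K * α / 2 ≤ X' := by rw [hX']; linarith
  have hX'D : X' + N ≤ D2 * K := by
    rw [hX', hD2]; nlinarith
  have hX'D' : X' ≤ D2 * K := by linarith
  have hv0 : 0 < v := by linarith
  have hNX : (N:ℝ) ≤ D * X' := by
    calc (N:ℝ) ≤ K := hNK'
      _ = 2/α * (K * α / 2) := by field_simp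
      _ ≤ D * X' := mul_le_mul hDα hX'K (by positivity) (by linarith)
  have hXN : X' ^ (1/2 + ε/4) ≤ N := by
    calc X' ^ (1/2 + ε/4) ≤ (D2 * K) ^ (1/2 + ε/4) := Real.rpow_le_rpow hX'0.le hX'D' (by positivity)
      _ = D2 ^ (1/2 + ε/4) * (K:ℝ) ^ (1/2 + ε/4) := Real.mul_rpow (by linarith) hK0.le
      _ = (D2 ^ (1/2 + ε/4) * (K:ℝ) ^ (-(ε/4))) * (K:ℝ) ^ (1/2 + ε/2) := by
          rw [mul_assoc, ← Real.rpow_add hK0]; congr 2; ring
      _ ≤ 1 * (K:ℝ) ^ (1/2 + ε/2) := mul_le_mul_of_nonneg_right c1 (by positivity)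
      _ ≤ 1 * (K:ℝ) ^ (1/2 + ε) := by
          apply mul_le_mul_of_nonneg_left _ (by norm_num)
          exact Real.rpow_le_rpow_of_exponent_le hK1' (by linarith)
      _ ≤ N := by rw [one_mul]; exact hKmN
  have hpert : ∀ n : ℕ, |Rn (K + n) - (X' + n * α)| ≤ |C₁| / K := by
    intro n
    have s1 := hRn (K + n)
    have e1 : X' + n * α = X + ((K + n : ℕ):ℝ) * α := by rw [hX']; push_cast; ring
    rw [e1]
    refine s1.trans ?_
    have hn0 : (0:ℝ) ≤ n := Nat.cast_nonneg n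
    calc C₁ / (((K + n : ℕ):ℝ) + 1) ≤ |C₁| / (((K + n : ℕ):ℝ) + 1) := by
          apply div_le_div_of_nonneg_right (le_abs_self _) (by positivity)
      _ ≤ |C₁| / K := by
          apply div_le_div_of_nonneg_left hC₁ hK0
          push_cast; linarith
  have hp1 : |C₁| / K ≤ (X' + N) ^ (-(51/100):ℝ) := by
    calc |C₁| / K = (|C₁| * D2 ^ (51/100:ℝ) * (K:ℝ) ^ (-(49/100):ℝ)) * (D2 ^ (-(51/100):ℝ) * (K:ℝ) ^ (-(51/100):ℝ)) := by
          have e1 : D2 ^ (51/100:ℝ) * D2 ^ (-(51/100):ℝ) = 1 := by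
            rw [← Real.rpow_add (by linarith)]; norm_num
          have e2 : (K:ℝ) ^ (-(49/100):ℝ) * (K:ℝ) ^ (-(51/100):ℝ) = (K:ℝ)⁻¹ := by
            rw [← Real.rpow_add hK0, ← Real.rpow_neg_one]; norm_num
          calc |C₁| / K = |C₁| * 1 * (K:ℝ)⁻¹ := by rw [mul_one, div_eq_mul_inv]
            _ = |C₁| * (D2 ^ (51/100:ℝ) * D2 ^ (-(51/100):ℝ)) * ((K:ℝ) ^ (-(49/100):ℝ) * (K:ℝ) ^ (-(51/100):ℝ)) := by rw [e1, e2]
            _ = _ := by ring
      _ ≤ 1 * (D2 ^ (-(51/100):ℝ) * (K:ℝ) ^ (-(51/100):ℝ)) := mul_le_mul_of_nonneg_right c2 (by positivity)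
      _ = (D2 * K) ^ (-(51/100):ℝ) := by rw [one_mul, Real.mul_rpow (by linarith) hK0.le]
      _ ≤ _ := Real.rpow_le_rpow_of_nonpos (by positivity) hX'D (by norm_num)
  have hmain := hlv N hNN0 X' hX'4 hXN hNX (fun n => Rn (K + n)) (fun n _ => (hpert n).trans hp1) v hv
  -- the pointwise bound
  rcases lt_or_ge (Cs * (2 * D2 * K) ^ (1/6 + ε/12)) v with hbig | hsmall
  · have hzero : (range N).filter (fun n => v ≤ |E (Rn (K + n))|) = ∅ := by
      rw [filter_eq_empty_iff]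
      intro n hn
      rw [mem_range] at hn
      push Not
      have hn0 : (0:ℝ) ≤ n := Nat.cast_nonneg n
      have hnK : (n:ℝ) ≤ K := by
        have : n ≤ K := by omega
        exact_mod_cast this
      set R : ℝ := X' + n * α with hR
      have hR4 : 4 ≤ R := by rw [hR]; nlinarith
      have hR0 : 0 < R := by linarith
      have hRle : R ≤ 2 * D2 * K := by
        have : (n:ℝ) * α ≤ K * α := mul_le_mul_of_nonneg_right hnK hα.le
        have h3 : K * α ≤ D2 * K := by rw [hD2]; nlinarith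
        rw [hR]; linarith
      have h1 : |Rn (K + n) - R| ≤ R ^ (-(1/3):ℝ) / 2 := by
        refine (hpert n).trans ?_
        have g1 : (2 * D2 * K) ^ (-(1/3):ℝ) ≤ R ^ (-(1/3):ℝ) := Real.rpow_le_rpow_of_nonpos hR0 hRle (by norm_num)
        have g2 : (2 * D2 * K) ^ (-(1/3):ℝ) = (2 * D2) ^ (-(1/3):ℝ) * (K:ℝ) ^ (-(1/3):ℝ) := Real.mul_rpow (by linarith) hK0.le
        have e1 : (2 * D2) ^ (1/3:ℝ) * (2 * D2) ^ (-(1/3):ℝ) = 1 := by
          rw [← Real.rpow_add (by linarith)]; norm_num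
        have e2 : (K:ℝ) ^ (-(2/3):ℝ) * (K:ℝ) ^ (-(1/3):ℝ) = (K:ℝ)⁻¹ := by
          rw [← Real.rpow_add hK0, ← Real.rpow_neg_one]; norm_num
        have g3 : |C₁| / K ≤ (2 * D2 * K) ^ (-(1/3):ℝ) / 2 := by
          calc |C₁| / K = |C₁| * 1 * (K:ℝ)⁻¹ := by rw [mul_one, div_eq_mul_inv]
            _ = |C₁| * ((2 * D2) ^ (1/3:ℝ) * (2 * D2) ^ (-(1/3):ℝ)) * ((K:ℝ) ^ (-(2/3):ℝ) * (K:ℝ) ^ (-(1/3):ℝ)) := by rw [e1, e2]
            _ = (2 * |C₁| * (2 * D2) ^ (1/3:ℝ) * (K:ℝ) ^ (-(2/3):ℝ)) * (2 * D2 * K) ^ (-(1/3):ℝ) / 2 := by rw [g2]; ring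
            _ ≤ 1 * (2 * D2 * K) ^ (-(1/3):ℝ) / 2 := by
                apply div_le_div_of_nonneg_right _ (by norm_num)
                exact mul_le_mul_of_nonneg_right c3 (by positivity)
            _ = _ := by rw [one_mul]
        linarith
      have h2 := hsup R (Rn (K + n)) hR4 h1
      refine lt_of_le_of_lt (h2.trans ?_) hbig
      exact mul_le_mul_of_nonneg_left (Real.rpow_le_rpow hR0.le hRle (by positivity)) hCs.le
    rw [hzero, card_empty, Nat.cast_zero]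
    positivity
  · refine hmain.trans ?_
    have h1 : (X' + N) ^ (1/2 + ε/4) * v ^ (-3:ℝ) ≤ D2 * W * (N * v ^ (-p)) := by
      have e1 : v ^ (-3:ℝ) = v ^ (p - 3) * v ^ (-p) := by rw [← Real.rpow_add hv0]; congr 1; ring
      rw [e1]
      have e2 : (X' + N) ^ (1/2 + ε/4) ≤ D2 * (K:ℝ) ^ (1/2 + ε/4) := by
        calc (X' + N) ^ (1/2 + ε/4) ≤ (D2 * K) ^ (1/2 + ε/4) := Real.rpow_le_rpow (by positivity) hX'D (by positivity)
          _ = D2 ^ (1/2 + ε/4) * (K:ℝ) ^ (1/2 + ε/4) := Real.mul_rpow (by linarith) hK0.le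
          _ ≤ D2 * (K:ℝ) ^ (1/2 + ε/4) := by
              apply mul_le_mul_of_nonneg_right _ (by positivity)
              calc D2 ^ (1/2 + ε/4) ≤ D2 ^ (1:ℝ) := Real.rpow_le_rpow_of_exponent_le hD20 (by linarith)
                _ = D2 := Real.rpow_one _
      have e3 : v ^ (p - 3) ≤ W * (K:ℝ) ^ (m0 - 1/2 + ε/4) := by
        have hKe : 1 ≤ (K:ℝ) ^ (m0 - 1/2 + ε/4) := Real.one_le_rpow hK1' (by linarith)
        rcases le_total p 3 with hp3 | hp3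
        · calc v ^ (p - 3) ≤ 1 := Real.rpow_le_one_of_one_le_of_nonpos hv (by linarith)
            _ ≤ W * (K:ℝ) ^ (m0 - 1/2 + ε/4) := by nlinarith
        · have h5 : v ≤ W0 * (K:ℝ) ^ (1/6 + ε/12) := by
            calc v ≤ Cs * (2 * D2 * K) ^ (1/6 + ε/12) := hsmall
              _ = Cs * ((2 * D2) ^ (1/6 + ε/12) * (K:ℝ) ^ (1/6 + ε/12)) := by rw [Real.mul_rpow (by linarith) hK0.le]
              _ ≤ Cs * ((2 * D2) * (K:ℝ) ^ (1/6 + ε/12)) := by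
                  gcongr
                  calc (2 * D2) ^ (1/6 + ε/12) ≤ (2 * D2) ^ (1:ℝ) :=
                        Real.rpow_le_rpow_of_exponent_le (by linarith) (by linarith)
                    _ = 2 * D2 := Real.rpow_one _
              _ = (Cs * (2 * D2)) * (K:ℝ) ^ (1/6 + ε/12) := by ring
              _ ≤ _ := mul_le_mul_of_nonneg_right hW02 (by positivity)
          calc v ^ (p - 3) ≤ (W0 * (K:ℝ) ^ (1/6 + ε/12)) ^ (p - 3) := Real.rpow_le_rpow hv0.le h5 (by linarith)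
            _ = W0 ^ (p - 3) * (K:ℝ) ^ ((1/6 + ε/12) * (p - 3)) := by
                rw [Real.mul_rpow (by linarith) (by positivity), ← Real.rpow_mul hK0.le]
            _ ≤ W * (K:ℝ) ^ (m0 - 1/2 + ε/4) := by
                apply mul_le_mul _ _ (by positivity) (by positivity)
                · exact Real.rpow_le_rpow_of_exponent_le hW01 (by linarith)
                · apply Real.rpow_le_rpow_of_exponent_le hK1'
                  nlinarith
      have e4 : (K:ℝ) ^ (1/2 + ε/4) * (K:ℝ) ^ (m0 - 1/2 + ε/4) ≤ N := by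
        rw [← Real.rpow_add hK0]
        refine le_trans ?_ hKN
        exact Real.rpow_le_rpow_of_exponent_le hK1' (by linarith)
      calc (X' + N) ^ (1/2 + ε/4) * (v ^ (p - 3) * v ^ (-p)) ≤ (D2 * (K:ℝ) ^ (1/2 + ε/4)) * ((W * (K:ℝ) ^ (m0 - 1/2 + ε/4)) * v ^ (-p)) := by
            gcongr
        _ = D2 * W * (((K:ℝ) ^ (1/2 + ε/4) * (K:ℝ) ^ (m0 - 1/2 + ε/4)) * v ^ (-p)) := by ring
        _ ≤ D2 * W * (N * v ^ (-p)) := by gcongr
    calc Cd * (N * v ^ (-p) + (X' + N) ^ (1/2 + ε/4) * v ^ (-3:ℝ)) ≤ Cd * (N * v ^ (-p) + D2 * W * (N * v ^ (-p))) := by gcongr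
      _ = _ := by ring

end Pool.Agent.H425R3.MM
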