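import Mathlib
import Pool.Agent.H425R3.MM.K8

open Finset Filter Topology

namespace Pool.Agent.H425R3.MM

/-- from distant windows to all windows -/
lemma win_of_far {e : ℕ → ℝ} {p γ : ℝ} (hp : 0 ≤ p) (hγ : γ ≤ 1)
    (hfar : ∃ C : ℝ, 0 < C ∧ ∃ K0 : ℕ, ∀ K N : ℕ, K0 ≤ K → N ≤ K → (K:ℝ) ^ γ ≤ N → ∀ v : ℝ, 1 ≤ v →
      (((range N).filter (fun n => v ≤ |e (K + n)|)).card : ℝ) ≤ C * (N * v ^ (-p))) :
    ∃ C : ℝ, 0 < C ∧ ∃ N0 : ℕ, ∀ N : ℕ, N0 ≤ N → ∀ k : ℕ, (k:ℝ) ^ γ ≤ N → ∀ v : ℝ, 1 ≤ v →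
      (((Ico k (k + N)).filter (fun n => v ≤ |e n|)).card : ℝ) ≤ C * (N * v ^ (-p)) := by
  obtain ⟨C, hC, K0, hfar⟩ := hfar
  -- shifting
  have hshift : ∀ (K N : ℕ) (v : ℝ), (((Ico K (K + N)).filter (fun n => v ≤ |e n|)).card) =
      ((range N).filter (fun n => v ≤ |e (K + n)|)).card := by
    intro K N v
    have h1 : (Ico K (K + N)).filter (fun n => v ≤ |e n|) = ((range N).filter (fun n => v ≤ |e (K + n)|)).image (fun n => K + n) := by
      ext x
      simp only [mem_filter, mem_Ico, mem_image, mem_range]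
      constructor
      · rintro ⟨⟨h1, h2⟩, h3⟩
        refine ⟨x - K, ⟨by omega, ?_⟩, by omega⟩
        rwa [show K + (x - K) = x by omega]
      · rintro ⟨y, ⟨h1, h2⟩, rfl⟩
        exact ⟨⟨by omega, by omega⟩, h2⟩
    rw [h1, card_image_of_injective _ (fun a b h => by simpa using h)]
  set B : ℝ := ∑ n ∈ range (2^K0), |e n| + 1 with hB
  have hB1 : 1 ≤ B := by
    have : 0 ≤ ∑ n ∈ range (2^K0), |e n| := sum_nonneg (fun _ _ => abs_nonneg _)
    rw [hB]; linarith
  have hinit : ∀ v : ℝ, 1 ≤ v → (((range (2^K0)).filter (fun n => v ≤ |e n|)).card : ℝ) ≤ (2:ℝ)^K0 * B ^ p * v ^ (-p) := by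
    intro v hv
    have hv0 : 0 < v := by linarith
    rcases lt_or_ge B v with h | h
    · have : (range (2^K0)).filter (fun n => v ≤ |e n|) = ∅ := by
        rw [filter_eq_empty_iff]
        intro n hn
        push Not
        have h1 : |e n| ≤ ∑ n ∈ range (2^K0), |e n| := single_le_sum (f := fun n => |e n|) (fun _ _ => abs_nonneg _) hn
        linarith
      rw [this, card_empty, Nat.cast_zero]
      have : 0 < B := by linarith
      positivity
    · have h1 : (((range (2^K0)).filter (fun n => v ≤ |e n|)).card : ℝ) ≤ (2:ℝ)^K0 := by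
        have : ((range (2^K0)).filter (fun n => v ≤ |e n|)).card ≤ (range (2^K0)).card := card_filter_le _ _
        rw [card_range] at this
        exact_mod_cast this
      have h2 : 1 ≤ B ^ p * v ^ (-p) := by
        rw [Real.rpow_neg hv0.le, ← div_eq_mul_inv, le_div_iff₀ (by positivity), one_mul]
        exact Real.rpow_le_rpow hv0.le h hp
      calc _ ≤ (2:ℝ)^K0 * 1 := by rw [mul_one]; exact h1
        _ ≤ (2:ℝ)^K0 * (B ^ p * v ^ (-p)) := mul_le_mul_of_nonneg_left h2 (by positivity)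
        _ = _ := by ring
  have hdy : ∀ v : ℝ, 1 ≤ v → ∀ I : ℕ, K0 ≤ I → (((range (2^I)).filter (fun n => v ≤ |e n|)).card : ℝ) ≤
      (2:ℝ)^K0 * B ^ p * v ^ (-p) + C * ((2:ℝ)^I * v ^ (-p)) := by
    intro v hv I hI
    have hv0 : 0 < v := by linarith
    induction I, hI using Nat.le_induction with
    | base =>
      have h1 := hinit v hv
      have : 0 ≤ C * ((2:ℝ)^K0 * v ^ (-p)) := by positivity
      linarith
    | succ I hI ih =>
      have h1 : range (2^(I+1)) = range (2^I) ∪ Ico (2^I) (2^I + 2^I) := by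
        ext x; simp only [mem_range, mem_union, mem_Ico, pow_succ]; omega
      rw [h1, filter_union]
      have h2 := card_union_le ((range (2^I)).filter (fun n => v ≤ |e n|)) ((Ico (2^I) (2^I + 2^I)).filter (fun n => v ≤ |e n|))
      have h2' : ((((range (2^I)).filter (fun n => v ≤ |e n|)) ∪ ((Ico (2^I) (2^I + 2^I)).filter (fun n => v ≤ |e n|))).card : ℝ) ≤
          (((range (2^I)).filter (fun n => v ≤ |e n|)).card : ℝ) + (((Ico (2^I) (2^I + 2^I)).filter (fun n => v ≤ |e n|)).card : ℝ) := by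
        exact_mod_cast h2
      have h3 : (((Ico (2^I) (2^I + 2^I)).filter (fun n => v ≤ |e n|)).card : ℝ) ≤ C * ((2:ℝ)^I * v ^ (-p)) := by
        rw [hshift (2^I) (2^I) v]
        have hI2 : K0 ≤ 2^I := le_trans hI (Nat.lt_two_pow_self (n := I)).le
        have h4 := hfar (2^I) (2^I) hI2 le_rfl (by
          have h5 : (1:ℝ) ≤ ((2^I : ℕ) : ℝ) := by exact_mod_cast Nat.one_le_two_pow
          calc (((2^I : ℕ)) : ℝ) ^ γ ≤ (((2^I : ℕ)) : ℝ) ^ (1:ℝ) := Real.rpow_le_rpow_of_exponent_le h5 hγ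
            _ = _ := Real.rpow_one _) v hv
        push_cast at h4 ⊢
        exact h4
      have h5 : C * ((2:ℝ)^(I+1) * v ^ (-p)) = C * ((2:ℝ)^I * v ^ (-p)) + C * ((2:ℝ)^I * v ^ (-p)) := by rw [pow_succ]; ring
      rw [h5]; linarith
  refine ⟨C + ((2:ℝ)^K0 * B ^ p + 4 * C), by positivity, 2^K0 + K0 + 1, ?_⟩
  intro N hN k hk v hv
  have hv0 : 0 < v := by linarith
  have hpow : 1 ≤ 2^K0 := Nat.one_le_two_pow
  have hN1 : (1:ℝ) ≤ N := by exact_mod_cast (by omega : 1 ≤ N)
  have hT : 0 ≤ N * v ^ (-p) := by positivity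
  have hB0 : 0 < B := by linarith
  rcases le_or_gt N k with hNk | hNk
  · rw [hshift k N v]
    have h1 := hfar k N (by omega) hNk hk v hv
    refine h1.trans ?_
    apply mul_le_mul_of_nonneg_right _ hT
    have : 0 ≤ (2:ℝ)^K0 * B ^ p + 4 * C := by positivity
    linarith
  · obtain ⟨I, hI⟩ : ∃ I : ℕ, 2^I ≤ 2 * N ∧ 2 * N < 2^(I+1) := by
      refine ⟨Nat.log 2 (2*N), Nat.pow_log_le_self 2 (by omega), Nat.lt_pow_succ_log_self (by norm_num) _⟩
    have hIK : K0 ≤ I + 1 := by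
      by_contra hcon
      push Not at hcon
      have h3 : 2^(I+1) ≤ 2^K0 := Nat.pow_le_pow_right (by norm_num) hcon.le
      have h4 := hI.2
      omega
    have h1 := hdy v hv (I+1) hIK
    have hsub : (Ico k (k + N)).filter (fun n => v ≤ |e n|) ⊆ (range (2^(I+1))).filter (fun n => v ≤ |e n|) := by
      apply filter_subset_filter
      intro x hx
      rw [mem_Ico] at hx
      rw [mem_range]
      omega
    have h2 : (((Ico k (k + N)).filter (fun n => v ≤ |e n|)).card : ℝ) ≤ (((range (2^(I+1))).filter (fun n => v ≤ |e n|)).card : ℝ) := by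
      exact_mod_cast card_le_card hsub
    refine h2.trans (h1.trans ?_)
    have h3 : (2:ℝ)^(I+1) ≤ 4 * N := by
      have : 2^(I+1) ≤ 4 * N := by rw [pow_succ]; omega
      exact_mod_cast this
    have h4 : (2:ℝ)^K0 * B ^ p * v ^ (-p) ≤ (2:ℝ)^K0 * B ^ p * (N * v ^ (-p)) := by
      apply mul_le_mul_of_nonneg_left _ (by positivity)
      have : 0 ≤ v ^ (-p) := by positivity
      nlinarith
    have h5 : C * ((2:ℝ)^(I+1) * v ^ (-p)) ≤ C * (4 * N * v ^ (-p)) := by gcongr
    have h6 : 0 ≤ C * (N * v ^ (-p)) := by positivity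
    calc _ ≤ (2:ℝ)^K0 * B ^ p * (N * v ^ (-p)) + C * (4 * N * v ^ (-p)) := add_le_add h4 h5
      _ ≤ _ := by linarith

/-- uniform integrability from the large value estimate -/
lemma ui_of_lv {e : ℕ → ℝ} {p q : ℝ} (hp : 0 ≤ p) (hpq : p < q) {W : ℕ → ℕ → Prop}
    (hlv : ∃ C : ℝ, 0 < C ∧ ∃ N0 : ℕ, ∀ N : ℕ, N0 ≤ N → ∀ k : ℕ, W N k → ∀ v : ℝ, 1 ≤ v →
      (((Ico k (k + N)).filter (fun n => v ≤ |e n|)).card : ℝ) ≤ C * (N * v ^ (-q))) :
    ∃ C : ℝ, 0 < C ∧ ∃ N0 : ℕ, ∀ N : ℕ, N0 ≤ N → ∀ k : ℕ, W N k → ∀ K : ℝ, 1 ≤ K →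
      ∑ n ∈ (Ico k (k + N)).filter (fun n => K ≤ |e n|), |e n| ^ p ≤ C * (N * K ^ (p - q)) := by
  obtain ⟨C, hC, N0, hlv⟩ := hlv
  set r : ℝ := (2:ℝ) ^ (p - q) with hr
  have hr0 : 0 < r := by positivity
  have hr1 : r < 1 := Real.rpow_lt_one_of_one_lt_of_neg (by norm_num) (by linarith)
  refine ⟨(2:ℝ) ^ p * C / (1 - r), by have : 0 < 1 - r := by linarith
                                      positivity, N0, ?_⟩
  intro N hN k hk K hK
  have hK0 : 0 < K := by linarith
  -- a bound for the exponents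
  obtain ⟨I, hI⟩ : ∃ I : ℕ, ∀ n ∈ Ico k (k + N), |e n| < 2^I * K := by
    obtain ⟨I, hI⟩ := exists_nat_ge (∑ n ∈ Ico k (k + N), |e n| + 1)
    refine ⟨I, fun n hn => ?_⟩
    have h1 : |e n| ≤ ∑ n ∈ Ico k (k + N), |e n| := single_le_sum (f := fun n => |e n|) (fun _ _ => abs_nonneg _) hn
    have h2 : (I:ℝ) ≤ (2:ℝ)^I := by exact_mod_cast (Nat.lt_two_pow_self (n := I)).le
    have h3 : (2:ℝ)^I * 1 ≤ (2:ℝ)^I * K := mul_le_mul_of_nonneg_left hK (by positivity)
    linarith
  have hpt : ∀ n ∈ (Ico k (k + N)).filter (fun n => K ≤ |e n|),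
      |e n| ^ p ≤ ∑ i ∈ range I, (if 2^i * K ≤ |e n| then (2^(i+1) * K) ^ p else 0) := by
    intro n hn
    rw [mem_filter] at hn
    -- the level
    have hex : ∃ i : ℕ, |e n| < 2^(i+1) * K := by
      refine ⟨I, (hI n hn.1).trans_le ?_⟩
      apply mul_le_mul_of_nonneg_right _ hK0.le
      exact pow_le_pow_right₀ (by norm_num) (by omega)
    classical
    set i := Nat.find hex with hi
    have h1 : |e n| < 2^(i+1) * K := Nat.find_spec hex
    have h2 : 2^i * K ≤ |e n| := by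
      rcases Nat.eq_zero_or_pos i with h0 | h0
      · rw [h0, pow_zero, one_mul]; exact hn.2
      · have := Nat.find_min hex (m := i - 1) (by omega)
        push Not at this
        rwa [show i - 1 + 1 = i by omega] at this
    have hiI : i < I := by
      by_contra hcon
      push Not at hcon
      have h3 := hI n hn.1
      have h4 : (2:ℝ)^I * K ≤ 2^i * K := by
        apply mul_le_mul_of_nonneg_right _ hK0.le
        exact pow_le_pow_right₀ (by norm_num) hcon
      linarith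
    have h3 : |e n| ^ p ≤ (if 2^i * K ≤ |e n| then (2^(i+1) * K) ^ p else 0) := by
      rw [if_pos h2]
      exact Real.rpow_le_rpow (abs_nonneg _) h1.le hp
    refine h3.trans ?_
    apply single_le_sum (f := fun i => (if 2^i * K ≤ |e n| then (2^(i+1) * K) ^ p else 0)) _ (mem_range.mpr hiI)
    intro i _
    split_ifs
    · positivity
    · exact le_rfl
  calc ∑ n ∈ (Ico k (k + N)).filter (fun n => K ≤ |e n|), |e n| ^ p
      ≤ ∑ n ∈ (Ico k (k + N)).filter (fun n => K ≤ |e n|), ∑ i ∈ range I, (if 2^i * K ≤ |e n| then (2^(i+1) * K) ^ p else 0) :=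
        sum_le_sum hpt
    _ ≤ ∑ n ∈ Ico k (k + N), ∑ i ∈ range I, (if 2^i * K ≤ |e n| then (2^(i+1) * K) ^ p else 0) := by
        apply sum_le_sum_of_subset_of_nonneg (filter_subset _ _)
        intro n _ _
        apply sum_nonneg
        intro i _
        split_ifs
        · positivity
        · exact le_rfl
    _ = ∑ i ∈ range I, ((Ico k (k + N)).filter (fun n => 2^i * K ≤ |e n|)).card * (2^(i+1) * K) ^ p := by
        rw [sum_comm]
        apply sum_congr rfl
        intro i _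
        rw [← sum_filter, sum_const, nsmul_eq_mul]
    _ ≤ ∑ i ∈ range I, (2:ℝ) ^ p * C * (N * K ^ (p - q)) * r^i := by
        apply sum_le_sum
        intro i _
        have h2i : (1:ℝ) ≤ 2^i := one_le_pow₀ (by norm_num)
        have h1 := hlv N hN k hk (2^i * K) (by nlinarith)
        have e1 : ((2:ℝ)^(i+1) * K) ^ p = (2:ℝ) ^ p * (2^i * K) ^ p := by
          rw [← Real.mul_rpow (by norm_num) (by positivity)]; congr 1; ring
        have e2 : (2^i * K) ^ (-q) * (2^i * K) ^ p = K ^ (p - q) * r^i := by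
          rw [← Real.rpow_add (by positivity), Real.mul_rpow (by positivity) hK0.le, mul_comm,
            show -q + p = p - q by ring]
          congr 1
          rw [hr, ← Real.rpow_natCast 2 i, ← Real.rpow_mul (by norm_num), mul_comm, Real.rpow_mul (by norm_num), Real.rpow_natCast]
        calc (((Ico k (k + N)).filter (fun n => 2^i * K ≤ |e n|)).card : ℝ) * (2^(i+1) * K) ^ p
            ≤ C * (N * (2^i * K) ^ (-q)) * (2^(i+1) * K) ^ p := mul_le_mul_of_nonneg_right h1 (by positivity)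
          _ = (2:ℝ) ^ p * C * N * ((2^i * K) ^ (-q) * (2^i * K) ^ p) := by rw [e1]; ring
          _ = _ := by rw [e2]; ring
    _ = (2:ℝ) ^ p * C * (N * K ^ (p - q)) * ∑ i ∈ range I, r^i := by rw [mul_sum]
    _ ≤ (2:ℝ) ^ p * C * (N * K ^ (p - q)) * (1 / (1 - r)) := by
        apply mul_le_mul_of_nonneg_left _ (by positivity)
        rw [le_div_iff₀ (by linarith)]
        have h1 := geom_sum_mul_neg r I
        have h2 : 0 < r^I := by positivity
        linarith
    _ = _ := by ring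

end Pool.Agent.H425R3.MM
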