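import Mathlib
import Pool.Agent.H425R3.MM.K9
import Pool.Agent.H425R3.MM.K10
import Pool.Agent.H425R3.JD.W2

open Finset Filter Topology MeasureTheory
open Pool.Agent.H387R2.Vor
open Pool.Agent.H383.AP Pool.Agent.H383.Gauss Pool.Agent.H383.Gen Pool.Agent.H383.Div Pool.Agent.H383.Circ
open Pool.Agent.H425R3.JL (Ec Edv Ec_eq Edv_eq)
open Pool.Agent.H452R2 Pool.Agent.H452R2.Win
open Pool.Agent.H425R3.JD

namespace Pool.Agent.H425R3.MM

open Pool.Agent.H383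

/-- large value estimate along all quadratic polynomials -/
def LvStmt (Ex : ℝ → ℝ) : Prop := ∀ (a b c : ℝ), 0 < a → (∀ n : ℕ, 0 < a * (n:ℝ)^2 + b * n + c) → ∀ p : ℝ, 2 ≤ p → p < 6 →
  ∀ ε : ℝ, 0 < ε → ∃ C : ℝ, 0 < C ∧ ∃ N0 : ℕ, ∀ N : ℕ, N0 ≤ N → ∀ m : ℕ, (m:ℝ) ^ (max (1/2) (p/6) + ε) ≤ N →
  ∀ v : ℝ, 1 ≤ v → (((Ico m (m + N)).filter (fun n : ℕ => v ≤ |Ex (a * (n:ℝ)^2 + b * n + c)|)).card : ℝ) ≤ C * (N * v ^ (-p))

lemma rpow_mono_nat {m N : ℕ} {x y : ℝ} (hx : 0 < x) (hxy : x ≤ y) (h : (m:ℝ) ^ y ≤ N) : (m:ℝ) ^ x ≤ N := by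
  rcases Nat.eq_zero_or_pos m with rfl | hm
  · rw [Nat.cast_zero, Real.zero_rpow hx.ne']; exact Nat.cast_nonneg N
  · exact (Real.rpow_le_rpow_of_exponent_le (by exact_mod_cast hm) hxy).trans h

theorem lv_all {E : ℝ → ℝ} {af : ℕ → ℝ} {φ : ℝ} {w : ℝ → ℂ} (haf : Win.Bdw af) (ha0 : af 0 = 0) (hw : GW.Wt w) {κ₁ κ₂ : ℝ}
    (hS : Win.SandW E af φ w κ₁ κ₂) {α : ℝ} (hα : 0 < α) (X : ℝ) {Rn : ℕ → ℝ}
    (hRn : ∃ C₁ : ℝ, ∀ n : ℕ, |Rn n - (X + n * α)| ≤ C₁ / (n + 1)) {p : ℝ} (hp2 : 2 ≤ p) (hp : p < 6) {ε : ℝ} (hε : 0 < ε) :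
    ∃ C : ℝ, 0 < C ∧ ∃ N0 : ℕ, ∀ N : ℕ, N0 ≤ N → ∀ m : ℕ, (m:ℝ) ^ (max (1/2) (p/6) + ε) ≤ N →
    ∀ v : ℝ, 1 ≤ v → (((Ico m (m + N)).filter (fun n : ℕ => v ≤ |E (Rn n)|)).card : ℝ) ≤ C * (N * v ^ (-p)) := by
  set m0 : ℝ := max (1/2) (p/6) with hm0
  have hm1 : m0 < 1 := max_lt (by norm_num) (by linarith)
  have hm2 : 1/2 ≤ m0 := le_max_left _ _
  set ε2 : ℝ := min ε (1 - m0) with hε2
  have hε20 : 0 < ε2 := lt_min hε (by linarith)
  have hε2a : ε2 ≤ ε := min_le_left _ _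
  have hε2b : ε2 ≤ 1 - m0 := min_le_right _ _
  have hfar := lv_far haf ha0 hw hS hα X hRn hε20 (by linarith) hp2 hp
  obtain ⟨C, hC, N0, h⟩ := win_of_far (e := fun n => E (Rn n)) (p := p) (γ := m0 + ε2) (by linarith) (by linarith) hfar
  exact ⟨C, hC, N0, fun N hN m hm v hv => h N hN m (rpow_mono_nat (by linarith) (by linarith) hm) v hv⟩

theorem circ_Lv : LvStmt Ec := by
  intro a b c ha hP p hp2 hp ε hε
  have hsa : 0 < √a := Real.sqrt_pos.mpr ha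
  have key := lv_all (E := En) ag_Bdw ag_zero wg_Wt En_SandW hsa (b / (2 * √a))
    (Rn := fun n : ℕ => √(a * (n:ℝ)^2 + b * n + c)) (sqrt_quad ha (fun n => (hP n).le)) hp2 hp hε
  have e : ∀ n : ℕ, En (√(a * (n:ℝ)^2 + b * n + c)) = Ec (a * (n:ℝ)^2 + b * n + c) := fun n => Ec_eq (hP n).le
  simp only [e] at key
  exact key

theorem div_Lv : LvStmt Edv := by
  intro a b c ha hP p hp2 hp ε hε
  have hsa : 0 < √a := Real.sqrt_pos.mpr ha
  obtain ⟨C₁, hC₁⟩ := sqrt_quad ha (fun n => (hP n).le)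
  have key := lv_all (E := E2) ad_Bdw2 ad_zero wd_Wt (E2_SandW vor) (α := 2 * √a) (by positivity) (b / √a)
    (Rn := fun n : ℕ => 2 * √(a * (n:ℝ)^2 + b * n + c)) ⟨2 * C₁, by
      intro n
      have h1 := hC₁ n
      have e : 2 * √(a * (n:ℝ)^2 + b * n + c) - (b / √a + n * (2 * √a)) =
          2 * (√(a * (n:ℝ)^2 + b * n + c) - (b / (2 * √a) + n * √a)) := by field_simp
      rw [e, abs_mul, abs_of_pos (by norm_num : (0:ℝ) < 2), mul_div_assoc]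
      exact mul_le_mul_of_nonneg_left h1 (by norm_num)⟩ hp2 hp hε
  have e : ∀ n : ℕ, E2 (2 * √(a * (n:ℝ)^2 + b * n + c)) = Edv (a * (n:ℝ)^2 + b * n + c) := by
    intro n
    rw [← Edv_eq (hP n).le]
    unfold E2
    congr 1
    ring
  simp only [e] at key
  exact key

open Classical in
/-- the joint limit law with moments -/
theorem final_mom {Ex : ℝ → ℝ} {af : ℕ → ℝ} {φ : ℝ} {al : ℝ → ℝ} {X : ℝ → ℝ → ℝ} (hD : DataW Ex af φ al X) (hL : LvStmt Ex)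
    {k : ℕ} {a : ℝ} (ha : 0 < a) (b c : Fin k → ℝ) (hb : Function.Injective b)
    (hP : ∀ i, ∀ n : ℕ, 0 < a * (n:ℝ)^2 + b i * n + c i) :
    ∃ (μ : ProbabilityMeasure (Fin k → ℝ)) (g : (Fin k → ℂ) → ℂ),
      Differentiable ℂ g ∧
      (∀ x : Fin k → ℝ, 0 ≤ (g (fun i => (x i : ℂ))).re ∧ (g (fun i => (x i : ℂ))).im = 0) ∧
      (μ : Measure (Fin k → ℝ)) = volume.withDensity (fun x : Fin k → ℝ => ENNReal.ofReal (g (fun i => (x i : ℂ))).re) ∧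
      (∀ A : Set (Fin k → ℝ), IsOpen A → A.Nonempty → 0 < (μ : Measure (Fin k → ℝ)) A) ∧
      (∀ p : ℝ, 0 < p → p < 6 → ∀ f : (Fin k → ℝ) → ℝ, Continuous f → (∃ C : ℝ, ∀ x, |f x| ≤ C * (1 + ∑ i, |x i| ^ p)) →
        Integrable f (μ : Measure (Fin k → ℝ)) ∧
        ∀ ε : ℝ, 0 < ε → ∀ η : ℝ, 0 < η → ∃ N₀ : ℕ, ∀ N : ℕ, N₀ ≤ N → ∀ m : ℕ, (m:ℝ) ^ (max (1/2) (p/6) + ε) ≤ N →
        |(∑ n ∈ Finset.Ico m (m + N), f (fun i => Ex (a * (n:ℝ)^2 + b i * n + c i))) / N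
          - ∫ x, f x ∂(μ : Measure (Fin k → ℝ))| ≤ η) ∧
      (∀ A : Set (Fin k → ℝ), volume (frontier A) = 0 →
        ∀ ε : ℝ, 0 < ε → ∀ η : ℝ, 0 < η → ∃ N₀ : ℕ, ∀ N : ℕ, N₀ ≤ N → ∀ m : ℕ, (m:ℝ) ^ (1/2 + ε) ≤ N →
        |(((Finset.Ico m (m + N)).filter (fun n : ℕ => (fun i => Ex (a * (n:ℝ)^2 + b i * n + c i)) ∈ A)).card : ℝ) / N
          - (μ : Measure (Fin k → ℝ)).real A| ≤ η) := by
  obtain ⟨μ, g, hg, hg0, hgμ, hop, _, hconv, hset⟩ := final_joint hD ha b c hb hP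
  refine ⟨μ, g, hg, hg0, hgμ, hop, ?_, ?_⟩
  · intro p hp0 hp6 f hf hfC
    have main : ∀ ε : ℝ, 0 < ε → Integrable f (μ : Measure (Fin k → ℝ)) ∧ ∀ η : ℝ, 0 < η → ∃ N0 : ℕ, ∀ N : ℕ, N0 ≤ N → ∀ m : ℕ,
        (m:ℝ) ^ (max (1/2) (p/6) + ε) ≤ N →
        |av (fun n => f (fun i => (fun (i : Fin k) (n : ℕ) => Ex (a * (n:ℝ)^2 + b i * n + c i)) i n)) m N -
          ∫ x, f x ∂(μ : Measure (Fin k → ℝ))| ≤ η := by
      intro ε hε
      have hm2 : (1:ℝ)/2 ≤ max (1/2) (p/6) := le_max_left _ _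
      have hm3 : p/6 ≤ max (1/2) (p/6) := le_max_right _ _
      -- the auxiliary exponent
      obtain ⟨q, hq2, hq6, hpq, hqm⟩ : ∃ q : ℝ, 2 ≤ q ∧ q < 6 ∧ p < q ∧ max (1/2) (q/6) + ε/2 ≤ max (1/2) (p/6) + ε := by
        rcases lt_or_ge p 2 with h | h
        · exact ⟨2, le_rfl, by norm_num, h, by
            have : max (1/2) ((2:ℝ)/6) = 1/2 := max_eq_left (by norm_num)
            rw [this]; linarith⟩
        · refine ⟨min ((p+6)/2) (p + 3 * ε), ?_, ?_, ?_, ?_⟩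
          · exact le_min (by linarith) (by linarith)
          · exact lt_of_le_of_lt (min_le_left _ _) (by linarith)
          · exact lt_min (by linarith) (by linarith)
          · have h1 : min ((p+6)/2) (p + 3 * ε) ≤ p + 3 * ε := min_le_right _ _
            have h2 : max (1/2) (min ((p+6)/2) (p + 3 * ε) / 6) ≤ max (1/2) (p/6) + ε/2 :=
              max_le (by linarith) (by linarith)
            linarith
      refine conv_growth (fun (i : Fin k) (n : ℕ) => Ex (a * (n:ℝ)^2 + b i * n + c i)) μ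
        (fun N m => (m:ℝ) ^ (max (1/2) (p/6) + ε) ≤ N) ?_ (p := p) (s := q - p) hp0 (by linarith) ?_ ?_ f hf hfC
      · intro N
        rw [Nat.cast_zero, Real.zero_rpow (by positivity)]; exact Nat.cast_nonneg N
      · intro F hF hFb η hη
        obtain ⟨B, hB⟩ := hFb
        obtain ⟨N0, hN0⟩ := hconv F hF ⟨|B|, fun x => by
          have h1 := hB x
          have h2 : 0 ≤ ∑ i, x i ^ 2 := sum_nonneg (fun i _ => sq_nonneg _)
          have h3 := le_abs_self B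
          have h4 := abs_nonneg B
          nlinarith⟩ ε hε η hη
        refine ⟨N0, fun N hN m hm => ?_⟩
        exact hN0 N hN m (rpow_mono_nat (by linarith) (by linarith) hm)
      · intro i
        have h1 := hL a (b i) (c i) ha (hP i) q hq2 hq6 (ε/2) (by positivity)
        obtain ⟨C, hC, N0, h⟩ := ui_of_lv (e := fun n : ℕ => Ex (a * (n:ℝ)^2 + b i * n + c i)) (p := p) (q := q) hp0.le hpq
          (W := fun N m => (m:ℝ) ^ (max (1/2) (q/6) + ε/2) ≤ N) h1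
        refine ⟨C, hC, N0, fun N hN m hm K hK => ?_⟩
        have hq0 : 0 < max (1/2) (q/6) + ε/2 := by
          have : (1:ℝ)/2 ≤ max (1/2) (q/6) := le_max_left _ _
          linarith
        have h2 := h N hN m (rpow_mono_nat hq0 hqm hm) K hK
        rw [show p - q = -(q - p) by ring] at h2
        exact h2
    refine ⟨(main 1 one_pos).1, ?_⟩
    intro ε hε η hη
    exact (main ε hε).2 η hη
  · exact hset

end Pool.Agent.H425R3.MM
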